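import Pool.Agent.Torelli.Fin.Closed

/-!
# Torelli project, part AB0: dual homomorphisms of a tuple with `∏ [X, X] = zeta`
-/

set_option autoImplicit false

namespace Pool.Agent.Torelli

/-- The integral Heisenberg group. -/
@[ext] structure Hs where
  /-- first coordinate -/
  x : ℤ
  /-- second coordinate -/
  y : ℤ
  /-- central coordinate -/
  z : ℤ

namespace Hs

instance : Mul Hs := ⟨fun g k => ⟨g.x + k.x, g.y + k.y, g.z + k.z + g.x * k.y⟩⟩
instance : One Hs := ⟨⟨0, 0, 0⟩⟩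
instance : Inv Hs := ⟨fun g => ⟨-g.x, -g.y, -g.z + g.x * g.y⟩⟩

@[simp] theorem mul_x (g k : Hs) : (g * k).x = g.x + k.x := rfl
@[simp] theorem mul_y (g k : Hs) : (g * k).y = g.y + k.y := rfl
@[simp] theorem mul_z (g k : Hs) : (g * k).z = g.z + k.z + g.x * k.y := rfl
@[simp] theorem one_x : (1 : Hs).x = 0 := rfl
@[simp] theorem one_y : (1 : Hs).y = 0 := rfl
@[simp] theorem one_z : (1 : Hs).z = 0 := rfl
@[simp] theorem inv_x (g : Hs) : (g⁻¹).x = -g.x := rfl
@[simp] theorem inv_y (g : Hs) : (g⁻¹).y = -g.y := rfl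
@[simp] theorem inv_z (g : Hs) : (g⁻¹).z = -g.z + g.x * g.y := rfl

instance : Group Hs :=
  Group.ofLeftAxioms
    (by intro a b c; ext <;> simp <;> ring)
    (by intro a; ext <;> simp)
    (by intro a; ext <;> simp)

/-- projection to the first coordinate -/
def px : Hs →* Multiplicative ℤ where
  toFun g := Multiplicative.ofAdd g.x
  map_one' := rfl
  map_mul' _ _ := rfl

/-- projection to the second coordinate -/
def py : Hs →* Multiplicative ℤ where
  toFun g := Multiplicative.ofAdd g.y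
  map_one' := rfl
  map_mul' _ _ := rfl

theorem comm_eq (g k : Hs) : g * k * g⁻¹ * k⁻¹ = ⟨0, 0, g.x * k.y - k.x * g.y⟩ := by
  ext
  · simp
  · simp
  · simp; ring

end Hs

/-- exponent sum of the letter `m` -/
def ex (m : ℕ) : F →* Multiplicative ℤ :=
  FreeGroup.lift fun n => Multiplicative.ofAdd (if n = m then 1 else 0)

theorem ex_of (m n : ℕ) : ex m (FreeGroup.of n) = Multiplicative.ofAdd (if n = m then 1 else 0) := by
  simp [ex]

/-- the homomorphism to the Heisenberg group detecting the letters `m`, `m'` -/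
def hsF (m m' : ℕ) : F →* Hs :=
  FreeGroup.lift fun n => ⟨if n = m then 1 else 0, if n = m' then 1 else 0, 0⟩

theorem hsF_x (m m' : ℕ) (u : F) : (hsF m m' u).x = (ex m u).toAdd := by
  have : Hs.px.comp (hsF m m') = ex m := by
    ext n
    simp [hsF, ex, Hs.px]
  rw [← this]
  rfl

theorem hsF_y (m m' : ℕ) (u : F) : (hsF m m' u).y = (ex m' u).toAdd := by
  have : Hs.py.comp (hsF m m') = ex m' := by
    ext n
    simp [hsF, ex, Hs.py]
  rw [← this]
  rfl

theorem prod_central (h : ℕ) (f : ℕ → ℤ) :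
    ((List.range h).map fun j => (⟨0, 0, f j⟩ : Hs)).prod = ⟨0, 0, ∑ j ∈ Finset.range h, f j⟩ := by
  induction h with
  | zero => rfl
  | succ h ih =>
    rw [List.range_succ, List.map_append, List.prod_append, ih, Finset.sum_range_succ]
    ext <;> simp

theorem hs_cprod (s h m m' : ℕ) (X : ℕ → F) : (hsF m m' (cprod s h X)).z =
    ∑ j ∈ Finset.range h, ((ex m (X (2 * (s + j)))).toAdd * (ex m' (X (2 * (s + j) + 1))).toAdd -
      (ex m (X (2 * (s + j) + 1))).toAdd * (ex m' (X (2 * (s + j)))).toAdd) := by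
  rw [map_cprod]
  have : ((List.range h).map fun j => hsF m m' (X (2 * (s + j))) *
      hsF m m' (X (2 * (s + j) + 1)) * (hsF m m' (X (2 * (s + j))))⁻¹ *
      (hsF m m' (X (2 * (s + j) + 1)))⁻¹) = (List.range h).map fun j =>
      (⟨0, 0, (ex m (X (2 * (s + j)))).toAdd * (ex m' (X (2 * (s + j) + 1))).toAdd -
      (ex m (X (2 * (s + j) + 1))).toAdd * (ex m' (X (2 * (s + j)))).toAdd⟩ : Hs) := by
    apply List.map_congr_left
    intro j _
    rw [Hs.comm_eq, hsF_x, hsF_y, hsF_x, hsF_y]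
  rw [this, prod_central]

/-- the letters of the handles `s, ..., s+h-1` -/
def lt (s h : ℕ) : Fin h ⊕ Fin h → ℕ
  | Sum.inl i => 2 * (s + i)
  | Sum.inr i => 2 * (s + i) + 1

theorem lt_inj (s h : ℕ) : Function.Injective (lt s h) := by
  rintro (i | i) (j | j) hij <;> simp only [lt] at hij
  · congr 1; ext; omega
  · omega
  · omega
  · congr 1; ext; omega

theorem lt_surj {s h n : ℕ} (h1 : 2 * s ≤ n) (h2 : n < 2 * (s + h)) : ∃ l, lt s h l = n := by
  rcases Nat.even_or_odd' n with ⟨k, hk | hk⟩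
  · refine ⟨Sum.inl ⟨k - s, by omega⟩, ?_⟩
    simp only [lt]
    omega
  · refine ⟨Sum.inr ⟨k - s, by omega⟩, ?_⟩
    simp only [lt]
    omega

/-- the standard alternating matrix -/
def Jm (h : ℕ) : Matrix (Fin h ⊕ Fin h) (Fin h ⊕ Fin h) ℤ := Matrix.fromBlocks 0 1 (-1) 0

theorem Jm_sq (h : ℕ) : Jm h * Jm h = -1 := by
  rw [Jm, Matrix.fromBlocks_multiply]
  simp only [mul_zero, zero_mul, zero_add, add_zero, mul_neg, mul_one, neg_mul, one_mul,
    neg_zero]
  rw [← Matrix.fromBlocks_one, Matrix.fromBlocks_neg]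
  simp

/-- the matrix of exponent sums of a tuple -/
def Am (s h : ℕ) (X : ℕ → F) : Matrix (Fin h ⊕ Fin h) (Fin h ⊕ Fin h) ℤ :=
  fun l m => (ex (lt s h m) (X (lt s h l))).toAdd

theorem AJA_apply (s h : ℕ) (X : ℕ → F) (m m' : Fin h ⊕ Fin h) :
    ((Am s h X).transpose * Jm h * Am s h X) m m' =
      (hsF (lt s h m) (lt s h m') (cprod s h X)).z := by
  rw [hs_cprod, Finset.sum_range]
  rw [Matrix.mul_assoc, Matrix.mul_apply, Fintype.sum_sum_type]
  have e1 : ∀ j : Fin h, (Jm h * Am s h X) (Sum.inl j) m' = Am s h X (Sum.inr j) m' := by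
    intro j
    rw [Matrix.mul_apply, Fintype.sum_sum_type]
    simp [Jm, Matrix.one_apply]
  have e2 : ∀ j : Fin h, (Jm h * Am s h X) (Sum.inr j) m' = -Am s h X (Sum.inl j) m' := by
    intro j
    rw [Matrix.mul_apply, Fintype.sum_sum_type]
    simp [Jm, Matrix.one_apply]
  simp only [e1, e2, Matrix.transpose_apply]
  rw [← Finset.sum_add_distrib]
  refine Finset.sum_congr rfl fun j _ => ?_
  simp only [Am, lt]
  ring

theorem Am_std (s h : ℕ) : Am s h (fun n => FreeGroup.of n) = 1 := by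
  ext l m
  simp only [Am, ex_of, toAdd_ofAdd, Matrix.one_apply]
  by_cases hlm : l = m
  · subst hlm; simp
  · have : lt s h l ≠ lt s h m := fun e => hlm (lt_inj s h e)
    simp [hlm, this]

theorem AJA (s h : ℕ) (X : ℕ → F) (hX : cprod s h X = zeta s h) :
    (Am s h X).transpose * Jm h * Am s h X = Jm h := by
  ext m m'
  rw [AJA_apply, hX, ← cprod_of, ← AJA_apply, Am_std]
  simp

/-- AB0: the dual homomorphisms. -/
theorem dual_of_cprod (s h : ℕ) (X : ℕ → F) (hX : cprod s h X = zeta s h) (n : ℕ)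
    (h1 : 2 * s ≤ n) (h2 : n < 2 * (s + h)) : ∃ φ : F →* Multiplicative ℤ,
      φ (X n) = Multiplicative.ofAdd 1 ∧
      ∀ m, 2 * s ≤ m → m < 2 * (s + h) → m ≠ n → φ (X m) = 1 := by
  set A := Am s h X with hA
  set B := -(Jm h * A.transpose * Jm h) with hB
  have hBA : B * A = 1 := by
    rw [hB, Matrix.neg_mul, Matrix.mul_assoc, Matrix.mul_assoc, ← Matrix.mul_assoc A.transpose,
      AJA s h X hX, Jm_sq, neg_neg]
  have hAB : A * B = 1 := by
    rwa [mul_eq_one_comm]
  obtain ⟨l, hl⟩ := lt_surj h1 h2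
  have key : ∀ l', (∏ m, (ex (lt s h m)) ^ (B m l) : F →* Multiplicative ℤ) (X (lt s h l')) =
      Multiplicative.ofAdd ((1 : Matrix (Fin h ⊕ Fin h) (Fin h ⊕ Fin h) ℤ) l' l) := by
    intro l'
    rw [← hAB, Matrix.mul_apply, MonoidHom.finsetProd_apply, ofAdd_sum]
    refine Finset.prod_congr rfl fun m _ => ?_
    rw [hA, Am]
    have : ∀ (f : F →* Multiplicative ℤ) (k : ℤ) (x : F), (f ^ k) x = (f x) ^ k := by
      intro f k x
      rfl
    rw [this, ← ofAdd_toAdd (ex (lt s h m) (X (lt s h l'))), ← ofAdd_zsmul]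
    simp [mul_comm]
  refine ⟨∏ m, (ex (lt s h m)) ^ (B m l), ?_, ?_⟩
  · rw [← hl, key]; simp
  · intro m hm1 hm2 hmn
    obtain ⟨l', hl'⟩ := lt_surj hm1 hm2
    rw [← hl', key]
    have : l' ≠ l := by
      rintro rfl
      exact hmn (hl'.symm.trans hl)
    simp [this]

end Pool.Agent.Torelli
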