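import Pool.Agent.Torelli.AB.Marking
import Pool.Agent.Torelli.Fin.Closed

/-!
# Torelli project, part AB10: from markings to lifts
-/

set_option autoImplicit false

namespace Pool.Agent.Torelli

/-- the standard order of the germs -/
def stdV : ℕ → ℕ → List Germ
  | _, 0 => []
  | s, h + 1 => (2 * s, true) :: (2 * s + 1, false) :: (2 * s, false) :: (2 * s + 1, true) ::
      stdV (s + 1) h

theorem mem_stdV (h : ℕ) : ∀ (s : ℕ) (u : Germ), u ∈ stdV s h ↔ 2 * s ≤ u.1 ∧ u.1 < 2 * (s + h) := by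
  induction h with
  | zero => intro s u; simp [stdV]
  | succ h ih =>
    intro s u
    rcases u with ⟨n, e⟩
    simp only [stdV, List.mem_cons, ih, Prod.mk.injEq]
    constructor
    · rintro (⟨h1, _⟩ | ⟨h1, _⟩ | ⟨h1, _⟩ | ⟨h1, _⟩ | ⟨h1, h2⟩) <;> constructor <;> omega
    · rintro ⟨h1, h2⟩
      by_cases e1 : n = 2 * s
      · cases e <;> simp [e1]
      by_cases e2 : n = 2 * s + 1
      · cases e <;> simp [e2]
      · right; right; right; right
        constructor <;> omega

theorem nodup_stdV (h : ℕ) : ∀ s, (stdV s h).Nodup := by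
  induction h with
  | zero => intro s; simp [stdV]
  | succ h ih =>
    intro s
    simp only [stdV, List.nodup_cons, List.mem_cons, mem_stdV, Prod.mk.injEq]
    refine ⟨?_, ?_, ?_, ?_, ih (s + 1)⟩
    · rintro (⟨h1, _⟩ | ⟨_, h2⟩ | ⟨h1, _⟩ | ⟨h1, _⟩)
      · omega
      · simp at h2
      · omega
      · omega
    · rintro (⟨h1, _⟩ | ⟨_, h2⟩ | ⟨h1, _⟩)
      · omega
      · simp at h2
      · omega
    · rintro (⟨h1, _⟩ | ⟨h1, _⟩)
      · omega
      · omega
    · rintro ⟨h1, _⟩
      omega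

theorem length_stdV (h : ℕ) : ∀ s, (stdV s h).length = 4 * h := by
  induction h with
  | zero => intro s; simp [stdV]
  | succ h ih => intro s; simp only [stdV, List.length_cons, ih]; ring

/-- corner values of the standard marking; `x i` is the value before handle `i` -/
def stdh (X : ℕ → F) (x : ℕ → F) (u : Germ) : F :=
  if u.1 % 2 = 0 then
    (if u.2 then x (u.1 / 2) else x (u.1 / 2) * X (2 * (u.1 / 2)) * X (2 * (u.1 / 2) + 1))
  else
    (if u.2 then x (u.1 / 2) * X (2 * (u.1 / 2))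
      else x (u.1 / 2) * X (2 * (u.1 / 2)) * X (2 * (u.1 / 2) + 1) * (X (2 * (u.1 / 2)))⁻¹)

theorem stdh_at (X x : ℕ → F) (i : ℕ) : stdh X x (2 * i, true) = x i := by
  simp [stdh]
theorem stdh_af (X x : ℕ → F) (i : ℕ) :
    stdh X x (2 * i, false) = x i * X (2 * i) * X (2 * i + 1) := by
  simp [stdh]
theorem stdh_bt (X x : ℕ → F) (i : ℕ) : stdh X x (2 * i + 1, true) = x i * X (2 * i) := by
  have h1 : (2 * i + 1) % 2 = 1 := by omega
  have h2 : (2 * i + 1) / 2 = i := by omega
  simp [stdh, h1, h2]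
theorem stdh_bf (X x : ℕ → F) (i : ℕ) :
    stdh X x (2 * i + 1, false) = x i * X (2 * i) * X (2 * i + 1) * (X (2 * i))⁻¹ := by
  have h1 : (2 * i + 1) % 2 = 1 := by omega
  have h2 : (2 * i + 1) / 2 = i := by omega
  simp [stdh, h1, h2]

theorem Path_stdV (X x : ℕ → F) (h : ℕ) : ∀ s,
    (∀ i, s ≤ i → x (i + 1) =
      x i * (X (2 * i) * X (2 * i + 1) * (X (2 * i))⁻¹ * (X (2 * i + 1))⁻¹)) →
    Path X (stdh X x) (x s) (stdV s h) (x (s + h)) := by
  induction h with
  | zero => intro s _; simp [stdV]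
  | succ h ih =>
    intro s hx
    have e1 : tau (2 * s, true) = (2 * s, false) := rfl
    have e2 : tau (2 * s, false) = (2 * s, true) := rfl
    have e3 : tau (2 * s + 1, true) = (2 * s + 1, false) := rfl
    have e4 : tau (2 * s + 1, false) = (2 * s + 1, true) := rfl
    simp only [stdV, Path_cons, e1, e2, e3, e4, stdh_at, stdh_af, stdh_bt, stdh_bf, Xs_true,
      Xs_false, true_and]
    have h2 := ih (s + 1) (fun i hi => hx i (by omega))
    rw [hx s le_rfl] at h2
    have e5 : s + 1 + h = s + (h + 1) := by ring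
    rw [e5] at h2
    convert h2 using 1
    group

theorem cprodL_succ (s h : ℕ) (X : ℕ → F) : cprod s (h + 1) X = cprod s h X *
    (X (2 * (s + h)) * X (2 * (s + h) + 1) * (X (2 * (s + h)))⁻¹ * (X (2 * (s + h) + 1))⁻¹) := by
  unfold cprod
  rw [List.range_succ, List.map_append, List.prod_append]
  simp

theorem cprodL_succ' (s h : ℕ) (X : ℕ → F) : cprod s (h + 1) X =
    (X (2 * s) * X (2 * s + 1) * (X (2 * s))⁻¹ * (X (2 * s + 1))⁻¹) * cprod (s + 1) h X := by
  induction h with
  | zero => simp [cprod]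
  | succ h ih =>
    rw [cprodL_succ, ih, cprodL_succ (s + 1) h]
    have e : s + 1 + h = s + (h + 1) := by ring
    rw [e]
    group

/-- The standard marking attached to a tuple. -/
theorem std_marking (s h : ℕ) (X : ℕ → F)
    (hd : ∀ n, 2 * s ≤ n → n < 2 * (s + h) → ∃ φ : F →* Multiplicative ℤ,
      φ (X n) = Multiplicative.ofAdd 1 ∧
      ∀ m, 2 * s ≤ m → m < 2 * (s + h) → m ≠ n → φ (X m) = 1) :
    ∃ hh, Mk (stdV s h) X hh (cprod s h X) := by
  set x : ℕ → F := fun i => cprod s (i - s) X with hx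
  have hx1 : ∀ i, s ≤ i →
      x (i + 1) = x i * (X (2 * i) * X (2 * i + 1) * (X (2 * i))⁻¹ * (X (2 * i + 1))⁻¹) := by
    intro i hi
    simp only [hx]
    have e : i + 1 - s = (i - s) + 1 := by omega
    rw [e, cprodL_succ]
    have e2 : s + (i - s) = i := by omega
    rw [e2]
  have hxs : x s = 1 := by simp [hx, cprod]
  have hxh : x (s + h) = cprod s h X := by simp [hx]
  have hp := Path_stdV X x h s hx1
  rw [hxs, hxh] at hp
  refine ⟨_, nodup_stdV h s, ?_, hp, ?_⟩
  · intro u hu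
    rw [mem_stdV] at hu ⊢
    exact hu
  · intro u hu
    rw [mem_stdV] at hu
    obtain ⟨φ, h1, h2⟩ := hd u.1 hu.1 hu.2
    have h3 : ∀ v ∈ stdV s h, v.1 ≠ u.1 → φ (Xs X v) = 1 := by
      intro v hv hvu
      rw [mem_stdV] at hv
      unfold Xs
      split_ifs
      · exact h2 _ hv.1 hv.2 hvu
      · rw [map_inv, h2 _ hv.1 hv.2 hvu, inv_one]
    rcases u with ⟨n, e⟩
    cases e
    · refine ⟨φ⁻¹, ?_, ?_⟩
      · rw [Xs_false, MonoidHom.inv_apply, map_inv, inv_inv, h1]
      · intro v hv hvu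
        rw [MonoidHom.inv_apply, h3 v hv hvu, inv_one]
    · exact ⟨φ, by rw [Xs_true, h1], h3⟩

theorem map_cprodL (θ : MulAut F) (s h : ℕ) (X : ℕ → F) :
    θ (cprod s h X) = cprod s h (fun n => θ (X n)) := by
  unfold cprod
  rw [map_list_prod, List.map_map]
  congr 1
  apply List.map_congr_left
  intro j _
  simp

/-- LIFT from the goodness of all linked pairs. -/
theorem lift_of_good
    (good : ∀ (g s : ℕ) (V : List Germ) (X : ℕ → F) (h : Germ → F), V.length = 4 * g →
      Mk V X h (zeta s g) → ∀ u v, NL V u v → Good s g X u v)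
    (dual : ∀ (s h : ℕ) (X : ℕ → F), cprod s h X = zeta s h → ∀ n, 2 * s ≤ n → n < 2 * (s + h) →
      ∃ φ : F →* Multiplicative ℤ, φ (X n) = Multiplicative.ofAdd 1 ∧
      ∀ m, 2 * s ≤ m → m < 2 * (s + h) → m ≠ n → φ (X m) = 1) (h : ℕ) :
    ∀ (s : ℕ) (X : ℕ → F), cprod s h X = zeta s h →
      ∃ t ∈ M s h, ∀ n, 2 * s ≤ n → n < 2 * (s + h) → t (FreeGroup.of n) = X n := by
  induction h with
  | zero =>
    intro s X _
    exact ⟨1, one_mem _, fun n h1 h2 => by omega⟩
  | succ h ih =>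
    intro s X hX
    obtain ⟨hh, hM⟩ := std_marking s (h + 1) X (dual s (h + 1) X hX)
    rw [hX] at hM
    have hnl : NL (stdV s (h + 1)) (2 * s, true) (2 * s + 1, true) := by
      have e : stdV s (h + 1) = [(2 * s, true), (2 * s + 1, false), (2 * s, false),
        (2 * s + 1, true)] ++ stdV (s + 1) h := rfl
      rw [e]
      exact List.sublist_append_left _ _
    obtain ⟨θ, hθ, g1, g2⟩ := good (h + 1) s _ X hh (length_stdV _ _) hM _ _ hnl
    rw [Xs_true] at g1 g2
    have e1 : θ⁻¹ (X (2 * s)) = a s := aut_inv_eq g1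
    have e2 : θ⁻¹ (X (2 * s + 1)) = b s := aut_inv_eq g2
    have hX1 : cprod s (h + 1) (fun n => θ⁻¹ (X n)) = zeta s (h + 1) := by
      rw [← map_cprodL, hX]
      exact M_zeta (inv_mem hθ)
    rw [cprodL_succ', zeta_succ'] at hX1
    simp only [e1, e2] at hX1
    have hX2 : cprod (s + 1) h (fun n => θ⁻¹ (X n)) = zeta (s + 1) h := by
      rw [H] at hX1
      exact mul_left_cancel hX1
    obtain ⟨t, ht, g3⟩ := ih (s + 1) _ hX2
    have ht' : t ∈ M s (h + 1) := M_mono (by omega) (by omega) ht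
    refine ⟨θ * t, mul_mem hθ ht', ?_⟩
    intro n h1 h2
    rw [MulAut.mul_apply]
    by_cases c1 : n = 2 * s
    · subst c1
      have : t (FreeGroup.of (2 * s)) = a s := M_fix_a ht (Or.inl (by omega))
      rw [this, g1]
    by_cases c2 : n = 2 * s + 1
    · subst c2
      have : t (FreeGroup.of (2 * s + 1)) = b s := M_fix_b ht (Or.inl (by omega))
      rw [this, g2]
    · rw [g3 n (by omega) (by omega)]
      exact MulAut.apply_inv_self _ _ _

end Pool.Agent.Torelli
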