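import Pool.Agent.Torelli.AB.PropA

/-!
# Torelli project, part AB8: propagation of goodness
-/

set_option autoImplicit false
set_option linter.unusedSimpArgs false

namespace Pool.Agent.Torelli

section
variable {s g : ℕ} {V0 V3 V2 V1 V4 : List Germ} {p q : Germ} {X : ℕ → F} {h : Germ → F}

/-- pairs sharing a label with `(p, q)` are good (normalised context) -/
theorem Nor.share (hN : Nor s g V0 V3 V2 V1 V4 p q X h) (hAB : ABg g) (h6 : AB6i)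
    {r t : Germ}
    (hNL : NL (V0 ++ p :: (V3 ++ tau q :: (V2 ++ tau p :: (V1 ++ q :: V4)))) r t)
    (hrt : r.1 = p.1 ∨ r.1 = q.1 ∨ t.1 = p.1 ∨ t.1 = q.1) : Good s (g + 1) X r t := by
  have hm := (nl_iff_pos hN.mkg.nodup).1 hNL
  obtain ⟨⟨m1, -, -, m4⟩, i1, i2, i3⟩ := hm
  by_cases hr : r.1 = p.1 ∨ r.1 = q.1
  · by_cases ht : t.1 = p.1 ∨ t.1 = q.1
    · -- both
      obtain ⟨q1, q2, q3, q4⟩ := idx_pq hN.mkg.nodup
      have hp := hN.hp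
      have hq := hN.hq
      have hrt' : r = p ∧ t = q := by
        generalize (V0 ++ p :: (V3 ++ tau q :: (V2 ++ tau p :: (V1 ++ q :: V4)))) = V at *
        rcases hr with h1 | h1 <;> rcases ht with h2 | h2 <;>
          rcases eq_or_eq_tau h1 with h1 | h1 <;> rcases eq_or_eq_tau h2 with h2 | h2 <;>
          rw [h1, h2] at i1 i2 i3 <;> (try simp only [tau_tau] at i1 i2 i3) <;>
          first | (exfalso; omega) | exact ⟨h1, h2⟩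
      rw [hrt'.1, hrt'.2]
      exact ⟨1, (M _ _).one_mem, by rw [hp]; rfl, by rw [hq]; rfl⟩
    · -- `t` is the other label
      rw [not_or] at ht
      have htb : t ∈ Vbar V0 V3 V2 V1 V4 := (mem_Vbar hN.mkg.nodup).2 ⟨m4, ht⟩
      have htb' := hN.bar.closed t htb
      rcases le_total (sec V0 V3 V2 V1 t) (sec V0 V3 V2 V1 (tau t)) with hl | hl
      · rcases hr with hr | hr
        · exact hN.share_p hAB h6 htb hl hNL (Or.inr ⟨hr, rfl⟩)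
        · exact hN.share_q hAB h6 htb hl hNL (Or.inr ⟨hr, rfl⟩)
      · rw [← tau_tau t] at hl
        rw [tau_tau (tau t)] at hl
        rcases hr with hr | hr
        · exact hN.share_p hAB h6 htb' hl hNL (Or.inr ⟨hr, rfl⟩)
        · exact hN.share_q hAB h6 htb' hl hNL (Or.inr ⟨hr, rfl⟩)
  · have ht : t.1 = p.1 ∨ t.1 = q.1 := by tauto
    rw [not_or] at hr
    have hrb : r ∈ Vbar V0 V3 V2 V1 V4 := (mem_Vbar hN.mkg.nodup).2 ⟨m1, hr⟩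
    have hrb' := hN.bar.closed r hrb
    rcases le_total (sec V0 V3 V2 V1 r) (sec V0 V3 V2 V1 (tau r)) with hl | hl
    · rcases ht with ht | ht
      · exact hN.share_p hAB h6 hrb hl hNL (Or.inl ⟨rfl, ht⟩)
      · exact hN.share_q hAB h6 hrb hl hNL (Or.inl ⟨rfl, ht⟩)
    · rw [← tau_tau r] at hl
      rw [tau_tau (tau r)] at hl
      rcases ht with ht | ht
      · exact hN.share_p hAB h6 hrb' hl hNL (Or.inl ⟨rfl, ht⟩)
      · exact hN.share_q hAB h6 hrb' hl hNL (Or.inl ⟨rfl, ht⟩)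

/-- labels lying in two different sectors, not `0` and `4`, are linked with `p` or `q` -/
theorem Nor.linked (hN : Nor s g V0 V3 V2 V1 V4 p q X h) {z : Germ}
    (hz : z ∈ Vbar V0 V3 V2 V1 V4) (hlt : sec V0 V3 V2 V1 z < sec V0 V3 V2 V1 (tau z))
    (h04 : ¬ (sec V0 V3 V2 V1 z = 0 ∧ sec V0 V3 V2 V1 (tau z) = 4)) :
    ∃ x y, NL (V0 ++ p :: (V3 ++ tau q :: (V2 ++ tau p :: (V1 ++ q :: V4)))) x y ∧
      ((x.1 = z.1 ∧ (y.1 = p.1 ∨ y.1 = q.1)) ∨ (y.1 = z.1 ∧ (x.1 = p.1 ∨ x.1 = q.1))) := by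
  have hz' := hN.bar.closed z hz
  obtain ⟨q1, q2, q3, q4⟩ := idx_pq hN.mkg.nodup
  obtain ⟨l, hl⟩ := idx_sector hN.mkg.nodup hz
  obtain ⟨l', hl'⟩ := idx_sector hN.mkg.nodup hz'
  have hzV := ((mem_Vbar hN.mkg.nodup).1 hz).1
  have hzV' := ((mem_Vbar hN.mkg.nodup).1 hz').1
  have hpV : p ∈ (V0 ++ p :: (V3 ++ tau q :: (V2 ++ tau p :: (V1 ++ q :: V4)))) := by simp
  have hpV' : tau p ∈ (V0 ++ p :: (V3 ++ tau q :: (V2 ++ tau p :: (V1 ++ q :: V4)))) := by simp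
  have hqV : q ∈ (V0 ++ p :: (V3 ++ tau q :: (V2 ++ tau p :: (V1 ++ q :: V4)))) := by simp
  have hqV' : tau q ∈ (V0 ++ p :: (V3 ++ tau q :: (V2 ++ tau p :: (V1 ++ q :: V4)))) := by simp
  have hnd := hN.mkg.nodup
  generalize (V0 ++ p :: (V3 ++ tau q :: (V2 ++ tau p :: (V1 ++ q :: V4)))) = V at *
  have key : NL V z (tau p) ∨ NL V z q ∨ NL V p z ∨ NL V p (tau z) ∨ NL V (tau z) q ∨
      NL V (tau q) (tau z) := by
    simp only [nl_iff_pos hnd, tau_tau, hzV, hzV', hpV, hpV', hqV, hqV', true_and]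
    rcases hl with ⟨-, e1, b1, c1, -⟩ | ⟨-, e1, b1, c1, -⟩ | ⟨-, e1, b1, c1, -⟩ |
        ⟨-, e1, b1, c1, -⟩ | ⟨-, e1, b1, c1, -⟩ <;>
      rcases hl' with ⟨-, e2, b2, c2, -⟩ | ⟨-, e2, b2, c2, -⟩ | ⟨-, e2, b2, c2, -⟩ |
        ⟨-, e2, b2, c2, -⟩ | ⟨-, e2, b2, c2, -⟩ <;>
      rw [e1, e2] at hlt h04 <;> omega
  rcases key with k | k | k | k | k | k
  · exact ⟨_, _, k, Or.inl ⟨rfl, Or.inl rfl⟩⟩
  · exact ⟨_, _, k, Or.inl ⟨rfl, Or.inr rfl⟩⟩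
  · exact ⟨_, _, k, Or.inr ⟨rfl, Or.inl rfl⟩⟩
  · exact ⟨_, _, k, Or.inr ⟨rfl, Or.inl rfl⟩⟩
  · exact ⟨_, _, k, Or.inl ⟨rfl, Or.inr rfl⟩⟩
  · exact ⟨_, _, k, Or.inr ⟨rfl, Or.inr rfl⟩⟩

/-- the two labels are linked neither with `p` nor with `q` -/
theorem Nor.far (hN : Nor s g V0 V3 V2 V1 V4 p q X h) (hAB : ABg g)
    {r t : Germ}
    (hNL : NL (V0 ++ p :: (V3 ++ tau q :: (V2 ++ tau p :: (V1 ++ q :: V4)))) r t)
    (hr : r ∈ Vbar V0 V3 V2 V1 V4) (ht : t ∈ Vbar V0 V3 V2 V1 V4)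
    (hr2 : sec V0 V3 V2 V1 r = sec V0 V3 V2 V1 (tau r) ∨
      (sec V0 V3 V2 V1 r = 0 ∧ sec V0 V3 V2 V1 (tau r) = 4) ∨
      (sec V0 V3 V2 V1 r = 4 ∧ sec V0 V3 V2 V1 (tau r) = 0))
    (ht2 : sec V0 V3 V2 V1 t = sec V0 V3 V2 V1 (tau t) ∨
      (sec V0 V3 V2 V1 t = 0 ∧ sec V0 V3 V2 V1 (tau t) = 4) ∨
      (sec V0 V3 V2 V1 t = 4 ∧ sec V0 V3 V2 V1 (tau t) = 0)) : Good s (g + 1) X r t := by
  have hg := hN.g_pos hr
  have hr' := hN.bar.closed r hr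
  have ht' := hN.bar.closed t ht
  have hm := (nl_iff_pos hN.mkg.nodup).1 hNL
  obtain ⟨-, i1, i2, i3⟩ := hm
  obtain ⟨l1, hl1⟩ := idx_sector hN.mkg.nodup hr
  obtain ⟨l2, hl2⟩ := idx_sector hN.mkg.nodup hr'
  obtain ⟨l3, hl3⟩ := idx_sector hN.mkg.nodup ht
  obtain ⟨l4, hl4⟩ := idx_sector hN.mkg.nodup ht'
  have hbnd := Vbar_nodup hN.mkg.nodup
  have key : (NL (Vbar V0 V3 V2 V1 V4) r t) ∧
     ((∃ i, sec V0 V3 V2 V1 r = i ∧ sec V0 V3 V2 V1 (tau r) = i ∧ sec V0 V3 V2 V1 t = i ∧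
      sec V0 V3 V2 V1 (tau t) = i ∧ i ≤ 4) ∨
      (sec V0 V3 V2 V1 r = 0 ∧ sec V0 V3 V2 V1 (tau t) = 0 ∧ sec V0 V3 V2 V1 (tau r) = 0 ∧
        sec V0 V3 V2 V1 t = 4) ∨
      (sec V0 V3 V2 V1 r = 0 ∧ sec V0 V3 V2 V1 (tau t) = 0 ∧ sec V0 V3 V2 V1 (tau r) = 4 ∧
        sec V0 V3 V2 V1 t = 4) ∨
      (sec V0 V3 V2 V1 r = 0 ∧ sec V0 V3 V2 V1 (tau t) = 4 ∧ sec V0 V3 V2 V1 (tau r) = 4 ∧
        sec V0 V3 V2 V1 t = 4)) := by
    rw [nl_iff_pos hbnd]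
    simp only [hr, hr', ht, ht', true_and]
    generalize (V0 ++ p :: (V3 ++ tau q :: (V2 ++ tau p :: (V1 ++ q :: V4)))) = V at *
    rcases hl1 with ⟨-, e1, b1, c1, d1⟩ | ⟨-, e1, b1, c1, d1⟩ | ⟨-, e1, b1, c1, d1⟩ |
        ⟨-, e1, b1, c1, d1⟩ | ⟨-, e1, b1, c1, d1⟩ <;>
      rcases hl2 with ⟨-, e2, b2, c2, d2⟩ | ⟨-, e2, b2, c2, d2⟩ | ⟨-, e2, b2, c2, d2⟩ |
        ⟨-, e2, b2, c2, d2⟩ | ⟨-, e2, b2, c2, d2⟩ <;>
      rw [e1, e2] at hr2 <;> first | (exfalso; omega) | skip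
    all_goals
      rcases hl3 with ⟨-, e3, b3, c3, d3⟩ | ⟨-, e3, b3, c3, d3⟩ | ⟨-, e3, b3, c3, d3⟩ |
        ⟨-, e3, b3, c3, d3⟩ | ⟨-, e3, b3, c3, d3⟩ <;> first | (exfalso; omega) | skip
    all_goals
      rcases hl4 with ⟨-, e4, b4, c4, d4⟩ | ⟨-, e4, b4, c4, d4⟩ | ⟨-, e4, b4, c4, d4⟩ |
        ⟨-, e4, b4, c4, d4⟩ | ⟨-, e4, b4, c4, d4⟩ <;> rw [e3, e4] at ht2 <;>
      first | (exfalso; omega) | skip
    all_goals
      rw [d1, d2, d3, d4, e1, e2, e3, e4]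
      refine ⟨by omega, ?_⟩
    all_goals
      first
      | exact Or.inl ⟨_, rfl, rfl, rfl, rfl, by omega⟩
      | (right; omega)
  obtain ⟨hb, hsec⟩ := key
  obtain ⟨γ, g1, g2, g3⟩ := hAB _ _ _ _ hN.lenbar hN.bar _ _ hb
  have er := Xs_of_Xbar s V0 V3 V2 V1 X r
  have et := Xs_of_Xbar s V0 V3 V2 V1 X t
  rw [← g2] at er
  rw [← g3] at et
  have fH := fix_H g1
  rcases hsec with ⟨i, s1, s2, s3, s4, hi⟩ | ⟨s1, s2, s3, s4⟩ | ⟨s1, s2, s3, s4⟩ |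
    ⟨s1, s2, s3, s4⟩
  · rw [s1, s2] at er
    rw [s3, s4] at et
    have fc := fix_c g1 i
    have er' : Xs X r = γ ((cS s i)⁻¹ * H s * a (s + 1) * (H s)⁻¹ * cS s i) := by
      rw [er]; simp only [map_mul, map_inv, fH, fc]
    have et' : Xs X t = γ ((cS s i)⁻¹ * H s * b (s + 1) * (H s)⁻¹ * cS s i) := by
      rw [et]; simp only [map_mul, map_inv, fH, fc]
    have hi' : i = 0 ∨ i = 1 ∨ i = 2 ∨ i = 3 ∨ i = 4 := by omega
    rcases hi' with rfl | rfl | rfl | rfl | rfl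
    · exact good_TG g1 hg (tabS0 s) er' et'
    · exact good_TG g1 hg (tabS1 s) er' et'
    · exact good_TG g1 hg (tabS2 s) er' et'
    · exact good_TG g1 hg (tabS3 s) er' et'
    · exact good_TG g1 hg (tabS4 s) er' et'
  · rw [s1, s3] at er
    rw [s4, s2] at et
    refine good_TG g1 hg (tabX0004 s) ?_ ?_
    · rw [er]; simp only [map_mul, map_inv, fH, cS, inv_one, one_mul, mul_one]
    · rw [et]; simp only [map_mul, map_inv, fH, cS, inv_one, one_mul, mul_one, inv_mul_cancel]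
  · rw [s1, s3] at er
    rw [s4, s2] at et
    refine good_TG g1 hg (tabX0044 s) ?_ ?_
    · rw [er]; simp only [map_mul, map_inv, fH, cS, inv_one, one_mul, mul_one,
        inv_mul_cancel_right]
    · rw [et]; simp only [map_mul, map_inv, fH, cS, inv_one, one_mul, mul_one, inv_mul_cancel]
  · rw [s1, s3] at er
    rw [s4, s2] at et
    refine good_TG g1 hg (tabX0444 s) ?_ ?_
    · rw [er]; simp only [map_mul, map_inv, fH, cS, inv_one, one_mul, mul_one,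
        inv_mul_cancel_right]
    · rw [et]; simp only [fH, cS]; group


end

section
variable {s g : ℕ} {V : List Germ} {X : ℕ → F} {h : Germ → F} {p q r t : Germ}

theorem exists_nor (hM : Mk V X h (zeta s (g + 1))) (hlen : V.length = 4 * (g + 1))
    (hpq : NL V p q) (hG : Good s (g + 1) X p q) :
    ∃ θ ∈ M s (g + 1), ∃ V0 V3 V2 V1 V4,
      V = V0 ++ p :: (V3 ++ tau q :: (V2 ++ tau p :: (V1 ++ q :: V4))) ∧
      Nor s g V0 V3 V2 V1 V4 p q (fun n => θ⁻¹ (X n)) (fun u => θ⁻¹ (h u)) := by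
  obtain ⟨V0, V3, V2, V1, V4, hV⟩ := hpq.split
  obtain ⟨θ, h1, h2, h3⟩ := hG
  refine ⟨θ, h1, V0, V3, V2, V1, V4, hV, ?_, ?_, ?_, ?_⟩
  · have := hM.map θ⁻¹
    rw [M_zeta ((M s (g + 1)).inv_mem h1)] at this
    rwa [← hV]
  · rw [← hV, hlen]
  · rw [Xs_map, ← h2, MulAut.inv_apply_self]
  · rw [Xs_map, ← h3, MulAut.inv_apply_self]

theorem good_share (hAB : ABg g) (h6 : AB6i) (hM : Mk V X h (zeta s (g + 1)))
    (hlen : V.length = 4 * (g + 1)) (hpq : NL V p q) (hG : Good s (g + 1) X p q) (hrt : NL V r t)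
    (hs : r.1 = p.1 ∨ r.1 = q.1 ∨ t.1 = p.1 ∨ t.1 = q.1) : Good s (g + 1) X r t := by
  obtain ⟨θ, h1, V0, V3, V2, V1, V4, hV, hN⟩ := exists_nor hM hlen hpq hG
  rw [hV] at hrt
  exact Good.unmap h1 (hN.share hAB h6 hrt hs)

/-- If a label `z` is not linked with `p` or `q` then its sectors are equal or `0` and `4`. -/
theorem Nor.sec_cases {V0 V3 V2 V1 V4 : List Germ} (hN : Nor s g V0 V3 V2 V1 V4 p q X h) {z : Germ}
    (hz : z ∈ Vbar V0 V3 V2 V1 V4) :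
    (∃ x y, NL (V0 ++ p :: (V3 ++ tau q :: (V2 ++ tau p :: (V1 ++ q :: V4)))) x y ∧
      ((x.1 = z.1 ∧ (y.1 = p.1 ∨ y.1 = q.1)) ∨ (y.1 = z.1 ∧ (x.1 = p.1 ∨ x.1 = q.1)))) ∨
    (sec V0 V3 V2 V1 z = sec V0 V3 V2 V1 (tau z) ∨
      (sec V0 V3 V2 V1 z = 0 ∧ sec V0 V3 V2 V1 (tau z) = 4) ∨
      (sec V0 V3 V2 V1 z = 4 ∧ sec V0 V3 V2 V1 (tau z) = 0)) := by
  rcases lt_trichotomy (sec V0 V3 V2 V1 z) (sec V0 V3 V2 V1 (tau z)) with hl | hl | hl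
  · by_cases h04 : sec V0 V3 V2 V1 z = 0 ∧ sec V0 V3 V2 V1 (tau z) = 4
    · exact Or.inr (Or.inr (Or.inl h04))
    · exact Or.inl (hN.linked hz hl h04)
  · exact Or.inr (Or.inl hl)
  · by_cases h04 : sec V0 V3 V2 V1 (tau z) = 0 ∧ sec V0 V3 V2 V1 z = 4
    · exact Or.inr (Or.inr (Or.inr ⟨h04.2, h04.1⟩))
    · refine Or.inl ?_
      have := hN.linked (hN.bar.closed z hz) (by rw [tau_tau]; exact hl) (by rw [tau_tau]; exact h04)
      exact this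

/-- **AB8.** -/
theorem propagate (hAB : ABg g) (h6 : AB6i) (hM : Mk V X h (zeta s (g + 1)))
    (hlen : V.length = 4 * (g + 1)) (hpq : NL V p q) (hG : Good s (g + 1) X p q) (hrt : NL V r t) :
    Good s (g + 1) X r t := by
  by_cases hs : r.1 = p.1 ∨ r.1 = q.1 ∨ t.1 = p.1 ∨ t.1 = q.1
  · exact good_share hAB h6 hM hlen hpq hG hrt hs
  obtain ⟨θ, h1, V0, V3, V2, V1, V4, hV, hN⟩ := exists_nor hM hlen hpq hG
  simp only [not_or] at hs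
  have hm := hrt.mem
  have hr : r ∈ Vbar V0 V3 V2 V1 V4 :=
    (mem_Vbar hN.mkg.nodup).2 ⟨hV ▸ hm.1, hs.1, hs.2.1⟩
  have ht : t ∈ Vbar V0 V3 V2 V1 V4 :=
    (mem_Vbar hN.mkg.nodup).2 ⟨hV ▸ hm.2.2.2, hs.2.2.1, hs.2.2.2⟩
  rcases hN.sec_cases hr with ⟨x, y, hxy, hc⟩ | hr2
  · rw [← hV] at hxy
    have hgood : Good s (g + 1) X x y := good_share hAB h6 hM hlen hpq hG hxy (by tauto)
    exact good_share hAB h6 hM hlen hxy hgood hrt (by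
      rcases hc with ⟨e, -⟩ | ⟨e, -⟩
      · exact Or.inl e.symm
      · exact Or.inr (Or.inl e.symm))
  rcases hN.sec_cases ht with ⟨x, y, hxy, hc⟩ | ht2
  · rw [← hV] at hxy
    have hgood : Good s (g + 1) X x y := good_share hAB h6 hM hlen hpq hG hxy (by tauto)
    exact good_share hAB h6 hM hlen hxy hgood hrt (by
      rcases hc with ⟨e, -⟩ | ⟨e, -⟩
      · exact Or.inr (Or.inr (Or.inl e.symm))
      · exact Or.inr (Or.inr (Or.inr e.symm)))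
  · rw [hV] at hrt
    exact Good.unmap h1 (hN.far hAB hrt hr ht hr2 ht2)

end

end Pool.Agent.Torelli
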