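import Pool.Agent.Torelli.AB.Descent
import Pool.Agent.Torelli.AB.PropB
import Pool.Agent.Torelli.AB.Dual
import Pool.Agent.Torelli.AB.LiftStep

/-!
# Torelli project, part AB: assembly from the reduction statement
-/

set_option autoImplicit false

namespace Pool.Agent.Torelli

/-- words in the letters below `B` -/
def Ltr (B : ℕ) : Subgroup F := Subgroup.closure {x | ∃ n < B, x = FreeGroup.of n}

theorem Ltr_mono {B B' : ℕ} (h : B ≤ B') : Ltr B ≤ Ltr B' := by
  apply Subgroup.closure_mono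
  rintro x ⟨n, hn, rfl⟩
  exact ⟨n, by omega, rfl⟩

theorem exists_Ltr (x : F) : ∃ B, x ∈ Ltr B := by
  refine FreeGroup.induction_on x ?_ ?_ ?_ ?_
  · exact ⟨0, one_mem _⟩
  · intro n; exact ⟨n + 1, Subgroup.subset_closure ⟨n, by omega, rfl⟩⟩
  · rintro n ⟨B, hB⟩; exact ⟨B, inv_mem hB⟩
  · rintro x y ⟨B, hB⟩ ⟨C, hC⟩
    exact ⟨max B C, mul_mem (Ltr_mono (le_max_left _ _) hB) (Ltr_mono (le_max_right _ _) hC)⟩

theorem exists_Ltr_list (X : ℕ → F) (V : List Germ) : ∃ B, ∀ u ∈ V, Xs X u ∈ Ltr B := by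
  induction V with
  | nil => exact ⟨0, by simp⟩
  | cons v V ih =>
    obtain ⟨B, hB⟩ := ih
    obtain ⟨C, hC⟩ := exists_Ltr (Xs X v)
    refine ⟨max B C, ?_⟩
    intro u hu
    rcases List.mem_cons.1 hu with rfl | hu
    · exact Ltr_mono (le_max_right _ _) hC
    · exact Ltr_mono (le_max_left _ _) (hB u hu)

/-- The reduction statement (AB4). -/
def RedStmt : Prop := ∀ B : ℕ, ∃ m1 m2 : F → ℕ, (∀ x, m1 x⁻¹ = m1 x) ∧ (∀ x, m2 x⁻¹ = m2 x) ∧
  ∀ (s g : ℕ) (V : List Germ) (X : ℕ → F) (h : Germ → F), 1 ≤ g → V.length = 4 * g →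
      Mk V X h (zeta s g) → (∀ u ∈ V, Xs X u ∈ Ltr B) →
      (∃ u v, NL V u v ∧ Xs X u = a s ∧ Xs X v = b s) ∨
      ∃ u v, Nx V u v ∧ u.1 ≠ v.1 ∧
        ((m1 (Xs X u * Xs X v) < m1 (Xs X u) ∨
          (m1 (Xs X u * Xs X v) = m1 (Xs X u) ∧ m2 (Xs X u * Xs X v) < m2 (Xs X u))) ∨
         (m1 (Xs X u * Xs X v) < m1 (Xs X v) ∨
          (m1 (Xs X u * Xs X v) = m1 (Xs X v) ∧ m2 (Xs X u * Xs X v) < m2 (Xs X v))))

theorem abg_of_red (hred : RedStmt) (g : ℕ) : ABg g := by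
  have h6 : AB6i := fun V X h z hM u hu => hM.linked hu
  induction g with
  | zero =>
    intro s V X h hlen hM u v hnl
    have : V = [] := List.length_eq_zero_iff.1 (by omega)
    subst this
    exact absurd hnl.mem.1 (by simp)
  | succ g ih =>
    intro s V X h hlen hM u v hnl
    obtain ⟨B, hB⟩ := exists_Ltr_list X V
    obtain ⟨m1, m2, hm1, hm2, red⟩ := hred B
    refine descent s (g + 1) (by omega) (Ltr B) m1 m2 hm1 hm2
      (fun V X h hlen hM hK => red s (g + 1) V X h (by omega) hlen hM hK) ?_ _ V X h rfl hlen hM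
      hB u v hnl
    intro V X h hlen hM p q hpq hG r t hrt
    exact propagate ih h6 hM hlen hpq hG hrt

theorem lift_of_red (hred : RedStmt) : LiftStmt := by
  intro s h X hX
  exact lift_of_good (fun g s V X h hlen hM u v hnl => abg_of_red hred g s V X h hlen hM u v hnl)
    (fun s h X hX n h1 h2 => dual_of_cprod s h X hX n h1 h2) h s X hX

end Pool.Agent.Torelli
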