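import Pool.Agent.Torelli.AB.Words4
import Pool.Agent.Torelli.AB.Assemble

/-!
# Torelli project, part AB4: the endgame of the Nielsen reduction
-/

set_option autoImplicit false

namespace Pool.Agent.Torelli

open FreeGroup

/-! ## The word of `zeta` -/

/-- the reduced word of `zeta s g` -/
def zw : ℕ → ℕ → Wd
  | _, 0 => []
  | s, g + 1 => (2 * s, true) :: (2 * s + 1, true) :: (2 * s, false) :: (2 * s + 1, false) ::
      zw (s + 1) g

theorem mk_zw (g : ℕ) : ∀ s, (FreeGroup.mk (zw s g) : F) = zeta s g := by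
  induction g with
  | zero => intro s; rfl
  | succ g ih =>
    intro s
    have e : zw s (g + 1) = [(2 * s, true)] ++ ([(2 * s + 1, true)] ++ ([(2 * s, false)] ++
      ([(2 * s + 1, false)] ++ zw (s + 1) g))) := rfl
    rw [e, mk_append, mk_append, mk_append, mk_append, ih, zeta_succ', H, a, b]
    have e1 : ∀ n : ℕ, (FreeGroup.mk [(n, true)] : F) = FreeGroup.of n := fun n => rfl
    have e2 : ∀ n : ℕ, (FreeGroup.mk [(n, false)] : F) = (FreeGroup.of n)⁻¹ := fun n => rfl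
    rw [e1, e1, e2, e2]
    group

theorem mem_zw (g : ℕ) : ∀ (s : ℕ) (u : Germ), u ∈ zw s g ↔ 2 * s ≤ u.1 ∧ u.1 < 2 * (s + g) := by
  induction g with
  | zero => intro s u; simp [zw]
  | succ h ih =>
    intro s u
    rcases u with ⟨n, e⟩
    simp only [zw, List.mem_cons, ih, Prod.mk.injEq]
    constructor
    · rintro (⟨h1, _⟩ | ⟨h1, _⟩ | ⟨h1, _⟩ | ⟨h1, _⟩ | ⟨h1, h2⟩) <;> constructor <;> omega
    · rintro ⟨h1, h2⟩
      by_cases e1 : n = 2 * s
      · cases e <;> simp [e1]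
      by_cases e2 : n = 2 * s + 1
      · cases e <;> simp [e2]
      · right; right; right; right
        constructor <;> omega

theorem nodup_zw (g : ℕ) : ∀ s, (zw s g).Nodup := by
  induction g with
  | zero => intro s; simp [zw]
  | succ h ih =>
    intro s
    simp only [zw, List.nodup_cons, List.mem_cons, mem_zw, Prod.mk.injEq]
    refine ⟨?_, ?_, ?_, ?_, ih (s + 1)⟩
    · rintro (⟨h1, _⟩ | ⟨_, h2⟩ | ⟨h1, _⟩ | ⟨h1, _⟩)
      · omega
      · simp at h2
      · omega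
      · omega
    · rintro (⟨h1, _⟩ | ⟨_, h2⟩ | ⟨h1, _⟩)
      · omega
      · simp at h2
      · omega
    · rintro (⟨h1, _⟩ | ⟨h1, _⟩)
      · omega
      · omega
    · rintro ⟨h1, _⟩
      omega

theorem length_zw (g : ℕ) : ∀ s, (zw s g).length = 4 * g := by
  induction g with
  | zero => intro s; simp [zw]
  | succ h ih => intro s; simp only [zw, List.length_cons, ih]; ring

theorem isReduced_zw (g : ℕ) : ∀ s, FreeGroup.IsReduced (zw s g) := by
  induction g with
  | zero => intro s; simp [zw, FreeGroup.IsReduced]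
  | succ g ih =>
    intro s
    have h1 := ih (s + 1)
    unfold FreeGroup.IsReduced at h1 ⊢
    have e1 : 2 * s = 2 * s + 1 → true = true := fun _ => rfl
    rcases g with _ | g
    · simp [zw]
    · simp only [zw, List.isChain_cons_cons] at h1 ⊢
      refine ⟨fun h => by omega, fun h => by omega, fun h => by omega, fun h => by omega, ?_⟩
      exact h1

theorem toWord_zeta (s g : ℕ) : (zeta s g).toWord = zw s g :=
  toWord_eq_of_isReduced (mk_zw g s) (isReduced_zw g s)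

theorem norm_zeta (s g : ℕ) : FreeGroup.norm (zeta s g) = 4 * g := by
  unfold FreeGroup.norm
  rw [toWord_zeta, length_zw]

/-! ## Chains -/

theorem isChain_of_split {α : Type*} {R : α → α → Prop} (W : List α)
    (h : ∀ A u v B, W = A ++ u :: v :: B → R u v) : W.IsChain R := by
  induction W with
  | nil => exact List.isChain_nil
  | cons x W ih =>
    rcases W with _ | ⟨y, W⟩
    · exact List.isChain_singleton x
    · rw [List.isChain_cons_cons]
      refine ⟨h [] x y W rfl, ih ?_⟩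
      intro A u v B hB
      exact h (x :: A) u v B (by rw [hB]; rfl)

/-- the statements of `Red1` -/
structure Red1Stmt : Prop where
  words : ∀ (B : ℕ) (L : List F), L ≠ [] → (∀ y ∈ L, y ∈ KB_ B) → (∀ y ∈ L, y ≠ 1) →
    L.IsChain (fun x y => x * y ≠ 1 ∧ MP B x y) → FreeGroup.norm L.prod = L.length →
    L.prod.toWord = L.map (ctl B) ∧ L.IsChain (fun u v => post B u = invRev (pre B v)) ∧
    (∀ y, L.head? = some y → pre B y = []) ∧ (∀ y, L.getLast? = some y → post B y = [])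
  split : ∀ (B : ℕ) {x : F}, x ≠ 1 → x.toWord = pre B x ++ ctl B x :: post B x
  pre_inv : ∀ (B : ℕ) {x : F}, x ∈ KB_ B → x ≠ 1 → pre B x⁻¹ = invRev (post B x)
  ctl_inv : ∀ (B : ℕ) {x : F}, x ∈ KB_ B → x ≠ 1 → ctl B x⁻¹ = ((ctl B x).1, !(ctl B x).2)
  post_inv : ∀ (B : ℕ) {x : F}, x ∈ KB_ B → x ≠ 1 → post B x⁻¹ = invRev (pre B x)

theorem invRev_eq_nil {w : Wd} (h : invRev w = []) : w = [] := by
  have := congrArg invRev h
  rwa [invRev_invRev] at this

theorem Xs_ne_one {V : List Germ} {X : ℕ → F} {h : Germ → F} {z : F} (hM : Mk V X h z) {u : Germ}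
    (hu : u ∈ V) : Xs X u ≠ 1 := by
  obtain ⟨φ, h1, _⟩ := hM.dual u hu
  intro e
  rw [e, _root_.map_one] at h1
  exact absurd h1 (by decide)

theorem Xs_mul_ne_one {V : List Germ} {X : ℕ → F} {h : Germ → F} {z : F} (hM : Mk V X h z)
    {u v : Germ} (hu : u ∈ V) (hv : v ∈ V) (hne : u.1 ≠ v.1) : Xs X u * Xs X v ≠ 1 := by
  obtain ⟨φ, h1, h2⟩ := hM.dual u hu
  intro e
  have h3 : φ (Xs X u) * φ (Xs X v) = 1 := by
    rw [← _root_.map_mul, e, _root_.map_one]
  rw [h1, h2 v hv (fun e => hne e.symm), mul_one] at h3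
  exact absurd h3 (by decide)

theorem nx_fst_ne {V : List Germ} {X : ℕ → F} {h : Germ → F} {z : F} (hM : Mk V X h z)
    {u v : Germ} (hnx : Nx V u v) : u.1 ≠ v.1 := by
  intro e
  rcases eq_or_eq_tau e with rfl | rfl
  · -- `Nx V u u`
    refine hM.no_closed (fun w => w = u) ⟨u, (nx_mem hnx).2, rfl⟩ ?_
    rintro w _ rfl
    exact ⟨w, hnx, rfl⟩
  · obtain ⟨Y, Y', hV⟩ := hnx
    rw [tau_tau] at hV
    have hnd := hM.nodup
    rw [hV, List.nodup_append, List.nodup_cons] at hnd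
    exact hnd.2.1.1 (by simp)

theorem red_of (R1 : Red1Stmt) {s g B : ℕ} {V : List Germ} {X : ℕ → F} {h : Germ → F}
    (hlen : V.length = 4 * (g + 1)) (hM : Mk V X h (zeta s (g + 1)))
    (hK : ∀ u ∈ V, Xs X u ∈ KB_ B) :
    (∃ u v, NL V u v ∧ Xs X u = a s ∧ Xs X v = b s) ∨
      ∃ u v, Nx V u v ∧ u.1 ≠ v.1 ∧ ¬ MP B (Xs X u) (Xs X v) := by
  by_cases hall : ∀ u v, Nx V u v → MP B (Xs X u) (Xs X v)
  swap
  · right
    push Not at hall
    obtain ⟨u, v, h1, h2⟩ := hall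
    exact ⟨u, v, h1, nx_fst_ne hM h1, h2⟩
  left
  obtain ⟨W, hW⟩ := tour_exists hM
  have hperm : W.Perm V := (List.perm_ext_iff_of_nodup hW.nodup hM.nodup).2 hW.mem
  have hWlen : W.length = 4 * (g + 1) := by rw [hperm.length_eq, hlen]
  set L := W.map (Xs X) with hL
  have hLne : L ≠ [] := by
    intro e
    have := congrArg List.length e
    rw [hL, List.length_map, hWlen] at this
    simp at this
  have hLK : ∀ y ∈ L, y ∈ KB_ B := by
    intro y hy
    rw [hL, List.mem_map] at hy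
    obtain ⟨u, hu, rfl⟩ := hy
    exact hK u ((hW.mem u).1 hu)
  have hL1 : ∀ y ∈ L, y ≠ 1 := by
    intro y hy
    rw [hL, List.mem_map] at hy
    obtain ⟨u, hu, rfl⟩ := hy
    exact Xs_ne_one hM ((hW.mem u).1 hu)
  have hchain : L.IsChain (fun x y => x * y ≠ 1 ∧ MP B x y) := by
    rw [hL, List.isChain_map]
    apply isChain_of_split
    intro A u v C hC
    have hnx := hW.chain A u v C hC
    have hu : u ∈ V := (hW.mem u).1 (by rw [hC]; simp)
    exact ⟨Xs_mul_ne_one hM hu (nx_mem hnx).2 (nx_fst_ne hM hnx), hall u v hnx⟩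
  have hnorm : FreeGroup.norm L.prod = L.length := by
    rw [hL, hW.prod, norm_zeta, List.length_map, hWlen]
  obtain ⟨g1, g2, g3, _⟩ := R1.words B L hLne hLK hL1 hchain hnorm
  have hprod : L.prod = zeta s (g + 1) := hW.prod
  rw [hprod, toWord_zeta] at g1
  -- the first four letters of the tour
  obtain ⟨w1, w2, w3, w4, W', hW4⟩ : ∃ w1 w2 w3 w4 W', W = w1 :: w2 :: w3 :: w4 :: W' := by
    rcases W with _ | ⟨w1, _ | ⟨w2, _ | ⟨w3, _ | ⟨w4, W'⟩⟩⟩⟩
    · simp at hWlen
    · simp at hWlen; omega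
    · simp at hWlen; omega
    · simp at hWlen; omega
    · exact ⟨w1, w2, w3, w4, W', rfl⟩
  have hmap : L.map (ctl B) = W.map (fun u => ctl B (Xs X u)) := by
    rw [hL, List.map_map]; rfl
  have hnd : (W.map (fun u => ctl B (Xs X u))).Nodup := by
    rw [← hmap, ← g1]; exact nodup_zw _ _
  have hinj := List.inj_on_of_nodup_map hnd
  rw [hmap, hW4] at g1
  simp only [zw, List.map_cons, List.cons.injEq] at g1
  obtain ⟨c1, c2, c3, c4, _⟩ := g1
  have m1 : w1 ∈ W := by rw [hW4]; simp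
  have m2 : w2 ∈ W := by rw [hW4]; simp
  have m3 : w3 ∈ W := by rw [hW4]; simp
  have m4 : w4 ∈ W := by rw [hW4]; simp
  have v1 := (hW.mem _).1 m1
  have v2 := (hW.mem _).1 m2
  have t1 : tau w1 ∈ W := (hW.mem _).2 (hM.closed _ v1)
  have t2 : tau w2 ∈ W := (hW.mem _).2 (hM.closed _ v2)
  have e3 : tau w1 = w3 := by
    apply hinj t1 m3
    rw [Xs_tau, R1.ctl_inv B (hK _ v1) (Xs_ne_one hM v1), ← c1, ← c3]
    rfl
  have e4 : tau w2 = w4 := by
    apply hinj t2 m4
    rw [Xs_tau, R1.ctl_inv B (hK _ v2) (Xs_ne_one hM v2), ← c2, ← c4]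
    rfl
  -- prefixes and suffixes
  have hL4 : L = Xs X w1 :: Xs X w2 :: (Xs X w1)⁻¹ :: (Xs X w2)⁻¹ :: W'.map (Xs X) := by
    rw [hL, hW4, ← e3, ← e4]; simp
  rw [hL4] at g2 g3
  simp only [List.isChain_cons_cons] at g2
  obtain ⟨q1, q2, q3, _⟩ := g2
  have p1 : pre B (Xs X w1) = [] := g3 _ rfl
  rw [R1.post_inv B (hK _ v1) (Xs_ne_one hM v1), p1,
    R1.pre_inv B (hK _ v2) (Xs_ne_one hM v2), invRev_invRev] at q3
  have p2 : post B (Xs X w2) = [] := by
    rw [← q3]; rfl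
  rw [p2, R1.pre_inv B (hK _ v1) (Xs_ne_one hM v1), invRev_invRev] at q2
  rw [← q2] at q1
  have p3 : pre B (Xs X w2) = [] := invRev_eq_nil q1.symm
  have x1 : Xs X w1 = a s := by
    have := R1.split B (Xs_ne_one hM v1)
    rw [p1, ← q2, ← c1] at this
    rw [← mk_toWord (x := Xs X w1), this]
    rfl
  have x2 : Xs X w2 = b s := by
    have := R1.split B (Xs_ne_one hM v2)
    rw [p3, p2, ← c2] at this
    rw [← mk_toWord (x := Xs X w2), this]
    rfl
  refine ⟨w1, w2, ?_, x1, x2⟩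
  have n12 := hW.chain [] w1 w2 (w3 :: w4 :: W') hW4
  have n23 := hW.chain [w1] w2 w3 (w4 :: W') hW4
  have n34 := hW.chain [w1, w2] w3 w4 W' hW4
  obtain ⟨Y1, Z1, f1⟩ := n12
  obtain ⟨Y2, Z2, f2⟩ := n23
  obtain ⟨Y3, Z3, f3⟩ := n34
  rw [← e3, tau_tau] at f3
  rw [e3] at f1
  rw [e4] at f2
  obtain ⟨V', hV'⟩ : ∃ V', V = w1 :: V' := by
    have hh := hW.head
    rw [hW4] at hh
    rcases V with _ | ⟨x, V'⟩
    · simp at hh
    · simp only [List.head?_cons, Option.some.injEq] at hh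
      exact ⟨V', by rw [hh]⟩
  have hVnd := hM.nodup
  have s1 := (nodup_split_unique hVnd (A := []) (by simpa using hV') f3).2
  have s2 := (nodup_split_unique hVnd (A := [w1]) (x := w4) (B := Z3)
    (by rw [hV', s1]; rfl) f2).2
  have s3 := (nodup_split_unique hVnd (A := [w1, w4]) (x := w3) (B := Z2)
    (by rw [hV', s1, s2]; rfl) f1).2
  have hVV : V = [w1, w4, w3, w2] ++ Z1 := by rw [hV', s1, s2, s3]; rfl
  unfold NL
  rw [e4, e3, hVV]
  exact List.sublist_append_left _ _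

theorem Ltr_le_KB (B : ℕ) : Ltr B ≤ KB_ B := by
  unfold Ltr
  rw [Subgroup.closure_le]
  rintro x ⟨n, hn, rfl⟩
  show FreeGroup.of n ∈ KB_ B
  rw [mem_KB]
  intro p hp
  rw [toWord_of, List.mem_singleton] at hp
  subst hp
  simp only [cd, if_true]
  omega

theorem red_stmt_of (R1 : Red1Stmt) : RedStmt := by
  intro B
  refine ⟨FreeGroup.norm, mu2 (2 * B), fun x => norm_inv_eq, mu2_inv (2 * B), ?_⟩
  intro s g V X h hg hlen hM hK
  obtain ⟨g, rfl⟩ : ∃ k, g = k + 1 := ⟨g - 1, by omega⟩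
  rcases red_of R1 hlen hM (fun u hu => Ltr_le_KB B (hK u hu)) with h1 | ⟨u, v, h1, h2, h3⟩
  · exact Or.inl h1
  · right
    refine ⟨u, v, h1, h2, ?_⟩
    unfold MP at h3
    tauto

end Pool.Agent.Torelli
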