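import Pool.Agent.Torelli.AB.Red1
import Pool.Agent.Torelli.AB.Red2

/-!
# Torelli project, part AB: the main theorem

The stabiliser of `zeta s h` among the automorphisms of `F` supported on the handles
`s, .., s + h - 1` is `M s h`.
-/

set_option autoImplicit false

namespace Pool.Agent.Torelli

theorem red1Stmt : Red1Stmt where
  words := fun B L h0 hK h1 hc hn => red_words B L h0 hK h1 hc hn
  split := fun B {_} hx => toWord_split B hx
  pre_inv := fun B {_} hK hx => pre_inv B hK hx
  ctl_inv := fun B {_} hK hx => ctl_inv B hK hx
  post_inv := fun B {_} hK hx => post_inv B hK hx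

theorem redStmt : RedStmt := red_stmt_of red1Stmt

theorem liftStmt : LiftStmt := lift_of_red redStmt

end Pool.Agent.Torelli
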