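import Pool.Agent.Torelli.AB.Comb

/-!
# Torelli project, part AB6 (ii): linked pairs avoiding a label
-/

set_option autoImplicit false

namespace Pool.Agent.Torelli

theorem idx_inj {V : List Germ} {x y : Germ} (hx : x ∈ V) (h : V.idxOf x = V.idxOf y) : x = y :=
  (List.idxOf_inj hx).1 h

theorem exists_idx {V : List Germ} (hV : V.Nodup) {k : ℕ} (hk : k < V.length) :
    ∃ w ∈ V, V.idxOf w = k :=
  ⟨V[k], List.getElem_mem hk, hV.idxOf_getElem k hk⟩

theorem consec_of_idx {V : List Germ} (hV : V.Nodup) {x y : Germ} (hx : x ∈ V) (hy : y ∈ V)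
    (h : V.idxOf y = V.idxOf x + 1) : ∃ Y Y', V = Y ++ x :: y :: Y' := by
  obtain ⟨A, B, hAB, hlen, hnot⟩ := split_of_idx hx
  have hnd := hV
  rw [hAB, List.nodup_append, List.nodup_cons] at hnd
  have hyB : y ∈ B := by
    have hyV := hy
    rw [hAB] at hyV
    simp only [List.mem_append, List.mem_cons] at hyV
    rcases hyV with hm | hm | hm
    · exfalso
      have : V.idxOf y < A.length := by
        rw [hAB, List.idxOf_append_of_mem hm]
        exact List.idxOf_lt_length_of_mem hm
      omega
    · exfalso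
      subst hm
      omega
    · exact hm
  have hyA : y ∉ A := fun hm => hnd.2.2 _ hm y (by simp [hyB]) rfl
  have hxy : x ≠ y := by
    intro e
    subst e
    omega
  have hidx : V.idxOf y = A.length + 1 + B.idxOf y := by
    rw [hAB, List.idxOf_append_of_notMem hyA, List.idxOf_cons_ne _ hxy]
    omega
  obtain ⟨C, D, hCD, hlenC, _⟩ := split_of_idx hyB
  have : C = [] := List.length_eq_zero_iff.1 (by omega)
  subst this
  exact ⟨A, D, by rw [hAB, hCD]; rfl⟩

/-- In a marking with at least eight germs there is, for every label, a linked pair which does not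
involve this label. -/
theorem Mk.avoid {V : List Germ} {X : ℕ → F} {h : Germ → F} {z0 : F} (hM : Mk V X h z0)
    (hlen : 8 ≤ V.length) (l : ℕ) : ∃ u v, NL V u v ∧ u.1 ≠ l ∧ v.1 ≠ l := by
  by_contra hno
  push Not at hno
  have hV := hM.nodup
  set p : Germ → ℕ := fun w => V.idxOf w with hp
  have hpe : ∀ w, V.idxOf w = p w := fun w => rfl
  have hlt : ∀ w ∈ V, p w < V.length := fun w hw => List.idxOf_lt_length_of_mem hw
  have pinj : ∀ x ∈ V, ∀ y, p x = p y → x = y := fun x hx y hxy => idx_inj hx hxy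
  have hcl := hM.closed
  have pne : ∀ w ∈ V, p w ≠ p (tau w) := fun w hw e => tau_ne w (pinj w hw _ e).symm
  -- a linked pair for every germ
  have hlk : ∀ w ∈ V, p w < p (tau w) → ∃ v, NL V w v ∨ NL V v (tau w) := fun w hw h1 =>
    hM.linked (sublist2_of_idx hV hw (hcl w hw) h1)
  -- the germ `z` of label `l`
  obtain ⟨z, hz, hzl, hzz⟩ : ∃ z ∈ V, z.1 = l ∧ p z < p (tau z) := by
    have hex : ∃ z ∈ V, z.1 = l := by
      obtain ⟨w, hw, hw0⟩ := exists_idx hV (k := 0) (by omega)
      have hw1 : p w < p (tau w) := by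
        have := pne w hw
        have h0 : p w = 0 := hw0
        omega
      obtain ⟨v, hv | hv⟩ := hlk w hw hw1
      · by_cases hwl : w.1 = l
        · exact ⟨w, hw, hwl⟩
        · exact ⟨v, hv.mem.2.2.2, hno w v hv hwl⟩
      · by_cases hvl : v.1 = l
        · exact ⟨v, hv.mem.1, hvl⟩
        · exact ⟨w, hw, hno v (tau w) hv hvl⟩
    obtain ⟨z, hz, hzl⟩ := hex
    rcases Nat.lt_or_gt_of_ne (pne z hz) with h1 | h1
    · exact ⟨z, hz, hzl, h1⟩
    · exact ⟨tau z, hcl z hz, hzl, by rw [tau_tau]; exact h1⟩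
  have hzt : tau z ∈ V := hcl z hz
  have hlab : ∀ w ∈ V, w.1 = l → w = z ∨ w = tau z := fun w _ hwl =>
    eq_or_eq_tau (hwl.trans hzl.symm)
  -- F1
  have F1 : ∀ w ∈ V, w.1 ≠ l →
      (((p z < p w ∧ p w < p (tau z)) ∧ (p (tau w) < p z ∨ p (tau z) < p (tau w))) ∨
       ((p z < p (tau w) ∧ p (tau w) < p (tau z)) ∧ (p w < p z ∨ p (tau z) < p w))) := by
    have key : ∀ w ∈ V, w.1 ≠ l → p w < p (tau w) →
      (((p z < p w ∧ p w < p (tau z)) ∧ (p (tau w) < p z ∨ p (tau z) < p (tau w))) ∨
       ((p z < p (tau w) ∧ p (tau w) < p (tau z)) ∧ (p w < p z ∨ p (tau z) < p w))) := by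
      intro w hw hwl h1
      obtain ⟨v, hv | hv⟩ := hlk w hw h1
      · have hvl : v.1 = l := hno w v hv hwl
        obtain ⟨_, e1, e2, e3⟩ := (NL_iff_idx hV).1 hv
        rw [hpe, hpe] at e1 e2 e3
        rcases hlab v hv.mem.2.2.2 hvl with rfl | rfl
        · omega
        · rw [tau_tau] at e1 e2
          omega
      · have hvl : v.1 = l := by
          by_contra hvl
          exact hwl (hno v (tau w) hv hvl)
        obtain ⟨_, e1, e2, e3⟩ := (NL_iff_idx hV).1 hv
        rw [tau_tau] at e1 e2
        rw [hpe, hpe] at e1 e2 e3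
        rcases hlab v hv.mem.1 hvl with rfl | rfl
        · omega
        · rw [tau_tau] at e2 e3
          omega
    intro w hw hwl
    rcases Nat.lt_or_gt_of_ne (pne w hw) with h1 | h1
    · exact key w hw hwl h1
    · have := key (tau w) (hcl w hw) hwl (by rw [tau_tau]; exact h1)
      rw [tau_tau] at this
      omega
  -- F2
  have F2 : ∀ x ∈ V, ∀ y ∈ V, x.1 ≠ l → y.1 ≠ l →
      ¬ (p x < p y ∧ p y < p (tau x) ∧ p (tau x) < p (tau y)) := by
    rintro x hx y hy hxl hyl ⟨h1, h2, h3⟩
    have : NL V x (tau y) := by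
      rw [NL_iff_idx hV, tau_tau]
      exact ⟨⟨hx, hy, hcl x hx, hcl y hy⟩, h1, h2, h3⟩
    exact hyl (hno x (tau y) this hxl)
  -- counting
  have hcount : p z + 3 < p (tau z) := by
    classical
    set S : Finset Germ := V.toFinset with hS
    have hScard : S.card = V.length := List.toFinset_card_of_nodup hV
    have memS : ∀ w, w ∈ S ↔ w ∈ V := fun w => List.mem_toFinset
    set O : Finset Germ := S.filter (fun w => p w < p z ∨ p (tau z) < p w) with hO
    set I : Finset Germ := S.filter (fun w => p z < p w ∧ p w < p (tau z)) with hI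
    have hOI : O.card ≤ I.card := by
      refine Finset.card_le_card_of_injOn tau ?_ ?_
      · intro w hw
        rw [Finset.mem_coe, hO, Finset.mem_filter, memS] at hw
        rw [Finset.mem_coe, hI, Finset.mem_filter, memS]
        refine ⟨hcl w hw.1, ?_⟩
        have hwl : w.1 ≠ l := by
          intro e
          rcases hlab w hw.1 e with rfl | rfl
          · omega
          · omega
        have := F1 w hw.1 hwl
        omega
      · intro x _ y _ hxy
        exact tau_inj.1 hxy
    have hIcard : I.card ≤ p (tau z) - p z - 1 := by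
      rw [← Nat.card_Ioo]
      refine Finset.card_le_card_of_injOn p ?_ ?_
      · intro w hw
        rw [Finset.mem_coe, hI, Finset.mem_filter] at hw
        rw [Finset.mem_coe, Finset.mem_Ioo]
        exact hw.2
      · intro x hx y _ hxy
        rw [Finset.mem_coe, hI, Finset.mem_filter, memS] at hx
        exact pinj x hx.1 y hxy
    have hSsub : S ⊆ (O ∪ I) ∪ {z, tau z} := by
      intro w hw
      rw [memS] at hw
      simp only [Finset.mem_union, Finset.mem_insert, Finset.mem_singleton]
      by_cases h1 : w = z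
      · exact Or.inr (Or.inl h1)
      by_cases h2 : w = tau z
      · exact Or.inr (Or.inr h2)
      left
      have h3 : p w ≠ p z := fun e => h1 (pinj w hw _ e)
      have h4 : p w ≠ p (tau z) := fun e => h2 (pinj w hw _ e)
      rw [hO, hI, Finset.mem_filter, Finset.mem_filter, memS]
      rcases Nat.lt_or_gt_of_ne h3 with h5 | h5
      · exact Or.inl ⟨hw, Or.inl h5⟩
      · rcases Nat.lt_or_gt_of_ne h4 with h6 | h6
        · exact Or.inr ⟨hw, h5, h6⟩
        · exact Or.inl ⟨hw, Or.inr h6⟩
    have c1 := Finset.card_le_card hSsub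
    have c2 := Finset.card_union_le (O ∪ I) {z, tau z}
    have c3 := Finset.card_union_le O I
    have c4 : ({z, tau z} : Finset Germ).card ≤ 2 := Finset.card_le_two
    omega
  -- the bigon
  have bigon : ∀ x ∈ V, ∀ y ∈ V, p z < p x → p y = p x + 1 → p y < p (tau z) →
      ((p (tau x) < p z ∧ p (tau y) < p z) ∨ (p (tau z) < p (tau x) ∧ p (tau z) < p (tau y))) →
      False := by
    intro x hx y hy h1 h2 h3 h4
    have hxl : x.1 ≠ l := by
      intro e
      rcases hlab x hx e with rfl | rfl <;> omega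
    have hyl : y.1 ≠ l := by
      intro e
      rcases hlab y hy e with rfl | rfl <;> omega
    have hx' := hcl x hx
    have hy' := hcl y hy
    have hxy : p (tau x) ≠ p (tau y) := by
      intro e
      have := tau_inj.1 (pinj _ hx' _ e)
      subst this
      omega
    have hord : p (tau y) < p (tau x) := by
      have u1 := F2 x hx y hy hxl hyl
      have u2 := F2 (tau x) hx' (tau y) hy' hxl hyl
      rw [tau_tau, tau_tau] at u2
      omega
    have hadj : p (tau x) = p (tau y) + 1 := by
      by_contra hne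
      have hltx := hlt _ hx'
      obtain ⟨w, hw, hwp⟩ := exists_idx hV (k := p (tau y) + 1) (by omega)
      rw [hpe] at hwp
      have hwl : w.1 ≠ l := by
        intro e
        rcases hlab w hw e with rfl | rfl <;> omega
      have hw' := hcl w hw
      have f1 := F1 w hw hwl
      have n1 : p (tau w) ≠ p x := by
        intro e
        have := pinj _ hw' _ e
        rw [← this, tau_tau] at hne hord
        omega
      have n2 : p (tau w) ≠ p y := by
        intro e
        have := pinj _ hw' _ e
        rw [← this, tau_tau] at hwp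
        omega
      have u1 := F2 (tau y) hy' w hw hyl hwl
      have u2 := F2 w hw (tau x) hx' hwl hxl
      have u3 := F2 y hy (tau w) hw' hyl hwl
      have u4 := F2 (tau w) hw' x hx hwl hxl
      rw [tau_tau] at u1 u2 u3 u4
      omega
    obtain ⟨Y, Y', e1⟩ := consec_of_idx hV hx hy h2
    obtain ⟨Z, Z', e2⟩ := consec_of_idx hV hy' hx' hadj
    refine hM.no_closed (fun w => w = tau x ∨ w = y) ⟨y, hy, Or.inr rfl⟩ ?_
    rintro w _ (rfl | rfl)
    · exact ⟨y, ⟨Y, Y', by rw [tau_tau]; exact e1⟩, Or.inr rfl⟩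
    · exact ⟨tau x, ⟨Z, Z', e2⟩, Or.inl rfl⟩
  have hltz := hlt _ hzt
  obtain ⟨x1, hx1, p1⟩ := exists_idx hV (k := p z + 1) (by omega)
  obtain ⟨x2, hx2, p2⟩ := exists_idx hV (k := p z + 2) (by omega)
  obtain ⟨x3, hx3, p3⟩ := exists_idx hV (k := p z + 3) (by omega)
  rw [hpe] at p1 p2 p3
  have l1 : x1.1 ≠ l := by
    intro e
    rcases hlab x1 hx1 e with rfl | rfl <;> omega
  have l2 : x2.1 ≠ l := by
    intro e
    rcases hlab x2 hx2 e with rfl | rfl <;> omega
  have l3 : x3.1 ≠ l := by
    intro e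
    rcases hlab x3 hx3 e with rfl | rfl <;> omega
  have f1 := F1 x1 hx1 l1
  have f2 := F1 x2 hx2 l2
  have f3 := F1 x3 hx3 l3
  have b12 := bigon x1 hx1 x2 hx2 (by omega) (by omega) (by omega)
  have b23 := bigon x2 hx2 x3 hx3 (by omega) (by omega) (by omega)
  have u1 := F2 (tau x2) (hcl _ hx2) x1 hx1 l2 l1
  have u2 := F2 (tau x3) (hcl _ hx3) x2 hx2 l3 l2
  rw [tau_tau] at u1 u2
  by_cases hcase : p (tau x2) < p z
  · exact b12 (by omega)
  · exact b23 (by omega)

end Pool.Agent.Torelli
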