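import Pool.Agent.Torelli.AB.Tour

/-!
# Torelli project, part AB6: combinatorics of the order of the germs
-/

set_option autoImplicit false

namespace Pool.Agent.Torelli

theorem head_or {S : List Germ} {x : Germ} (V2 : List Germ) :
    ∃ v L, S ++ x :: V2 = v :: L ∧ (v ∈ S ∨ v = x) := by
  rcases S with _ | ⟨v, S'⟩
  · exact ⟨x, V2, rfl, Or.inr rfl⟩
  · exact ⟨v, S' ++ x :: V2, rfl, Or.inl (by simp)⟩

theorem sub4 {α : Type*} (A B C D E : List α) (a b c d : α) :
    List.Sublist [a, b, c, d] (A ++ a :: (B ++ b :: (C ++ c :: (D ++ d :: E)))) := by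
  refine List.Sublist.trans ?_ (List.sublist_append_right A _)
  refine List.Sublist.cons_cons _ (List.Sublist.trans ?_ (List.sublist_append_right B _))
  refine List.Sublist.cons_cons _ (List.Sublist.trans ?_ (List.sublist_append_right C _))
  refine List.Sublist.cons_cons _ (List.Sublist.trans ?_ (List.sublist_append_right D _))
  exact List.Sublist.cons_cons _ (List.nil_sublist _)

/-- Every label of a marking is linked with some other label. -/
theorem Mk.linked {V : List Germ} {X : ℕ → F} {h : Germ → F} {z : F} (hM : Mk V X h z) {u : Germ}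
    (hu : List.Sublist [u, tau u] V) : ∃ v, NL V u v ∨ NL V v (tau u) := by
  by_contra hno
  push Not at hno
  obtain ⟨V1, R, h1, hR⟩ := sublist_cons_split hu
  obtain ⟨S, V2, h2, _⟩ := sublist_cons_split hR
  have hV : V = V1 ++ u :: (S ++ tau u :: V2) := by rw [h1, h2]
  have hnd := hM.nodup
  have hnd' := hnd
  rw [hV, List.nodup_append, List.nodup_cons, List.nodup_append, List.nodup_cons] at hnd'
  obtain ⟨_, ⟨n1, _, ⟨_, _⟩, n2⟩, n3⟩ := hnd'
  have hS : ∀ w ∈ S, tau w ∈ S := by
    intro w hw
    have hwV : tau w ∈ V := hM.closed w (by rw [hV]; simp [hw])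
    rw [hV] at hwV
    simp only [List.mem_append, List.mem_cons] at hwV
    obtain ⟨S1, S2, hS⟩ := List.append_of_mem hw
    rcases hwV with hA | hA | hA | hA | hA
    · -- `tau w ∈ V1`
      obtain ⟨A, B, hAB⟩ := List.append_of_mem hA
      exfalso
      refine (hno (tau w)).2 ?_
      unfold NL
      rw [tau_tau, tau_tau, hV, hAB, hS]
      have := sub4 A B S1 S2 V2 (tau w) u w (tau u)
      simpa using this
    · exfalso
      have : w = tau u := tau_eq_iff.1 hA
      exact n2 w hw (tau u) (by simp) this
    · exact hA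
    · exfalso
      have : w = u := tau_inj.1 hA
      exact n1 (by rw [← this]; simp [hw])
    · obtain ⟨A, B, hAB⟩ := List.append_of_mem hA
      exfalso
      refine (hno (tau w)).1 ?_
      unfold NL
      rw [tau_tau, hV, hAB, hS]
      have := sub4 V1 S1 S2 A B u w (tau u) (tau w)
      simpa using this
  refine hM.no_closed (fun x => x ∈ S ∨ x = tau u) ⟨tau u, by rw [hV]; simp, Or.inr rfl⟩ ?_
  intro x _ hT
  rcases hT with hx | hx
  · obtain ⟨S1, S2, hS12⟩ := List.append_of_mem (hS x hx)
    obtain ⟨v, L, hL, hv⟩ := head_or (S := S2) (x := tau u) V2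
    refine ⟨v, ⟨V1 ++ u :: S1, L, ?_⟩, ?_⟩
    · rw [hV, hS12, ← hL]
      simp
    · rcases hv with hv | hv
      · exact Or.inl (by rw [hS12]; simp [hv])
      · exact Or.inr hv
  · subst hx
    obtain ⟨v, L, hL, hv⟩ := head_or (S := S) (x := tau u) V2
    refine ⟨v, ⟨V1, L, ?_⟩, hv⟩
    rw [tau_tau, hV, ← hL]

theorem idx_lt_of_sublist {V : List Germ} (hV : V.Nodup) {a b : Germ}
    (h : List.Sublist [a, b] V) : V.idxOf a < V.idxOf b := by
  obtain ⟨A, R, h1, hR⟩ := sublist_cons_split h
  obtain ⟨B, C, h2, _⟩ := sublist_cons_split hR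
  subst h2
  have ha : a ∉ A := by
    intro hm
    rw [h1, List.nodup_append] at hV
    exact hV.2.2 _ hm _ (by simp) rfl
  have hb : b ∉ A ++ a :: B := by
    intro hm
    have e : V = (A ++ a :: B) ++ b :: C := by rw [h1]; simp
    rw [e, List.nodup_append] at hV
    exact hV.2.2 _ hm _ (by simp) rfl
  have e1 : V.idxOf a = A.length := by
    rw [h1, List.idxOf_append_of_notMem ha, List.idxOf_cons_self]; rfl
  have e2 : V.idxOf b = A.length + (B.length + 1) := by
    have e : V = (A ++ a :: B) ++ b :: C := by rw [h1]; simp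
    rw [e, List.idxOf_append_of_notMem hb, List.idxOf_cons_self]
    simp
  omega

theorem split_of_idx {V : List Germ} {a : Germ} (ha : a ∈ V) :
    ∃ A B, V = A ++ a :: B ∧ A.length = V.idxOf a ∧ a ∉ A := by
  induction V with
  | nil => simp at ha
  | cons x V ih =>
    by_cases hx : x = a
    · subst hx
      exact ⟨[], V, rfl, by simp, by simp⟩
    · have ha' : a ∈ V := by
        rcases List.mem_cons.1 ha with h | h
        · exact absurd h.symm hx
        · exact h
      obtain ⟨A, B, h1, h2, h3⟩ := ih ha'
      refine ⟨x :: A, B, by rw [h1]; rfl, ?_, ?_⟩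
      · rw [List.idxOf_cons_ne _ hx, ← h2]; rfl
      · intro hm
        rcases List.mem_cons.1 hm with h | h
        · exact hx h.symm
        · exact h3 h

theorem sublist_of_idx_aux : ∀ (L : List Germ) (V : List Germ), V.Nodup → (∀ x ∈ L, x ∈ V) →
    L.Pairwise (fun x y => V.idxOf x < V.idxOf y) → List.Sublist L V := by
  intro L
  induction L with
  | nil => intro V _ _ _; exact List.nil_sublist _
  | cons a L ih =>
    intro V hV hmem hp
    rw [List.pairwise_cons] at hp
    obtain ⟨A, B, hAB, hlen, hnot⟩ := split_of_idx (hmem a (by simp))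
    have hnd := hV
    rw [hAB, List.nodup_append, List.nodup_cons] at hnd
    have hidx : ∀ x ∈ B, V.idxOf x = A.length + 1 + B.idxOf x := by
      intro x hx
      have hxA : x ∉ A := fun hm => hnd.2.2 _ hm x (by simp [hx]) rfl
      have hxa : a ≠ x := by
        intro e
        subst e
        exact hnd.2.1.1 hx
      rw [hAB, List.idxOf_append_of_notMem hxA, List.idxOf_cons_ne _ hxa]
      omega
    have hB : ∀ x ∈ L, x ∈ B := by
      intro x hx
      have hxV := hmem x (by simp [hx])
      have hlt := hp.1 x hx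
      rw [hAB] at hxV
      simp only [List.mem_append, List.mem_cons] at hxV
      rcases hxV with h | h | h
      · exfalso
        have : V.idxOf x < A.length := by
          rw [hAB, List.idxOf_append_of_mem h]
          exact List.idxOf_lt_length_of_mem h
        omega
      · exfalso
        subst h
        omega
      · exact h
    have hsub : List.Sublist L B := by
      refine ih B hnd.2.1.2 hB ?_
      refine List.Pairwise.imp_of_mem ?_ hp.2
      intro x y hx hy hxy
      have e1 := hidx x (hB x hx)
      have e2 := hidx y (hB y hy)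
      omega
    rw [hAB]
    exact List.Sublist.trans (List.Sublist.cons_cons _ hsub) (List.sublist_append_right A _)

theorem sublist4_of_idx {V : List Germ} (hV : V.Nodup) {a b c d : Germ} (ha : a ∈ V)
    (hb : b ∈ V) (hc : c ∈ V) (hd : d ∈ V) (h1 : V.idxOf a < V.idxOf b)
    (h2 : V.idxOf b < V.idxOf c) (h3 : V.idxOf c < V.idxOf d) :
    List.Sublist [a, b, c, d] V := by
  apply sublist_of_idx_aux _ _ hV
  · intro x hx
    simp only [List.mem_cons, List.not_mem_nil, or_false] at hx
    rcases hx with rfl | rfl | rfl | rfl <;> assumption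
  · simp only [List.pairwise_cons, List.mem_cons, List.not_mem_nil, or_false, forall_eq_or_imp,
      forall_eq, List.Pairwise.nil, and_true]
    refine ⟨⟨h1, by omega, by omega⟩, ⟨h2, by omega⟩, h3, fun _ h => h.elim⟩

theorem sublist2_of_idx {V : List Germ} (hV : V.Nodup) {a b : Germ} (ha : a ∈ V)
    (hb : b ∈ V) (h1 : V.idxOf a < V.idxOf b) : List.Sublist [a, b] V := by
  apply sublist_of_idx_aux _ _ hV
  · intro x hx
    simp only [List.mem_cons, List.not_mem_nil, or_false] at hx
    rcases hx with rfl | rfl <;> assumption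
  · simp only [List.pairwise_cons, List.mem_cons, List.not_mem_nil, or_false, forall_eq,
      List.Pairwise.nil, and_true]
    exact ⟨h1, fun _ h => h.elim⟩

theorem NL_iff_idx {V : List Germ} (hV : V.Nodup) {u v : Germ} : NL V u v ↔
    (u ∈ V ∧ tau v ∈ V ∧ tau u ∈ V ∧ v ∈ V) ∧ V.idxOf u < V.idxOf (tau v) ∧
      V.idxOf (tau v) < V.idxOf (tau u) ∧ V.idxOf (tau u) < V.idxOf v := by
  constructor
  · intro h
    refine ⟨h.mem, ?_, ?_, ?_⟩
    · exact idx_lt_of_sublist hV (List.Sublist.trans
        (by simp) h)
    · exact idx_lt_of_sublist hV (List.Sublist.trans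
        (by simp) h)
    · exact idx_lt_of_sublist hV (List.Sublist.trans
        (by simp) h)
  · rintro ⟨⟨h1, h2, h3, h4⟩, h5, h6, h7⟩
    exact sublist4_of_idx hV h1 h2 h3 h4 h5 h6 h7

end Pool.Agent.Torelli
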