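import Pool.Agent.Torelli.AB.Slide
import Pool.Agent.Torelli.AB.Avoid

/-!
# Torelli project, part AB9: descent along slides
-/

set_option autoImplicit false

namespace Pool.Agent.Torelli

theorem NL.of_filter {V V' : List Germ} {x : Germ} {r t : Germ}
    (hf : V'.filter (fun w => w ≠ x) = V.filter (fun w => w ≠ x)) (h1 : r.1 ≠ x.1)
    (h2 : t.1 ≠ x.1) (hn : NL V r t) : NL V' r t := by
  have h3 : ([r, tau t, tau r, t].filter fun w => w ≠ x) = [r, tau t, tau r, t] := by
    rw [List.filter_eq_self]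
    intro w hw
    simp only [List.mem_cons, List.not_mem_nil, or_false] at hw
    rcases hw with rfl | rfl | rfl | rfl
    · simp only [ne_eq, decide_not, Bool.not_eq_eq_eq_not, Bool.not_true, decide_eq_false_iff_not]
      exact fun e => h1 (by rw [e])
    · simp only [ne_eq, decide_not, Bool.not_eq_eq_eq_not, Bool.not_true, decide_eq_false_iff_not]
      exact fun e => h2 (by rw [← e]; rfl)
    · simp only [ne_eq, decide_not, Bool.not_eq_eq_eq_not, Bool.not_true, decide_eq_false_iff_not]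
      exact fun e => h1 (by rw [← e]; rfl)
    · simp only [ne_eq, decide_not, Bool.not_eq_eq_eq_not, Bool.not_true, decide_eq_false_iff_not]
      exact fun e => h2 (by rw [e])
  have h4 := List.Sublist.filter (fun w => decide (w ≠ x)) hn
  rw [h3, ← hf] at h4
  exact h4.trans List.filter_sublist

/-- the total measure of a marking -/
def tot (f : F → ℕ) (V : List Germ) (X : ℕ → F) : ℕ := (V.map fun u => f (Xs X u)).sum

theorem tot_split {f : F → ℕ} (hf : ∀ x, f x⁻¹ = f x) {V V' : List Germ} {X : ℕ → F} {u : Germ}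
    {y : F} (hnd : V.Nodup) (hu : u ∈ V) (hu' : tau u ∈ V) (hp : V'.Perm V) :
    ∃ c, tot f V X = c + 2 * f (Xs X u) ∧ tot f V' (slX X u y) = c + 2 * f y := by
  have h1 : V.Perm (u :: tau u :: ((V.erase u).erase (tau u))) := by
    have e1 := List.perm_cons_erase hu
    have hm : tau u ∈ V.erase u := by
      rw [List.Nodup.mem_erase_iff hnd]
      exact ⟨tau_ne u, hu'⟩
    exact e1.trans (List.Perm.cons _ (List.perm_cons_erase hm))
  set R := (V.erase u).erase (tau u) with hR
  have hndR : (u :: tau u :: R).Nodup := h1.nodup_iff.1 hnd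
  rw [List.nodup_cons, List.nodup_cons] at hndR
  have hRl : ∀ w ∈ R, w.1 ≠ u.1 := by
    intro w hw
    refine fst_ne_of ?_ ?_
    · intro e
      subst e
      exact hndR.1 (by simp [hw])
    · intro e
      subst e
      exact hndR.2.1 hw
  refine ⟨(R.map fun w => f (Xs X w)).sum, ?_, ?_⟩
  · unfold tot
    rw [(h1.map _).sum_eq]
    simp only [List.map_cons, List.sum_cons, Xs_tau, hf]
    omega
  · unfold tot
    rw [((hp.trans h1).map _).sum_eq]
    simp only [List.map_cons, List.sum_cons, Xs_tau, hf, Xs_slX]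
    have : (R.map fun w => f (Xs (slX X u y) w)) = R.map fun w => f (Xs X w) := by
      refine List.map_congr_left fun w hw => ?_
      rw [Xs_slX_ne (hRl w hw)]
    rw [this]
    omega

theorem Good.congr {s g : ℕ} {X X' : ℕ → F} {u v : Germ} (h1 : Xs X' u = Xs X u)
    (h2 : Xs X' v = Xs X v) (h : Good s g X' u v) : Good s g X u v := by
  obtain ⟨θ, hθ, e1, e2⟩ := h
  exact ⟨θ, hθ, by rw [e1, h1], by rw [e2, h2]⟩

/-- A list of length four with a linked pair. -/
theorem NL.four {V : List Germ} {p q : Germ} (h : NL V p q) (hlen : V.length = 4) :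
    V = [p, tau q, tau p, q] := by
  obtain ⟨V0, V3, V2, V1, V4, hV⟩ := h.split
  rw [hV] at hlen
  simp only [List.length_append, List.length_cons] at hlen
  have e0 : V0 = [] := List.length_eq_zero_iff.1 (by omega)
  have e1 : V1 = [] := List.length_eq_zero_iff.1 (by omega)
  have e2 : V2 = [] := List.length_eq_zero_iff.1 (by omega)
  have e3 : V3 = [] := List.length_eq_zero_iff.1 (by omega)
  have e4 : V4 = [] := List.length_eq_zero_iff.1 (by omega)
  rw [hV, e0, e1, e2, e3, e4]
  rfl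

section genus1
variable {s : ℕ} {p q : Germ}

theorem nx_four {u v : Germ} (h : Nx [p, tau q, tau p, q] u v) :
    (tau p = u ∧ tau q = v) ∨ (q = u ∧ tau p = v) ∨ (p = u ∧ q = v) := by
  obtain ⟨Y, Y', hY⟩ := h
  rcases Y with _ | ⟨y1, _ | ⟨y2, _ | ⟨y3, Y⟩⟩⟩
  · simp only [List.nil_append, List.cons.injEq] at hY
    left
    exact ⟨(tau_eq_iff.1 hY.1.symm).symm, hY.2.1⟩
  · simp only [List.cons_append, List.nil_append, List.cons.injEq] at hY
    right; left
    exact ⟨(tau_inj.1 hY.2.1), hY.2.2.1⟩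
  · simp only [List.cons_append, List.nil_append, List.cons.injEq] at hY
    right; right
    exact ⟨(tau_inj.1 hY.2.2.1), hY.2.2.2.1⟩
  · have := congrArg List.length hY
    simp at this
    omega

theorem good_of {X : ℕ → F} {θ ψ : MulAut F} (hθ : θ ∈ M s 1) (hψ : ψ ∈ M s 1)
    (h1 : θ (ψ (a s)) = Xs X p) (h2 : θ (ψ (b s)) = Xs X q) : Good s 1 X p q :=
  ⟨θ * ψ, mul_mem hθ hψ, h1, h2⟩

theorem NL_four : NL [p, tau q, tau p, q] p q := List.Sublist.refl _

/-- The genus one step, R-slides. -/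
theorem genus1R {X : ℕ → F} (hne : p.1 ≠ q.1) {u v : Germ}
    (h : Nx [p, tau q, tau p, q] u v)
    (IH : ∀ r t, NL (slV [p, tau q, tau p, q] u v) r t →
      Good s 1 (slX X u (Xs X u * Xs X v)) r t) : Good s 1 X p q := by
  have n1 : p ≠ q := fun e => hne (by rw [e])
  have n2 : p ≠ tau q := fun e => hne (by rw [e]; rfl)
  have n3 : tau p ≠ q := fun e => hne (by rw [← e]; rfl)
  have n4 : tau p ≠ tau q := fun e => n1 (tau_inj.1 e)
  have n5 : tau p ≠ p := tau_ne p
  have n6 : tau q ≠ q := tau_ne q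
  have hTa : Ta s ∈ M s 1 := Ta_mem_M (le_refl _) (by omega)
  have hTb : Tb s ∈ M s 1 := Tb_mem_M (le_refl _) (by omega)
  have hw : w s ∈ M s 1 := w_mem_M (le_refl _) (by omega)
  rcases nx_four h with ⟨rfl, rfl⟩ | ⟨rfl, rfl⟩ | ⟨rfl, rfl⟩
  · have e : slV [p, tau q, tau p, q] (tau p) (tau q) = [tau q, tau p, q, p] := by
      simp [slV, insAfter, n2.symm, n3, n4.symm, n6]
    rw [e] at IH
    have hnl : NL [tau q, tau p, q, p] (tau q) p := by
      unfold NL
      rw [tau_tau]
    obtain ⟨θ, hθ, g1, g2⟩ := IH _ _ hnl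
    rw [Xs_slX_ne (by simpa using hne.symm)] at g1
    have g3 : Xs (slX X (tau p) (Xs X (tau p) * Xs X (tau q))) p = Xs X q * Xs X p := by
      have := Xs_slX X (tau p) (Xs X (tau p) * Xs X (tau q))
      rw [Xs_tau, Xs_tau, Xs_tau] at this
      rw [Xs_tau, Xs_tau]
      have h2 := congrArg (·⁻¹) this
      simpa using h2
    rw [g3] at g2
    refine good_of hθ (inv_mem hw) ?_ ?_
    · rw [show (w s)⁻¹ (a s) = a s * b s from aut_inv_eq (by
        rw [map_mul, w_a, w_b]; group)]
      rw [map_mul, g1, g2, Xs_tau]; group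
    · rw [show (w s)⁻¹ (b s) = (a s)⁻¹ from aut_inv_eq (by
        rw [map_inv, w_a]; group)]
      rw [map_inv, g1, Xs_tau, inv_inv]
  · have e : slV [p, tau q, tau p, q] q (tau p) = [p, tau q, tau p, q] := by
      simp [slV, insAfter, n2]
    rw [e] at IH
    obtain ⟨θ, hθ, g1, g2⟩ := IH _ _ NL_four
    rw [Xs_slX_ne hne] at g1
    rw [Xs_slX] at g2
    refine good_of hθ hTa ?_ ?_
    · rw [Ta_a, g1]
    · rw [Ta_b, map_mul, g1, g2, Xs_tau]; group
  · have e : slV [p, tau q, tau p, q] p q = [p, tau q, tau p, q] := by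
      simp [slV, insAfter, n2, n4.symm, n5.symm]
    rw [e] at IH
    obtain ⟨θ, hθ, g1, g2⟩ := IH _ _ NL_four
    rw [Xs_slX] at g1
    rw [Xs_slX_ne hne.symm] at g2
    refine good_of hθ (inv_mem hTb) ?_ ?_
    · rw [Tb_inv_a, map_mul, map_inv, g1, g2]; group
    · rw [Tb_inv_b, g2]

/-- The genus one step, L-slides. -/
theorem genus1L {X : ℕ → F} (hne : p.1 ≠ q.1) {u v : Germ}
    (h : Nx [p, tau q, tau p, q] u v)
    (IH : ∀ r t, NL (slVL [p, tau q, tau p, q] u v) r t →
      Good s 1 (slX X v (Xs X u * Xs X v)) r t) : Good s 1 X p q := by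
  have n1 : p ≠ q := fun e => hne (by rw [e])
  have n2 : p ≠ tau q := fun e => hne (by rw [e]; rfl)
  have n3 : tau p ≠ q := fun e => hne (by rw [← e]; rfl)
  have n4 : tau p ≠ tau q := fun e => n1 (tau_inj.1 e)
  have n5 : tau p ≠ p := tau_ne p
  have n6 : tau q ≠ q := tau_ne q
  have hTa : Ta s ∈ M s 1 := Ta_mem_M (le_refl _) (by omega)
  have hTb : Tb s ∈ M s 1 := Tb_mem_M (le_refl _) (by omega)
  have hw : w s ∈ M s 1 := w_mem_M (le_refl _) (by omega)
  rcases nx_four h with ⟨rfl, rfl⟩ | ⟨rfl, rfl⟩ | ⟨rfl, rfl⟩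
  · have e : slVL [p, tau q, tau p, q] (tau p) (tau q) = [p, tau q, tau p, q] := by
      simp [slVL, slV, insAfter, n3.symm, n4, n6.symm]
    rw [e] at IH
    obtain ⟨θ, hθ, g1, g2⟩ := IH _ _ NL_four
    rw [Xs_slX_ne (by simpa using hne)] at g1
    have g3 : Xs (slX X (tau q) (Xs X (tau p) * Xs X (tau q))) q = Xs X q * Xs X p := by
      have := Xs_slX X (tau q) (Xs X (tau p) * Xs X (tau q))
      rw [Xs_tau, Xs_tau, Xs_tau] at this
      rw [Xs_tau, Xs_tau]
      have h2 := congrArg (·⁻¹) this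
      simpa using h2
    rw [g3] at g2
    refine good_of hθ (inv_mem hTa) ?_ ?_
    · rw [Ta_inv_a, g1]
    · rw [Ta_inv_b, map_mul, map_inv, g1, g2]; group
  · have e : slVL [p, tau q, tau p, q] q (tau p) = [p, tau q, tau p, q] := by
      simp [slVL, slV, insAfter, n3.symm]
    rw [e] at IH
    obtain ⟨θ, hθ, g1, g2⟩ := IH _ _ NL_four
    have g3 : Xs (slX X (tau p) (Xs X q * Xs X (tau p))) p = Xs X p * (Xs X q)⁻¹ := by
      have := Xs_slX X (tau p) (Xs X q * Xs X (tau p))
      rw [Xs_tau, Xs_tau] at this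
      rw [Xs_tau]
      have h2 := congrArg (·⁻¹) this
      simpa using h2
    rw [g3] at g1
    rw [Xs_slX_ne (by simpa using hne.symm)] at g2
    refine good_of hθ hTb ?_ ?_
    · rw [Tb_a, map_mul, g1, g2]; group
    · rw [Tb_b, g2]
  · have e : slVL [p, tau q, tau p, q] p q = [q, p, tau q, tau p] := by
      simp [slVL, slV, insAfter, n2.symm, n5]
    rw [e] at IH
    have hnl : NL [q, p, tau q, tau p] q (tau p) := by
      unfold NL
      rw [tau_tau]
    obtain ⟨θ, hθ, g1, g2⟩ := IH _ _ hnl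
    rw [Xs_slX] at g1
    rw [Xs_slX_ne (by simpa using hne)] at g2
    refine good_of hθ hw ?_ ?_
    · rw [w_a, map_inv, g2, Xs_tau, inv_inv]
    · rw [w_b, map_mul, g1, g2, Xs_tau]; group

end genus1

/-- The descent: if every marking with labels in `K` has a pair with values `(a s, b s)` or can be
made smaller by a slide, then all its linked pairs are good. -/
theorem descent (s g : ℕ) (hg : 1 ≤ g) (K : Subgroup F) (m1 m2 : F → ℕ)
    (hm1 : ∀ x, m1 x⁻¹ = m1 x) (hm2 : ∀ x, m2 x⁻¹ = m2 x)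
    (red : ∀ (V : List Germ) (X : ℕ → F) (h : Germ → F), V.length = 4 * g →
      Mk V X h (zeta s g) → (∀ u ∈ V, Xs X u ∈ K) →
      (∃ u v, NL V u v ∧ Xs X u = a s ∧ Xs X v = b s) ∨
      ∃ u v, Nx V u v ∧ u.1 ≠ v.1 ∧
        ((m1 (Xs X u * Xs X v) < m1 (Xs X u) ∨
          (m1 (Xs X u * Xs X v) = m1 (Xs X u) ∧ m2 (Xs X u * Xs X v) < m2 (Xs X u))) ∨
         (m1 (Xs X u * Xs X v) < m1 (Xs X v) ∨
          (m1 (Xs X u * Xs X v) = m1 (Xs X v) ∧ m2 (Xs X u * Xs X v) < m2 (Xs X v)))))
    (prop : ∀ (V : List Germ) (X : ℕ → F) (h : Germ → F), V.length = 4 * g →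
      Mk V X h (zeta s g) → ∀ p q, NL V p q → Good s g X p q →
      ∀ r t, NL V r t → Good s g X r t) :
    ∀ (N : ℕ × ℕ) (V : List Germ) (X : ℕ → F) (h : Germ → F), N = (tot m1 V X, tot m2 V X) →
      V.length = 4 * g → Mk V X h (zeta s g) → (∀ u ∈ V, Xs X u ∈ K) →
      ∀ u v, NL V u v → Good s g X u v := by
  intro N
  induction N using (WellFounded.prod_lex (wellFounded_lt (α := ℕ))
    (wellFounded_lt (α := ℕ))).induction with
  | _ N ih =>
  intro V X h hN hlen hM hK
  rcases red V X h hlen hM hK with ⟨u, v, hnl, h1, h2⟩ | ⟨u, v, hnx, hne, hmu⟩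
  · refine prop V X h hlen hM u v hnl ⟨1, one_mem _, ?_, ?_⟩
    · rw [MulAut.one_apply, h1]
    · rw [MulAut.one_apply, h2]
  have hnd := hM.nodup
  have hv : v ∈ V := (nx_mem hnx).2
  have hu : u ∈ V := by rw [← hM.tau_mem_iff]; exact (nx_mem hnx).1
  have hu' : tau u ∈ V := hM.closed u hu
  have hv' : tau v ∈ V := hM.closed v hv
  rcases hmu with hmu | hmu
  · -- R-slide
    have hperm := slV_perm hnd hnx hne hv'
    have hM' := hM.slideR hnx hne
    have hlt : Prod.Lex (· < ·) (· < ·)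
        (tot m1 (slV V u v) (slX X u (Xs X u * Xs X v)),
          tot m2 (slV V u v) (slX X u (Xs X u * Xs X v))) N := by
      obtain ⟨c1, e1, f1⟩ := tot_split hm1 (X := X) (y := Xs X u * Xs X v) hnd hu hu' hperm
      obtain ⟨c2, e2, f2⟩ := tot_split hm2 (X := X) (y := Xs X u * Xs X v) hnd hu hu' hperm
      rw [hN, e1, e2, f1, f2, Prod.lex_def]
      simp only
      omega
    have hK' : ∀ w ∈ slV V u v, Xs (slX X u (Xs X u * Xs X v)) w ∈ K := by
      intro w hw
      rw [hperm.mem_iff] at hw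
      by_cases hwu : w.1 = u.1
      · have h3 : Xs X u * Xs X v ∈ K := mul_mem (hK u hu) (hK v hv)
        rcases eq_or_eq_tau hwu with rfl | rfl
        · rw [Xs_slX]; exact h3
        · rw [Xs_tau, Xs_slX]; exact inv_mem h3
      · rw [Xs_slX_ne hwu]; exact hK w hw
    have IH := ih _ hlt (slV V u v) _ _ rfl (by rw [hperm.length_eq, hlen]) hM' hK'
    rcases Nat.lt_or_ge 1 g with hg2 | hg1
    · obtain ⟨r, t, hrt, hr, ht⟩ := hM.avoid (by omega) u.1
      have hnl' : NL (slV V u v) r t :=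
        NL.of_filter (slV_filter hnd hnx hne hv') (by simpa using hr) (by simpa using ht) hrt
      have hgood := (IH r t hnl').congr (Xs_slX_ne hr) (Xs_slX_ne ht)
      exact prop V X h hlen hM r t hrt hgood
    · have hg' : g = 1 := by omega
      subst hg'
      intro p q hpq
      have hV := hpq.four hlen
      have hpq1 := hpq.fst_ne hnd
      subst hV
      exact genus1R hpq1 hnx IH
  · -- L-slide
    have hperm := slVL_perm hnd hnx hne hu
    obtain ⟨h', hM'⟩ := hM.slideL hnx hne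
    have hlt : Prod.Lex (· < ·) (· < ·)
        (tot m1 (slVL V u v) (slX X v (Xs X u * Xs X v)),
          tot m2 (slVL V u v) (slX X v (Xs X u * Xs X v))) N := by
      obtain ⟨c1, e1, f1⟩ := tot_split hm1 (X := X) (y := Xs X u * Xs X v) hnd hv hv' hperm
      obtain ⟨c2, e2, f2⟩ := tot_split hm2 (X := X) (y := Xs X u * Xs X v) hnd hv hv' hperm
      rw [hN, e1, e2, f1, f2, Prod.lex_def]
      simp only
      omega
    have hK' : ∀ w ∈ slVL V u v, Xs (slX X v (Xs X u * Xs X v)) w ∈ K := by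
      intro w hw
      rw [hperm.mem_iff] at hw
      by_cases hwv : w.1 = v.1
      · have h3 : Xs X u * Xs X v ∈ K := mul_mem (hK u hu) (hK v hv)
        rcases eq_or_eq_tau hwv with rfl | rfl
        · rw [Xs_slX]; exact h3
        · rw [Xs_tau, Xs_slX]; exact inv_mem h3
      · rw [Xs_slX_ne hwv]; exact hK w hw
    have IH := ih _ hlt (slVL V u v) _ _ rfl (by rw [hperm.length_eq, hlen]) hM' hK'
    rcases Nat.lt_or_ge 1 g with hg2 | hg1
    · obtain ⟨r, t, hrt, hr, ht⟩ := hM.avoid (by omega) v.1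
      have hnl' : NL (slVL V u v) r t :=
        NL.of_filter (slVL_filter hnd hnx hne hu) hr ht hrt
      have hgood := (IH r t hnl').congr (Xs_slX_ne hr) (Xs_slX_ne ht)
      exact prop V X h hlen hM r t hrt hgood
    · have hg' : g = 1 := by omega
      subst hg'
      intro p q hpq
      have hV := hpq.four hlen
      have hpq1 := hpq.fst_ne hnd
      subst hV
      exact genus1L hpq1 hnx IH

end Pool.Agent.Torelli
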