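import Pool.Agent.Torelli.AB.Table

/-!
# Torelli project, part AB5: handle removal
-/

set_option autoImplicit false

namespace Pool.Agent.Torelli

/-- the sector of a germ -/
def sec (V0 V3 V2 V1 : List Germ) (u : Germ) : ℕ :=
  if u ∈ V0 then 0 else if u ∈ V3 then 3 else if u ∈ V2 then 2 else if u ∈ V1 then 1 else 4

/-- the labels after handle removal -/
def Xbar (s : ℕ) (V0 V3 V2 V1 : List Germ) (X : ℕ → F) (l : ℕ) : F :=
  (H s)⁻¹ * cS s (sec V0 V3 V2 V1 (l, true)) * X l * (cS s (sec V0 V3 V2 V1 (l, false)))⁻¹ * H s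

/-- the corner values after handle removal -/
def hbar (s : ℕ) (V0 V3 V2 V1 : List Germ) (h : Germ → F) (u : Germ) : F :=
  (H s)⁻¹ * h u * (cS s (sec V0 V3 V2 V1 u))⁻¹ * H s

/-- the vertex order after handle removal -/
def Vbar (V0 V3 V2 V1 V4 : List Germ) : List Germ := V0 ++ (V1 ++ (V2 ++ (V3 ++ V4)))

theorem Xs_Xbar (s : ℕ) (V0 V3 V2 V1 : List Germ) (X : ℕ → F) (u : Germ) :
    Xs (Xbar s V0 V3 V2 V1 X) u =
      (H s)⁻¹ * cS s (sec V0 V3 V2 V1 u) * Xs X u * (cS s (sec V0 V3 V2 V1 (tau u)))⁻¹ * H s := by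
  rcases u with ⟨l, x⟩
  cases x
  · simp only [Xs_false, Xbar, tau, Bool.not_false]
    group
  · simp only [Xs_true, Xbar, tau, Bool.not_true]

theorem Xs_of_Xbar (s : ℕ) (V0 V3 V2 V1 : List Germ) (X : ℕ → F) (u : Germ) :
    Xs X u = (cS s (sec V0 V3 V2 V1 u))⁻¹ * H s * Xs (Xbar s V0 V3 V2 V1 X) u * (H s)⁻¹ *
      cS s (sec V0 V3 V2 V1 (tau u)) := by
  rw [Xs_Xbar]; group

theorem Path_sector (s : ℕ) (V0 V3 V2 V1 : List Germ) (X : ℕ → F) (h : Germ → F) (i : ℕ)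
    (L : List Germ) : ∀ {x y x' y' : F}, (∀ u ∈ L, sec V0 V3 V2 V1 u = i) →
    x' = (H s)⁻¹ * x * (cS s i)⁻¹ * H s → y' = (H s)⁻¹ * y * (cS s i)⁻¹ * H s →
    Path X h x L y →
    Path (Xbar s V0 V3 V2 V1 X) (hbar s V0 V3 V2 V1 h) x' L y' := by
  induction L with
  | nil =>
    intro x y x' y' _ hx hy hp
    rw [Path_nil] at hp ⊢
    rw [hx, hy, hp]
  | cons u L ih =>
    intro x y x' y' hs hx hy hp
    rw [Path_cons] at hp ⊢
    have hu : sec V0 V3 V2 V1 u = i := hs u (by simp)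
    refine ⟨?_, ?_⟩
    · rw [hbar, hu, hp.1, hx]
    · refine ih (fun v hv => hs v (by simp [hv])) ?_ hy hp.2
      rw [hbar, Xs_Xbar, tau_tau, hu]
      group

theorem sec_eq {V0 V3 V2 V1 V4 : List Germ}
    (hV : (Vbar V0 V3 V2 V1 V4).Nodup) :
    (∀ u ∈ V0, sec V0 V3 V2 V1 u = 0) ∧ (∀ u ∈ V1, sec V0 V3 V2 V1 u = 1) ∧
    (∀ u ∈ V2, sec V0 V3 V2 V1 u = 2) ∧ (∀ u ∈ V3, sec V0 V3 V2 V1 u = 3) ∧
    (∀ u ∈ V4, sec V0 V3 V2 V1 u = 4) := by
  unfold Vbar at hV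
  simp only [List.nodup_append, List.mem_append] at hV
  obtain ⟨_, ⟨_, ⟨_, ⟨_, _, h34⟩, h2⟩, h1⟩, h0⟩ := hV
  refine ⟨?_, ?_, ?_, ?_, ?_⟩
  · intro u hu; simp [sec, hu]
  · intro u hu
    have a0 : u ∉ V0 := fun h => h0 u h u (by simp [hu]) rfl
    have a2 : u ∉ V2 := fun h => h1 u hu u (by simp [h]) rfl
    have a3 : u ∉ V3 := fun h => h1 u hu u (by simp [h]) rfl
    simp [sec, hu, a0, a2, a3]
  · intro u hu
    have a0 : u ∉ V0 := fun h => h0 u h u (by simp [hu]) rfl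
    have a3 : u ∉ V3 := fun h => h2 u hu u (by simp [h]) rfl
    simp [sec, hu, a0, a3]
  · intro u hu
    have a0 : u ∉ V0 := fun h => h0 u h u (by simp [hu]) rfl
    simp [sec, hu, a0]
  · intro u hu
    have a0 : u ∉ V0 := fun h => h0 u h u (by simp [hu]) rfl
    have a3 : u ∉ V3 := fun h => h34 u h u hu rfl
    have a2 : u ∉ V2 := fun h => h2 u h u (by simp [hu]) rfl
    have a1 : u ∉ V1 := fun h => h1 u h u (by simp [hu]) rfl
    simp [sec, a0, a3, a2, a1]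

section
variable {s : ℕ} {V0 V3 V2 V1 V4 : List Germ} {p q : Germ} {X : ℕ → F} {h : Germ → F} {z : F}

theorem perm_Vbar :
    (V0 ++ p :: (V3 ++ tau q :: (V2 ++ tau p :: (V1 ++ q :: V4)))).Perm
      (p :: tau q :: tau p :: q :: Vbar V0 V3 V2 V1 V4) := by
  unfold Vbar
  rw [List.perm_iff_count]
  intro x
  simp only [List.count_append, List.count_cons]
  omega

theorem Vbar_nodup
    (hV : (V0 ++ p :: (V3 ++ tau q :: (V2 ++ tau p :: (V1 ++ q :: V4)))).Nodup) :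
    (Vbar V0 V3 V2 V1 V4).Nodup := by
  have h1 := perm_Vbar.nodup_iff.1 hV
  simp only [List.nodup_cons] at h1
  exact h1.2.2.2.2

theorem mem_Vbar
    (hV : (V0 ++ p :: (V3 ++ tau q :: (V2 ++ tau p :: (V1 ++ q :: V4)))).Nodup) {u : Germ} :
    u ∈ Vbar V0 V3 V2 V1 V4 ↔
      u ∈ V0 ++ p :: (V3 ++ tau q :: (V2 ++ tau p :: (V1 ++ q :: V4))) ∧ u.1 ≠ p.1 ∧ u.1 ≠ q.1 := by
  have h1 := perm_Vbar.nodup_iff.1 hV
  simp only [List.nodup_cons, List.mem_cons, not_or] at h1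
  obtain ⟨⟨_, _, _, hp⟩, ⟨_, _, hq'⟩, ⟨_, hp'⟩, hq, _⟩ := h1
  rw [(perm_Vbar (p := p) (q := q)).mem_iff]
  simp only [List.mem_cons]
  constructor
  · intro hu
    refine ⟨by tauto, ?_, ?_⟩
    · exact fst_ne_of (fun e => hp (e ▸ hu)) (fun e => hp' (e ▸ hu))
    · exact fst_ne_of (fun e => hq (e ▸ hu)) (fun e => hq' (e ▸ hu))
  · rintro ⟨hu | hu | hu | hu | hu, h1, h2⟩
    · exact absurd (by rw [hu]) h1
    · exact absurd (by rw [hu]; simp) h2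
    · exact absurd (by rw [hu]; simp) h1
    · exact absurd (by rw [hu]) h2
    · exact hu

/-- **Handle removal.** -/
theorem Mk.bar (hM : Mk (V0 ++ p :: (V3 ++ tau q :: (V2 ++ tau p :: (V1 ++ q :: V4)))) X h (H s * z))
    (hp : Xs X p = a s) (hq : Xs X q = b s) :
    Mk (Vbar V0 V3 V2 V1 V4) (Xbar s V0 V3 V2 V1 X) (hbar s V0 V3 V2 V1 h) z := by
  have hnd := Vbar_nodup hM.nodup
  obtain ⟨s0, s1, s2, s3, s4⟩ := sec_eq hnd
  refine ⟨hnd, ?_, ?_, ?_⟩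
  · intro u hu
    rw [mem_Vbar hM.nodup] at hu ⊢
    exact ⟨hM.closed u hu.1, hu.2⟩
  · have hpath := hM.path
    simp only [Path_append, Path_cons, tau_tau] at hpath
    obtain ⟨x0, p0, e0, x3, p3, e3, x2, p2, e2, x1, p1, e1, p4⟩ := hpath
    unfold Vbar
    rw [Path_append]
    refine ⟨(H s)⁻¹ * x0 * (cS s 0)⁻¹ * H s, ?_, ?_⟩
    · refine Path_sector s V0 V3 V2 V1 X h 0 V0 s0 ?_ rfl p0
      simp [cS]
    rw [Path_append]
    refine ⟨(H s)⁻¹ * x1 * (cS s 1)⁻¹ * H s, ?_, ?_⟩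
    · refine Path_sector s V0 V3 V2 V1 X h 1 V1 s1 ?_ rfl p1
      rw [e0, hp]
      simp only [cS]
      group
    rw [Path_append]
    refine ⟨(H s)⁻¹ * x2 * (cS s 2)⁻¹ * H s, ?_, ?_⟩
    · refine Path_sector s V0 V3 V2 V1 X h 2 V2 s2 ?_ rfl p2
      rw [e1, hq]
      simp only [cS]
      group
    rw [Path_append]
    refine ⟨(H s)⁻¹ * x3 * (cS s 3)⁻¹ * H s, ?_, ?_⟩
    · refine Path_sector s V0 V3 V2 V1 X h 3 V3 s3 ?_ rfl p3
      rw [e2, Xs_tau, hp]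
      simp only [cS]
      group
    · refine Path_sector s V0 V3 V2 V1 X h 4 V4 s4 ?_ ?_ p4
      · rw [e3, Xs_tau, hq]
        simp only [cS, H]
        group
      · simp only [cS]
        group
  · intro u hu
    rw [mem_Vbar hM.nodup] at hu
    obtain ⟨φ, h1, h2⟩ := hM.dual u hu.1
    have ha : φ (a s) = 1 := by
      rw [← hp]; exact h2 p (by simp) (Ne.symm hu.2.1)
    have hb : φ (b s) = 1 := by
      rw [← hq]; exact h2 q (by simp) (Ne.symm hu.2.2)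
    have hH : φ (H s) = 1 := by simp [H, ha, hb]
    have hc : ∀ i, φ (cS s i) = 1 := by
      intro i
      unfold cS
      split <;> simp [ha, hb, hH]
    refine ⟨φ, ?_, ?_⟩
    · rw [Xs_Xbar]
      simp [hH, hc, h1]
    · intro v hv hne
      rw [mem_Vbar hM.nodup] at hv
      rw [Xs_Xbar]
      simp [hH, hc, h2 v hv.1 hne]

end

end Pool.Agent.Torelli
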