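import Pool.Agent.Torelli.Basic

/-!
# Torelli project, part AB: markings

A marking of `z : F` is a one-vertex, one-face ribbon graph with group labels: `V` is the linear
order of the germs at the vertex, `X l` is the label of the edge `l`, `h u` is the value at the
corner just before the germ `u`.
-/

set_option autoImplicit false

namespace Pool.Agent.Torelli

/-- signed labels -/
abbrev Germ := ℕ × Bool

/-- the opposite germ -/
def tau (u : Germ) : Germ := (u.1, !u.2)

@[simp] theorem tau_tau (u : Germ) : tau (tau u) = u := by simp [tau]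

@[simp] theorem tau_fst (u : Germ) : (tau u).1 = u.1 := rfl

theorem tau_ne (u : Germ) : tau u ≠ u := by
  intro h
  have := congrArg Prod.snd h
  simp [tau] at this

theorem tau_inj {u v : Germ} : tau u = tau v ↔ u = v :=
  ⟨fun h => by rw [← tau_tau u, h, tau_tau], fun h => by rw [h]⟩

theorem tau_eq_iff {u v : Germ} : tau u = v ↔ u = tau v :=
  ⟨fun h => by rw [← h, tau_tau], fun h => by rw [h, tau_tau]⟩

theorem eq_or_eq_tau {u v : Germ} (h : u.1 = v.1) : u = v ∨ u = tau v := by
  rcases u with ⟨m, x⟩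
  rcases v with ⟨n, y⟩
  simp only at h
  subst h
  cases x <;> cases y <;> simp [tau]

theorem fst_ne_of {u v : Germ} (h1 : u ≠ v) (h2 : u ≠ tau v) : u.1 ≠ v.1 := fun h =>
  (eq_or_eq_tau h).elim h1 h2

/-- the value of a signed label -/
def Xs (X : ℕ → F) (u : Germ) : F := if u.2 then X u.1 else (X u.1)⁻¹

@[simp] theorem Xs_true (X : ℕ → F) (l : ℕ) : Xs X (l, true) = X l := rfl

@[simp] theorem Xs_false (X : ℕ → F) (l : ℕ) : Xs X (l, false) = (X l)⁻¹ := rfl

@[simp] theorem Xs_tau (X : ℕ → F) (u : Germ) : Xs X (tau u) = (Xs X u)⁻¹ := by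
  rcases u with ⟨m, x⟩
  cases x <;> simp [tau, Xs]

/-- The path along the corners of the vertex. -/
def Path (X : ℕ → F) (h : Germ → F) : F → List Germ → F → Prop
  | x, [], y => x = y
  | x, u :: V, y => h u = x ∧ Path X h (h (tau u) * Xs X (tau u)) V y

@[simp] theorem Path_nil (X : ℕ → F) (h : Germ → F) (x y : F) : Path X h x [] y ↔ x = y := Iff.rfl

@[simp] theorem Path_cons (X : ℕ → F) (h : Germ → F) (x y : F) (u : Germ) (V : List Germ) :
    Path X h x (u :: V) y ↔ h u = x ∧ Path X h (h (tau u) * Xs X (tau u)) V y := Iff.rfl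

theorem Path_append (X : ℕ → F) (h : Germ → F) (V V' : List Germ) : ∀ (x y : F),
    Path X h x (V ++ V') y ↔ ∃ m, Path X h x V m ∧ Path X h m V' y := by
  induction V with
  | nil => intro x y; simp
  | cons u V ih =>
    intro x y
    simp only [List.cons_append, Path_cons, ih]
    constructor
    · rintro ⟨h1, m, h2, h3⟩; exact ⟨m, ⟨h1, h2⟩, h3⟩
    · rintro ⟨m, ⟨h1, h2⟩, h3⟩; exact ⟨h1, m, h2, h3⟩

theorem Path_congr {X X' : ℕ → F} {h h' : Germ → F} (V : List Germ) : ∀ {x y : F},
    (∀ u ∈ V, h' u = h u) →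
    (∀ u ∈ V, h' (tau u) * Xs X' (tau u) = h (tau u) * Xs X (tau u)) →
    Path X h x V y → Path X' h' x V y := by
  induction V with
  | nil => intro x y _ _ hp; exact hp
  | cons u V ih =>
    intro x y h1 h2 hp
    rw [Path_cons] at hp ⊢
    refine ⟨by rw [h1 u (by simp)]; exact hp.1, ?_⟩
    rw [h2 u (by simp)]
    exact ih (fun v hv => h1 v (by simp [hv])) (fun v hv => h2 v (by simp [hv])) hp.2

/-- A marking of `z`. -/
structure Mk (V : List Germ) (X : ℕ → F) (h : Germ → F) (z : F) : Prop where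
  nodup : V.Nodup
  closed : ∀ u ∈ V, tau u ∈ V
  path : Path X h 1 V z
  dual : ∀ u ∈ V, ∃ φ : F →* Multiplicative ℤ, φ (Xs X u) = Multiplicative.ofAdd 1 ∧
    ∀ v ∈ V, v.1 ≠ u.1 → φ (Xs X v) = 1

/-- `(u, v)` is a normalised linked pair of `V`. -/
def NL (V : List Germ) (u v : Germ) : Prop := List.Sublist [u, tau v, tau u, v] V

/-- The pair `(u, v)` is good. -/
def Good (s g : ℕ) (X : ℕ → F) (u v : Germ) : Prop :=
  ∃ θ ∈ M s g, θ (a s) = Xs X u ∧ θ (b s) = Xs X v

/-- `tau u` and `v` are consecutive in `V`. -/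
def Nx (V : List Germ) (u v : Germ) : Prop := ∃ Y Y', V = Y ++ tau u :: v :: Y'

/-- `W` is the boundary tour of the marking. -/
structure Tour (V W : List Germ) (X : ℕ → F) (h : Germ → F) (z : F) : Prop where
  nodup : W.Nodup
  mem : ∀ u, u ∈ W ↔ u ∈ V
  chain : ∀ A u v B, W = A ++ u :: v :: B → Nx V u v
  head : W.head? = V.head?
  last : ∀ A u, W = A ++ [u] → ∃ B, V = B ++ [tau u]
  prod : (W.map (Xs X)).prod = z
  pre : ∀ A u B, W = A ++ u :: B → h u = (A.map (Xs X)).prod

/-- A sublist of length two of a list splits it. -/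
theorem sublist_cons_split {α : Type*} {u : α} {L V : List α} (h : List.Sublist (u :: L) V) :
    ∃ A B, V = A ++ u :: B ∧ List.Sublist L B := by
  induction V with
  | nil => simp at h
  | cons x V ih =>
    cases h with
    | cons _ h' =>
      obtain ⟨A, B, hV, hL⟩ := ih h'
      exact ⟨x :: A, B, by simp [hV], hL⟩
    | cons_cons _ h' => exact ⟨[], V, rfl, h'⟩

theorem NL.split {V : List Germ} {u v : Germ} (h : NL V u v) : ∃ V0 V3 V2 V1 V4,
    V = V0 ++ u :: (V3 ++ tau v :: (V2 ++ tau u :: (V1 ++ v :: V4))) := by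
  obtain ⟨V0, B, h0, hB⟩ := sublist_cons_split h
  obtain ⟨V3, C, h3, hC⟩ := sublist_cons_split hB
  obtain ⟨V2, D, h2, hD⟩ := sublist_cons_split hC
  obtain ⟨V1, E, h1, _⟩ := sublist_cons_split hD
  exact ⟨V0, V3, V2, V1, E, by rw [h0, h3, h2, h1]⟩

theorem NL.of_split {V0 V3 V2 V1 V4 : List Germ} {u v : Germ} :
    NL (V0 ++ u :: (V3 ++ tau v :: (V2 ++ tau u :: (V1 ++ v :: V4)))) u v := by
  unfold NL
  refine List.Sublist.trans ?_ (List.sublist_append_right V0 _)
  refine List.Sublist.cons_cons _ (List.Sublist.trans ?_ (List.sublist_append_right V3 _))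
  refine List.Sublist.cons_cons _ (List.Sublist.trans ?_ (List.sublist_append_right V2 _))
  refine List.Sublist.cons_cons _ (List.Sublist.trans ?_ (List.sublist_append_right V1 _))
  exact List.Sublist.cons_cons _ (List.nil_sublist _)

theorem NL.mem {V : List Germ} {u v : Germ} (h : NL V u v) :
    u ∈ V ∧ tau v ∈ V ∧ tau u ∈ V ∧ v ∈ V := by
  have := h.subset
  exact ⟨this (by simp), this (by simp), this (by simp), this (by simp)⟩

theorem NL.fst_ne {V : List Germ} {u v : Germ} (hV : V.Nodup) (h : NL V u v) : u.1 ≠ v.1 := by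
  have h1 : [u, tau v, tau u, v].Nodup := h.nodup hV
  have h2 : u ≠ v := by
    intro he
    subst he
    simp at h1
  have h3 : u ≠ tau v := by
    intro he
    rw [he] at h1
    simp at h1
  exact fst_ne_of h2 h3

namespace Mk
variable {V : List Germ} {X : ℕ → F} {h : Germ → F} {z : F}

theorem tau_mem_iff (hM : Mk V X h z) {u : Germ} : tau u ∈ V ↔ u ∈ V :=
  ⟨fun hu => by simpa using hM.closed _ hu, hM.closed u⟩

theorem h_cons (hM : Mk V X h z) {Y Y' : List Germ} {x v : Germ} (hV : V = Y ++ x :: v :: Y') :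
    h v = h (tau x) * Xs X (tau x) := by
  have hp := hM.path
  rw [hV, Path_append] at hp
  obtain ⟨m, _, hp2⟩ := hp
  rw [Path_cons, Path_cons] at hp2
  exact hp2.2.1

theorem h_nx (hM : Mk V X h z) {u v : Germ} (huv : Nx V u v) : h v = h u * Xs X u := by
  obtain ⟨Y, Y', hV⟩ := huv
  have := hM.h_cons hV
  rwa [tau_tau] at this

theorem h_head (hM : Mk V X h z) {Y : List Germ} {v : Germ} (hV : V = v :: Y) : h v = 1 := by
  have hp := hM.path
  rw [hV, Path_cons] at hp
  exact hp.1

theorem h_last (hM : Mk V X h z) {Y : List Germ} {u : Germ} (hV : V = Y ++ [tau u]) :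
    h u * Xs X u = z := by
  have hp := hM.path
  rw [hV, Path_append] at hp
  obtain ⟨m, _, hp2⟩ := hp
  rw [Path_cons, Path_nil, tau_tau] at hp2
  exact hp2.2

end Mk

/-- splitting of a duplicate free list at an element is unique -/
theorem nodup_split_unique {α : Type*} {V : List α} (hV : V.Nodup) {A B A' B' : List α} {x : α}
    (h1 : V = A ++ x :: B) (h2 : V = A' ++ x :: B') : A = A' ∧ B = B' := by
  have hlen : A.length = A'.length := by
    by_contra hne
    rcases Nat.lt_or_gt_of_ne hne with h | h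
    · have e1 : V[A.length]? = some x := by rw [h1]; simp
      have e2 : V[A'.length]? = some x := by rw [h2]; simp
      have hl : A.length < V.length := by rw [h1]; simp
      exact absurd ((List.getElem?_inj hl hV).1 (e1.trans e2.symm)) (by omega)
    · have e1 : V[A.length]? = some x := by rw [h1]; simp
      have e2 : V[A'.length]? = some x := by rw [h2]; simp
      have hl : A.length < V.length := by rw [h1]; simp
      exact absurd ((List.getElem?_inj hl hV).1 (e1.trans e2.symm)) (by omega)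
  have h3 := List.append_inj (h1.symm.trans h2) hlen
  exact ⟨h3.1, (List.cons.inj h3.2).2⟩

theorem nx_unique {V : List Germ} (hV : V.Nodup) {u v w : Germ} (h1 : Nx V u v) (h2 : Nx V u w) :
    v = w := by
  obtain ⟨Y, Y', e1⟩ := h1
  obtain ⟨Z, Z', e2⟩ := h2
  have := (nodup_split_unique hV e1 e2).2
  exact (List.cons.inj this).1

theorem nx_inj {V : List Germ} (hV : V.Nodup) {u u' v : Germ} (h1 : Nx V u v) (h2 : Nx V u' v) :
    u = u' := by
  obtain ⟨Y, Y', e1⟩ := h1
  obtain ⟨Z, Z', e2⟩ := h2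
  have e1' : V = (Y ++ [tau u]) ++ v :: Y' := by rw [e1]; simp
  have e2' : V = (Z ++ [tau u']) ++ v :: Z' := by rw [e2]; simp
  have := (nodup_split_unique hV e1' e2').1
  have h3 := List.append_inj' this rfl
  exact tau_inj.1 (List.cons.inj h3.2).1

end Pool.Agent.Torelli
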