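import Pool.Agent.Torelli.AB.Handle

/-!
# Torelli project, part AB: linked pairs and positions
-/

set_option autoImplicit false

namespace Pool.Agent.Torelli

/-- The statement `AB_g`: every normalised linked pair of a genus `g` marking is good. -/
def ABg (g : ℕ) : Prop := ∀ (s : ℕ) (V : List Germ) (X : ℕ → F) (h : Germ → F),
  V.length = 4 * g → Mk V X h (zeta s g) → ∀ u v, NL V u v → Good s g X u v

/-- Sublists of a duplicate free list are given by increasing positions. -/
theorem sublist_iff_idx {V : List Germ} (hV : V.Nodup) : ∀ {L : List Germ},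
    L.Sublist V ↔ (∀ x ∈ L, x ∈ V) ∧ L.Pairwise (fun x y => V.idxOf x < V.idxOf y) := by
  induction V with
  | nil =>
    intro L
    cases L with
    | nil => simp
    | cons x L =>
      constructor
      · intro h; simp at h
      · rintro ⟨h, -⟩
        exact absurd (h x (by simp)) (by simp)
  | cons y V ih =>
    intro L
    rw [List.nodup_cons] at hV
    have ih' := @ih hV.2
    -- shift lemma
    have shift : ∀ x, x ∈ V → (y :: V).idxOf x = V.idxOf x + 1 := by
      intro x hx
      have : y ≠ x := fun e => hV.1 (e ▸ hx)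
      rw [List.idxOf_cons_ne _ this]
    have hy0 : (y :: V).idxOf y = 0 := List.idxOf_cons_self
    cases L with
    | nil => simp
    | cons x L =>
      constructor
      · intro h
        cases h with
        | cons _ h' =>
          obtain ⟨h1, h2⟩ := ih'.1 h'
          refine ⟨fun w hw => List.mem_cons_of_mem _ (h1 w hw), ?_⟩
          refine h2.imp_of_mem ?_
          intro u v hu hv huv
          rw [shift u (h1 u hu), shift v (h1 v hv)]
          omega
        | cons_cons _ h' =>
          obtain ⟨h1, h2⟩ := ih'.1 h'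
          refine ⟨?_, ?_⟩
          · intro w hw
            rcases List.mem_cons.1 hw with rfl | hw
            · simp
            · exact List.mem_cons_of_mem _ (h1 w hw)
          · rw [List.pairwise_cons]
            refine ⟨?_, h2.imp_of_mem ?_⟩
            · intro w hw
              rw [hy0, shift w (h1 w hw)]
              omega
            · intro u v hu hv huv
              rw [shift u (h1 u hu), shift v (h1 v hv)]
              omega
      · rintro ⟨h1, h2⟩
        have hL : ∀ w ∈ L, w ∈ V := by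
          intro w hw
          have hw' := h1 w (List.mem_cons_of_mem _ hw)
          rcases List.mem_cons.1 hw' with rfl | hw'
          · rw [List.pairwise_cons] at h2
            have := h2.1 w hw
            rw [hy0] at this
            omega
          · exact hw'
        have hL2 : L.Pairwise (fun x y => V.idxOf x < V.idxOf y) := by
          rw [List.pairwise_cons] at h2
          refine h2.2.imp_of_mem ?_
          intro u v hu hv huv
          rw [shift u (hL u hu), shift v (hL v hv)] at huv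
          omega
        rcases List.mem_cons.1 (h1 x (by simp)) with rfl | hx
        · exact List.Sublist.cons_cons _ (ih'.2 ⟨hL, hL2⟩)
        · refine List.Sublist.cons _ (ih'.2 ⟨?_, ?_⟩)
          · intro w hw
            rcases List.mem_cons.1 hw with rfl | hw
            · exact hx
            · exact hL w hw
          · rw [List.pairwise_cons]
            refine ⟨?_, hL2⟩
            intro w hw
            rw [List.pairwise_cons] at h2
            have := h2.1 w hw
            rw [shift x hx, shift w (hL w hw)] at this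
            omega

theorem nl_iff_pos {V : List Germ} (hV : V.Nodup) {u v : Germ} :
    NL V u v ↔ (u ∈ V ∧ tau v ∈ V ∧ tau u ∈ V ∧ v ∈ V) ∧
      V.idxOf u < V.idxOf (tau v) ∧ V.idxOf (tau v) < V.idxOf (tau u) ∧
      V.idxOf (tau u) < V.idxOf v := by
  unfold NL
  rw [sublist_iff_idx hV]
  constructor
  · rintro ⟨h1, h2⟩
    simp only [List.pairwise_cons, List.mem_cons, List.not_mem_nil, or_false] at h2
    refine ⟨⟨h1 _ (by simp), h1 _ (by simp), h1 _ (by simp), h1 _ (by simp)⟩,
      h2.1 _ (by simp), h2.2.1 _ (by simp), h2.2.2.1 _ rfl⟩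
  · rintro ⟨⟨a1, a2, a3, a4⟩, b1, b2, b3⟩
    refine ⟨?_, ?_⟩
    · intro x hx
      simp only [List.mem_cons, List.not_mem_nil, or_false] at hx
      rcases hx with rfl | rfl | rfl | rfl <;> assumption
    · simp only [List.pairwise_cons, List.mem_cons, List.not_mem_nil, or_false, forall_eq_or_imp,
        forall_eq, IsEmpty.forall_iff, implies_true, List.Pairwise.nil, and_true]
      refine ⟨⟨b1, by omega, by omega⟩, ⟨b2, by omega⟩, b3⟩

theorem sub2_iff_idx {V : List Germ} (hV : V.Nodup) {u v : Germ} :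
    List.Sublist [u, v] V ↔ (u ∈ V ∧ v ∈ V) ∧ V.idxOf u < V.idxOf v := by
  rw [sublist_iff_idx hV]
  constructor
  · rintro ⟨h1, h2⟩
    simp only [List.pairwise_cons, List.mem_cons, List.not_mem_nil, or_false] at h2
    exact ⟨⟨h1 _ (by simp), h1 _ (by simp)⟩, h2.1 _ rfl⟩
  · rintro ⟨⟨a1, a2⟩, b1⟩
    refine ⟨?_, ?_⟩
    · intro x hx
      simp only [List.mem_cons, List.not_mem_nil, or_false] at hx
      rcases hx with rfl | rfl <;> assumption
    · simpa using b1

theorem idxOf_app_right {A B : List Germ} {x : Germ} (h : x ∉ A) :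
    (A ++ B).idxOf x = A.length + B.idxOf x := List.idxOf_append_of_notMem h

theorem idxOf_app_left {A B : List Germ} {x : Germ} (h : x ∈ A) :
    (A ++ B).idxOf x = A.idxOf x := List.idxOf_append_of_mem h

section
variable {V0 V3 V2 V1 V4 : List Germ} {p q : Germ}

/-- positions of `p`, `tau q`, `tau p`, `q` -/
theorem idx_pq (hV : (V0 ++ p :: (V3 ++ tau q :: (V2 ++ tau p :: (V1 ++ q :: V4)))).Nodup) :
    (V0 ++ p :: (V3 ++ tau q :: (V2 ++ tau p :: (V1 ++ q :: V4)))).idxOf p = V0.length ∧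
    (V0 ++ p :: (V3 ++ tau q :: (V2 ++ tau p :: (V1 ++ q :: V4)))).idxOf (tau q) =
      V0.length + V3.length + 1 ∧
    (V0 ++ p :: (V3 ++ tau q :: (V2 ++ tau p :: (V1 ++ q :: V4)))).idxOf (tau p) =
      V0.length + V3.length + V2.length + 2 ∧
    (V0 ++ p :: (V3 ++ tau q :: (V2 ++ tau p :: (V1 ++ q :: V4)))).idxOf q =
      V0.length + V3.length + V2.length + V1.length + 3 := by
  simp only [List.nodup_append, List.nodup_cons, List.mem_append, List.mem_cons, not_or] at hV
  obtain ⟨_, ⟨⟨hp3, hpq', hp2, hpp', hp1, hpq, hp4⟩, _, ⟨⟨hq2, hqp, hq1, hqq, hq4⟩, _,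
    ⟨⟨hp'1, hp'q, hp'4⟩, _, ⟨hq4', _⟩, g1⟩, g2⟩, g3⟩, g0⟩ := hV
  have e : ∀ {A B : List Germ} {x : Germ}, x ∉ A → (A ++ x :: B).idxOf x = A.length := by
    intro A B x hx
    rw [idxOf_app_right hx, List.idxOf_cons_self]; rfl
  refine ⟨?_, ?_, ?_, ?_⟩
  · rw [e (fun h => g0 p h p (by simp) rfl)]
  · rw [idxOf_app_right (fun h => g0 _ h (tau q) (by simp) rfl), List.idxOf_cons_ne _ hpq',
      e (fun h => g3 _ h (tau q) (by simp) rfl)]
    omega
  · rw [idxOf_app_right (fun h => g0 _ h (tau p) (by simp) rfl), List.idxOf_cons_ne _ hpp',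
      idxOf_app_right (fun h => g3 _ h (tau p) (by simp) rfl), List.idxOf_cons_ne _ hqp,
      e (fun h => g2 _ h (tau p) (by simp) rfl)]
    omega
  · rw [idxOf_app_right (fun h => g0 _ h q (by simp) rfl), List.idxOf_cons_ne _ hpq,
      idxOf_app_right (fun h => g3 _ h q (by simp) rfl), List.idxOf_cons_ne _ hqq,
      idxOf_app_right (fun h => g2 _ h q (by simp) rfl), List.idxOf_cons_ne _ hp'q,
      e (fun h => g1 _ h q (by simp) rfl)]
    omega

/-- positions of the elements of the sectors in `V` and in `Vbar` -/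
theorem idx_sector (hV : (V0 ++ p :: (V3 ++ tau q :: (V2 ++ tau p :: (V1 ++ q :: V4)))).Nodup)
    {x : Germ} (hx : x ∈ Vbar V0 V3 V2 V1 V4) : ∃ l,
    (x ∈ V0 ∧ sec V0 V3 V2 V1 x = 0 ∧ l < V0.length ∧
      (V0 ++ p :: (V3 ++ tau q :: (V2 ++ tau p :: (V1 ++ q :: V4)))).idxOf x = l ∧
      (Vbar V0 V3 V2 V1 V4).idxOf x = l) ∨
    (x ∈ V3 ∧ sec V0 V3 V2 V1 x = 3 ∧ l < V3.length ∧
      (V0 ++ p :: (V3 ++ tau q :: (V2 ++ tau p :: (V1 ++ q :: V4)))).idxOf x =
        V0.length + 1 + l ∧
      (Vbar V0 V3 V2 V1 V4).idxOf x = V0.length + V1.length + V2.length + l) ∨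
    (x ∈ V2 ∧ sec V0 V3 V2 V1 x = 2 ∧ l < V2.length ∧
      (V0 ++ p :: (V3 ++ tau q :: (V2 ++ tau p :: (V1 ++ q :: V4)))).idxOf x =
        V0.length + V3.length + 2 + l ∧
      (Vbar V0 V3 V2 V1 V4).idxOf x = V0.length + V1.length + l) ∨
    (x ∈ V1 ∧ sec V0 V3 V2 V1 x = 1 ∧ l < V1.length ∧
      (V0 ++ p :: (V3 ++ tau q :: (V2 ++ tau p :: (V1 ++ q :: V4)))).idxOf x =
        V0.length + V3.length + V2.length + 3 + l ∧
      (Vbar V0 V3 V2 V1 V4).idxOf x = V0.length + l) ∨
    (x ∈ V4 ∧ sec V0 V3 V2 V1 x = 4 ∧ l < V4.length ∧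
      (V0 ++ p :: (V3 ++ tau q :: (V2 ++ tau p :: (V1 ++ q :: V4)))).idxOf x =
        V0.length + V3.length + V2.length + V1.length + 4 + l ∧
      (Vbar V0 V3 V2 V1 V4).idxOf x =
        V0.length + V1.length + V2.length + V3.length + l) := by
  have hb := Vbar_nodup hV
  obtain ⟨s0, s1, s2, s3, s4⟩ := sec_eq hb
  have hmem := (mem_Vbar hV).1 hx
  simp only [List.nodup_append, List.nodup_cons, List.mem_append, List.mem_cons, not_or] at hV
  obtain ⟨_, ⟨⟨hp3, hpq', hp2, hpp', hp1, hpq, hp4⟩, _, ⟨⟨hq2, hqp, hq1, hqq, hq4⟩, _,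
    ⟨⟨hp'1, hp'q, hp'4⟩, _, ⟨hq4', _⟩, g1⟩, g2⟩, g3⟩, g0⟩ := hV
  have np : p ≠ x := fun e => hmem.2.1 (by rw [e])
  have np' : tau p ≠ x := fun e => hmem.2.1 (by rw [← e]; simp)
  have nq : q ≠ x := fun e => hmem.2.2 (by rw [e])
  have nq' : tau q ≠ x := fun e => hmem.2.2 (by rw [← e]; simp)
  unfold Vbar at hx ⊢
  simp only [List.mem_append] at hx
  rcases hx with hx | hx | hx | hx | hx
  · exact ⟨V0.idxOf x, Or.inl ⟨hx, s0 x hx, List.idxOf_lt_length_of_mem hx, idxOf_app_left hx,
      idxOf_app_left hx⟩⟩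
  · have n0 : x ∉ V0 := fun h => g0 _ h x (by simp [hx]) rfl
    have n3 : x ∉ V3 := fun h => g3 _ h x (by simp [hx]) rfl
    have n2 : x ∉ V2 := fun h => g2 _ h x (by simp [hx]) rfl
    refine ⟨V1.idxOf x, Or.inr (Or.inr (Or.inr (Or.inl ⟨hx, s1 x hx,
      List.idxOf_lt_length_of_mem hx, ?_, ?_⟩)))⟩
    · rw [idxOf_app_right n0, List.idxOf_cons_ne _ np, idxOf_app_right n3,
        List.idxOf_cons_ne _ nq', idxOf_app_right n2, List.idxOf_cons_ne _ np',
        idxOf_app_left hx]
      omega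
    · rw [idxOf_app_right n0, idxOf_app_left hx]
  · have n0 : x ∉ V0 := fun h => g0 _ h x (by simp [hx]) rfl
    have n3 : x ∉ V3 := fun h => g3 _ h x (by simp [hx]) rfl
    have n1 : x ∉ V1 := fun h => g2 _ hx x (by simp [h]) rfl
    refine ⟨V2.idxOf x, Or.inr (Or.inr (Or.inl ⟨hx, s2 x hx,
      List.idxOf_lt_length_of_mem hx, ?_, ?_⟩))⟩
    · rw [idxOf_app_right n0, List.idxOf_cons_ne _ np, idxOf_app_right n3,
        List.idxOf_cons_ne _ nq', idxOf_app_left hx]
      omega
    · rw [idxOf_app_right n0, idxOf_app_right n1, idxOf_app_left hx]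
      omega
  · have n0 : x ∉ V0 := fun h => g0 _ h x (by simp [hx]) rfl
    have n2 : x ∉ V2 := fun h => g3 _ hx x (by simp [h]) rfl
    have n1 : x ∉ V1 := fun h => g3 _ hx x (by simp [h]) rfl
    refine ⟨V3.idxOf x, Or.inr (Or.inl ⟨hx, s3 x hx,
      List.idxOf_lt_length_of_mem hx, ?_, ?_⟩)⟩
    · rw [idxOf_app_right n0, List.idxOf_cons_ne _ np, idxOf_app_left hx]
      omega
    · rw [idxOf_app_right n0, idxOf_app_right n1, idxOf_app_right n2, idxOf_app_left hx]
      omega
  · have n0 : x ∉ V0 := fun h => g0 _ h x (by simp [hx]) rfl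
    have n3 : x ∉ V3 := fun h => g3 _ h x (by simp [hx]) rfl
    have n2 : x ∉ V2 := fun h => g2 _ h x (by simp [hx]) rfl
    have n1 : x ∉ V1 := fun h => g1 _ h x (by simp [hx]) rfl
    refine ⟨V4.idxOf x, Or.inr (Or.inr (Or.inr (Or.inr ⟨hx, s4 x hx,
      List.idxOf_lt_length_of_mem hx, ?_, ?_⟩)))⟩
    · rw [idxOf_app_right n0, List.idxOf_cons_ne _ np, idxOf_app_right n3,
        List.idxOf_cons_ne _ nq', idxOf_app_right n2, List.idxOf_cons_ne _ np',
        idxOf_app_right n1, List.idxOf_cons_ne _ nq]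
      omega
    · rw [idxOf_app_right n0, idxOf_app_right n1, idxOf_app_right n2, idxOf_app_right n3]
      omega

end

end Pool.Agent.Torelli
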