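import Pool.Agent.Torelli.AB.Order

/-!
# Torelli project, part AB8: propagation of goodness, normalised context
-/

set_option autoImplicit false

namespace Pool.Agent.Torelli

/-- Statement of AB6(i): every label is linked with another label. -/
def AB6i : Prop := ∀ (V : List Germ) (X : ℕ → F) (h : Germ → F) (z : F), Mk V X h z →
  ∀ u, List.Sublist [u, tau u] V → ∃ v, NL V u v ∨ NL V v (tau u)

theorem Xs_map (θ : MulAut F) (X : ℕ → F) (u : Germ) :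
    Xs (fun n => θ (X n)) u = θ (Xs X u) := by
  rcases u with ⟨l, x⟩
  cases x <;> simp

theorem Path_map (θ : MulAut F) (X : ℕ → F) (h : Germ → F) (V : List Germ) : ∀ {x y : F},
    Path X h x V y → Path (fun n => θ (X n)) (fun u => θ (h u)) (θ x) V (θ y) := by
  induction V with
  | nil => intro x y hp; rw [Path_nil] at hp ⊢; rw [hp]
  | cons u V ih =>
    intro x y hp
    rw [Path_cons] at hp ⊢
    refine ⟨by rw [hp.1], ?_⟩
    rw [Xs_map, ← map_mul]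
    exact ih hp.2

theorem Mk.map {V : List Germ} {X : ℕ → F} {h : Germ → F} {z : F} (hM : Mk V X h z)
    (θ : MulAut F) : Mk V (fun n => θ (X n)) (fun u => θ (h u)) (θ z) := by
  refine ⟨hM.nodup, hM.closed, ?_, ?_⟩
  · have := Path_map θ X h V hM.path
    rwa [map_one] at this
  · intro u hu
    obtain ⟨φ, h1, h2⟩ := hM.dual u hu
    refine ⟨φ.comp (θ⁻¹).toMonoidHom, ?_, ?_⟩
    · rw [Xs_map, MonoidHom.comp_apply]
      have : (θ⁻¹).toMonoidHom (θ (Xs X u)) = Xs X u := MulAut.inv_apply_self _ θ _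
      rw [this, h1]
    · intro v hv hne
      rw [Xs_map, MonoidHom.comp_apply]
      have : (θ⁻¹).toMonoidHom (θ (Xs X v)) = Xs X v := MulAut.inv_apply_self _ θ _
      rw [this, h2 v hv hne]

theorem Good.unmap {s g : ℕ} {X : ℕ → F} {u v : Germ} {θ : MulAut F} (hθ : θ ∈ M s g)
    (hG : Good s g (fun n => θ⁻¹ (X n)) u v) : Good s g X u v := by
  obtain ⟨η, hη, h1, h2⟩ := hG
  refine ⟨θ * η, (M s g).mul_mem hθ hη, ?_, ?_⟩
  · rw [MulAut.mul_apply, h1, Xs_map, MulAut.apply_inv_self]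
  · rw [MulAut.mul_apply, h2, Xs_map, MulAut.apply_inv_self]

/-- The normalised context. -/
structure Nor (s g : ℕ) (V0 V3 V2 V1 V4 : List Germ) (p q : Germ) (X : ℕ → F) (h : Germ → F) :
    Prop where
  mkg : Mk (V0 ++ p :: (V3 ++ tau q :: (V2 ++ tau p :: (V1 ++ q :: V4)))) X h (zeta s (g + 1))
  len : (V0 ++ p :: (V3 ++ tau q :: (V2 ++ tau p :: (V1 ++ q :: V4)))).length = 4 * (g + 1)
  hp : Xs X p = a s
  hq : Xs X q = b s

section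
variable {s g : ℕ} {V0 V3 V2 V1 V4 : List Germ} {p q : Germ} {X : ℕ → F} {h : Germ → F}

theorem Nor.bar (hN : Nor s g V0 V3 V2 V1 V4 p q X h) :
    Mk (Vbar V0 V3 V2 V1 V4) (Xbar s V0 V3 V2 V1 X) (hbar s V0 V3 V2 V1 h) (zeta (s + 1) g) := by
  have h1 := hN.mkg
  rw [zeta_succ'] at h1
  exact h1.bar hN.hp hN.hq

theorem Nor.lenbar (hN : Nor s g V0 V3 V2 V1 V4 p q X h) :
    (Vbar V0 V3 V2 V1 V4).length = 4 * g := by
  have h1 := (perm_Vbar (V0 := V0) (V3 := V3) (V2 := V2) (V1 := V1) (V4 := V4) (p := p)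
    (q := q)).length_eq
  rw [hN.len] at h1
  simp only [List.length_cons] at h1
  omega

theorem Nor.g_pos (hN : Nor s g V0 V3 V2 V1 V4 p q X h) {z : Germ}
    (hz : z ∈ Vbar V0 V3 V2 V1 V4) : 1 ≤ g := by
  have h1 := hN.lenbar
  have h2 := List.length_pos_of_mem hz
  omega

theorem fix_a {γ : MulAut F} (hγ : γ ∈ M (s + 1) g) : γ (a s) = a s := M_fix_a hγ (by omega)
theorem fix_b {γ : MulAut F} (hγ : γ ∈ M (s + 1) g) : γ (b s) = b s := M_fix_b hγ (by omega)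
theorem fix_H {γ : MulAut F} (hγ : γ ∈ M (s + 1) g) : γ (H s) = H s := M_fix_H hγ (by omega)
theorem fix_c {γ : MulAut F} (hγ : γ ∈ M (s + 1) g) (i : ℕ) : γ (cS s i) = cS s i := by
  unfold cS
  split <;> simp [fix_a hγ, fix_b hγ, fix_H hγ]

/-- every label of `Vbar` is an image of `a_{s+1}` -/
theorem Nor.zbar (hN : Nor s g V0 V3 V2 V1 V4 p q X h) (hAB : ABg g) (h6 : AB6i) {z : Germ}
    (hz : List.Sublist [z, tau z] (Vbar V0 V3 V2 V1 V4)) : ∃ γ ∈ M (s + 1) g,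
    Xs X z = γ (zS s (sec V0 V3 V2 V1 z) (sec V0 V3 V2 V1 (tau z))) := by
  have hmem : z ∈ Vbar V0 V3 V2 V1 V4 := hz.subset (by simp)
  have hg := hN.g_pos hmem
  have key : ∃ γ ∈ M (s + 1) g, γ (a (s + 1)) = Xs (Xbar s V0 V3 V2 V1 X) z := by
    obtain ⟨v, hv | hv⟩ := h6 _ _ _ _ hN.bar z hz
    · obtain ⟨θ, h1, h2, h3⟩ := hAB _ _ _ _ hN.lenbar hN.bar _ _ hv
      exact ⟨θ, h1, h2⟩
    · obtain ⟨θ, h1, h2, h3⟩ := hAB _ _ _ _ hN.lenbar hN.bar _ _ hv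
      refine ⟨θ * w (s + 1), (M _ _).mul_mem h1 (w_mem_M le_rfl (by omega)), ?_⟩
      rw [MulAut.mul_apply, w_a, map_inv, h3, Xs_tau, inv_inv]
  obtain ⟨γ, h1, h2⟩ := key
  refine ⟨γ, h1, ?_⟩
  rw [Xs_of_Xbar s V0 V3 V2 V1 X z, ← h2, zS]
  simp only [map_mul, map_inv, fix_c h1, fix_H h1]

theorem good_TG {γ : MulAut F} (hγ : γ ∈ M (s + 1) g) (hg : 1 ≤ g) {x y : F} (hT : TG s x y)
    {r t : Germ} (hr : Xs X r = γ x) (ht : Xs X t = γ y) : Good s (g + 1) X r t := by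
  obtain ⟨θ, h1, h2, h3⟩ := hT
  refine ⟨γ * θ, (M _ _).mul_mem (M_mono (by omega) (by omega) hγ)
    (M_mono le_rfl (by omega) h1), ?_, ?_⟩
  · rw [MulAut.mul_apply, h2, hr]
  · rw [MulAut.mul_apply, h3, ht]

/-- The oriented germ of a label of `Vbar`. -/
theorem sub_of_sec_lt (hN : Nor s g V0 V3 V2 V1 V4 p q X h) {z : Germ}
    (hz : z ∈ Vbar V0 V3 V2 V1 V4) (hlt : sec V0 V3 V2 V1 z < sec V0 V3 V2 V1 (tau z)) :
    List.Sublist [z, tau z] (Vbar V0 V3 V2 V1 V4) := by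
  have hz' := hN.bar.closed z hz
  rw [sub2_iff_idx (Vbar_nodup hN.mkg.nodup)]
  refine ⟨⟨hz, hz'⟩, ?_⟩
  obtain ⟨l, hl⟩ := idx_sector hN.mkg.nodup hz
  obtain ⟨l', hl'⟩ := idx_sector hN.mkg.nodup hz'
  rcases hl with ⟨-, e1, b1, -, d1⟩ | ⟨-, e1, b1, -, d1⟩ | ⟨-, e1, b1, -, d1⟩ |
      ⟨-, e1, b1, -, d1⟩ | ⟨-, e1, b1, -, d1⟩ <;>
    rcases hl' with ⟨-, e2, b2, -, d2⟩ | ⟨-, e2, b2, -, d2⟩ | ⟨-, e2, b2, -, d2⟩ |
      ⟨-, e2, b2, -, d2⟩ | ⟨-, e2, b2, -, d2⟩ <;>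
    rw [e1, e2] at hlt <;> rw [d1, d2] <;> omega

/-- pairs sharing the label of `p` -/
theorem Nor.share_p (hN : Nor s g V0 V3 V2 V1 V4 p q X h) (hAB : ABg g) (h6 : AB6i) {z : Germ}
    (hz : z ∈ Vbar V0 V3 V2 V1 V4) (hlt : sec V0 V3 V2 V1 z ≤ sec V0 V3 V2 V1 (tau z))
    {r t : Germ}
    (hNL : NL (V0 ++ p :: (V3 ++ tau q :: (V2 ++ tau p :: (V1 ++ q :: V4)))) r t)
    (hrt : (r.1 = z.1 ∧ t.1 = p.1) ∨ (r.1 = p.1 ∧ t.1 = z.1)) : Good s (g + 1) X r t := by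
  have hg := hN.g_pos hz
  have hz' := hN.bar.closed z hz
  have hγ : sec V0 V3 V2 V1 z < sec V0 V3 V2 V1 (tau z) → ∃ γ ∈ M (s + 1) g,
      Xs X z = γ (zS s (sec V0 V3 V2 V1 z) (sec V0 V3 V2 V1 (tau z))) :=
    fun hl => hN.zbar hAB h6 (sub_of_sec_lt hN hz hl)
  obtain ⟨-, i1, i2, i3⟩ := (nl_iff_pos hN.mkg.nodup).1 hNL
  obtain ⟨q1, q2, q3, q4⟩ := idx_pq hN.mkg.nodup
  obtain ⟨l, hl⟩ := idx_sector hN.mkg.nodup hz
  obtain ⟨l', hl'⟩ := idx_sector hN.mkg.nodup hz'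
  have hp := hN.hp
  generalize (V0 ++ p :: (V3 ++ tau q :: (V2 ++ tau p :: (V1 ++ q :: V4)))) = V at *
  rcases hl with ⟨-, e1, b1, c1, -⟩ | ⟨-, e1, b1, c1, -⟩ | ⟨-, e1, b1, c1, -⟩ |
      ⟨-, e1, b1, c1, -⟩ | ⟨-, e1, b1, c1, -⟩ <;>
    rcases hl' with ⟨-, e2, b2, c2, -⟩ | ⟨-, e2, b2, c2, -⟩ | ⟨-, e2, b2, c2, -⟩ |
      ⟨-, e2, b2, c2, -⟩ | ⟨-, e2, b2, c2, -⟩ <;>
    rw [e1, e2] at hlt hγ <;> first | (exfalso; omega) | skip
  all_goals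
    rcases hrt with ⟨h1, h2⟩ | ⟨h1, h2⟩ <;>
    rcases eq_or_eq_tau h1 with rfl | rfl <;> rcases eq_or_eq_tau h2 with rfl | rfl <;>
    (try simp only [tau_tau] at i1 i2 i3) <;> first | (exfalso; omega) | skip
  all_goals
    obtain ⟨γ, g1, g2⟩ := hγ (by omega)
    have ga := fix_a g1
  all_goals
    first
    | (refine good_TG g1 hg (tab02p s) ?_ ?_; { exact g2 }; { rw [Xs_tau, hp, map_inv, ga] })
    | (refine good_TG g1 hg (tab03p s) ?_ ?_; { exact g2 }; { rw [Xs_tau, hp, map_inv, ga] })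
    | (refine good_TG g1 hg (tab12p s) ?_ ?_; { rw [hp, ga] }; { exact g2 })
    | (refine good_TG g1 hg (tab13p s) ?_ ?_; { rw [hp, ga] }; { exact g2 })
    | (refine good_TG g1 hg (tab24p s) ?_ ?_; { rw [hp, ga] }; { rw [Xs_tau, g2, map_inv] })
    | (refine good_TG g1 hg (tab34p s) ?_ ?_; { rw [hp, ga] }; { rw [Xs_tau, g2, map_inv] })

/-- pairs sharing the label of `q` -/
theorem Nor.share_q (hN : Nor s g V0 V3 V2 V1 V4 p q X h) (hAB : ABg g) (h6 : AB6i) {z : Germ}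
    (hz : z ∈ Vbar V0 V3 V2 V1 V4) (hlt : sec V0 V3 V2 V1 z ≤ sec V0 V3 V2 V1 (tau z))
    {r t : Germ}
    (hNL : NL (V0 ++ p :: (V3 ++ tau q :: (V2 ++ tau p :: (V1 ++ q :: V4)))) r t)
    (hrt : (r.1 = z.1 ∧ t.1 = q.1) ∨ (r.1 = q.1 ∧ t.1 = z.1)) : Good s (g + 1) X r t := by
  have hg := hN.g_pos hz
  have hz' := hN.bar.closed z hz
  have hγ : sec V0 V3 V2 V1 z < sec V0 V3 V2 V1 (tau z) → ∃ γ ∈ M (s + 1) g,
      Xs X z = γ (zS s (sec V0 V3 V2 V1 z) (sec V0 V3 V2 V1 (tau z))) :=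
    fun hl => hN.zbar hAB h6 (sub_of_sec_lt hN hz hl)
  obtain ⟨-, i1, i2, i3⟩ := (nl_iff_pos hN.mkg.nodup).1 hNL
  obtain ⟨q1, q2, q3, q4⟩ := idx_pq hN.mkg.nodup
  obtain ⟨l, hl⟩ := idx_sector hN.mkg.nodup hz
  obtain ⟨l', hl'⟩ := idx_sector hN.mkg.nodup hz'
  have hq := hN.hq
  generalize (V0 ++ p :: (V3 ++ tau q :: (V2 ++ tau p :: (V1 ++ q :: V4)))) = V at *
  rcases hl with ⟨-, e1, b1, c1, -⟩ | ⟨-, e1, b1, c1, -⟩ | ⟨-, e1, b1, c1, -⟩ |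
      ⟨-, e1, b1, c1, -⟩ | ⟨-, e1, b1, c1, -⟩ <;>
    rcases hl' with ⟨-, e2, b2, c2, -⟩ | ⟨-, e2, b2, c2, -⟩ | ⟨-, e2, b2, c2, -⟩ |
      ⟨-, e2, b2, c2, -⟩ | ⟨-, e2, b2, c2, -⟩ <;>
    rw [e1, e2] at hlt hγ <;> first | (exfalso; omega) | skip
  all_goals
    rcases hrt with ⟨h1, h2⟩ | ⟨h1, h2⟩ <;>
    rcases eq_or_eq_tau h1 with rfl | rfl <;> rcases eq_or_eq_tau h2 with rfl | rfl <;>
    (try simp only [tau_tau] at i1 i2 i3) <;> first | (exfalso; omega) | skip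
  all_goals
    obtain ⟨γ, g1, g2⟩ := hγ (by omega)
    have gb := fix_b g1
  all_goals
    first
    | (refine good_TG g1 hg (tab01q s) ?_ ?_; { exact g2 }; { rw [hq, gb] })
    | (refine good_TG g1 hg (tab02q s) ?_ ?_; { exact g2 }; { rw [hq, gb] })
    | (refine good_TG g1 hg (tab13q s) ?_ ?_; { rw [Xs_tau, g2, map_inv] }; { rw [hq, gb] })
    | (refine good_TG g1 hg (tab23q s) ?_ ?_; { rw [Xs_tau, g2, map_inv] }; { rw [hq, gb] })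
    | (refine good_TG g1 hg (tab14q s) ?_ ?_; { rw [Xs_tau, hq, map_inv, gb] }; { rw [Xs_tau, g2, map_inv] })
    | (refine good_TG g1 hg (tab24q s) ?_ ?_; { rw [Xs_tau, hq, map_inv, gb] }; { rw [Xs_tau, g2, map_inv] })

end

end Pool.Agent.Torelli
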