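import Pool.Agent.Torelli.AB.Words4

/-!
# Torelli project, part AB4: Nielsen reduced chains
-/

set_option autoImplicit false

namespace Pool.Agent.Torelli

open FreeGroup

theorem ctr_lt (B : ℕ) {w : Wd} (h : w ≠ []) : ctr B w < w.length := by
  have h1 : 0 < w.length := List.length_pos_iff.2 h
  unfold ctr
  split_ifs <;> omega

theorem split_at {w : Wd} {c : ℕ} (h : c < w.length) :
    w = w.take c ++ w.getD c (0, true) :: w.drop (c + 1) := by
  conv_lhs => rw [← List.take_append_drop c w, List.drop_eq_getElem_cons h]
  rw [List.getD_eq_getElem _ _ h]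

theorem toWord_split (B : ℕ) {x : F} (hx : x ≠ 1) :
    x.toWord = pre B x ++ ctl B x :: post B x :=
  split_at (ctr_lt B (by rwa [Ne, toWord_eq_nil_iff]))

theorem nil_of_reduced {r : Wd} (h : IsReduced (invRev r ++ r)) : r = [] := by
  have h1 := h.reduce_eq
  rw [reduce_invRev_left_cancel] at h1
  exact (List.append_eq_nil_iff.1 h1.symm).2

theorem invRev_mem_cd {B : ℕ} {w : Wd} (h : ∀ p ∈ w, cd p < 2 * B) :
    ∀ p ∈ invRev w, cd p < 2 * B := by
  intro p hp
  simp only [invRev, List.mem_reverse, List.mem_map] at hp
  obtain ⟨q, hq, rfl⟩ := hp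
  have := h q hq
  unfold cd at this ⊢
  rcases q with ⟨q1, q2⟩
  cases q2 <;> simp at this ⊢ <;> omega

theorem invRev_take_drop (w : Wd) (k : ℕ) (h : k ≤ w.length) :
    (invRev w).take k = invRev (w.drop (w.length - k)) ∧
      (invRev w).drop k = invRev (w.take (w.length - k)) := by
  have h1 : invRev w = invRev (w.drop (w.length - k)) ++ invRev (w.take (w.length - k)) := by
    rw [← invRev_append, List.take_append_drop]
  have h2 : (invRev (w.drop (w.length - k))).length = k := by
    rw [invRev_length, List.length_drop]; omega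
  constructor
  · rw [h1, List.take_append_of_le_length (by omega), List.take_of_length_le (by omega)]
  · rw [h1, List.drop_append_of_le_length (by omega), List.drop_of_length_le (by omega)]
    simp

theorem ctr_inv (B : ℕ) {w : Wd} (hr : IsReduced w) (hB : ∀ p ∈ w, cd p < 2 * B) (h : w ≠ []) :
    ctr B (invRev w) = w.length - 1 - ctr B w := by
  have h0 : 0 < w.length := List.length_pos_iff.2 h
  unfold ctr
  rw [invRev_length]
  by_cases hodd : w.length % 2 = 1
  · rw [if_pos hodd, if_pos hodd]
    omega
  · rw [if_neg hodd, if_neg hodd]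
    set k := w.length / 2 with hk
    have hk2 : w.length = 2 * k := by omega
    have e := invRev_take_drop w k (by omega)
    have hkk : w.length - k = k := by omega
    rw [hkk] at e
    rw [e.1, e.2, invRev_invRev]
    have hne : enc (2 * B) (w.take k) ≠ enc (2 * B) (invRev (w.drop k)) := by
      intro he
      have h1 := enc_inj (B := 2 * B) (u := w.take k) (v := invRev (w.drop k))
        (fun p hp => hB p (List.mem_of_mem_take hp))
        (invRev_mem_cd fun p hp => hB p (List.mem_of_mem_drop hp))
        (by rw [invRev_length, List.length_take, List.length_drop]; omega) he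
      have h2 : w = invRev (w.drop k) ++ w.drop k := by
        conv_lhs => rw [← List.take_append_drop k w, h1]
      rw [h2] at hr
      have h3 := nil_of_reduced hr
      have h4 := congrArg List.length h3
      rw [List.length_drop, List.length_nil] at h4
      omega
    rcases Nat.lt_or_gt_of_ne hne with h1 | h1
    · rw [if_neg (by omega), if_pos h1]
      omega
    · rw [if_pos h1, if_neg (by omega)]
      omega

theorem inv_parts (B : ℕ) {x : F} (hK : x ∈ KB_ B) (hx : x ≠ 1) :
    pre B x⁻¹ = invRev (post B x) ∧ ctl B x⁻¹ = ((ctl B x).1, !(ctl B x).2) ∧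
      post B x⁻¹ = invRev (pre B x) := by
  have hx' : x⁻¹ ≠ 1 := by rwa [Ne, inv_eq_one]
  have h1 := toWord_split B hx
  have h2 := toWord_split B hx'
  have hw : x.toWord ≠ [] := by rwa [Ne, toWord_eq_nil_iff]
  have hc := ctr_inv B (isReduced_toWord (x := x)) hK hw
  have hlt := ctr_lt B hw
  have h3 : x⁻¹.toWord = invRev (post B x) ++ ((ctl B x).1, !(ctl B x).2) :: invRev (pre B x) := by
    rw [toWord_inv]
    conv_lhs => rw [h1]
    rw [invRev_append]
    simp [invRev]
  have hlen : (pre B x⁻¹).length = (invRev (post B x)).length := by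
    rw [invRev_length]
    unfold pre post
    rw [List.length_take, List.length_drop, toWord_inv, invRev_length, hc]
    omega
  have h4 := List.append_inj (h2.symm.trans h3) hlen
  exact ⟨h4.1, (List.cons.inj h4.2).1, (List.cons.inj h4.2).2⟩

theorem pre_inv (B : ℕ) {x : F} (hK : x ∈ KB_ B) (hx : x ≠ 1) :
    pre B x⁻¹ = invRev (post B x) := (inv_parts B hK hx).1

theorem ctl_inv (B : ℕ) {x : F} (hK : x ∈ KB_ B) (hx : x ≠ 1) :
    ctl B x⁻¹ = ((ctl B x).1, !(ctl B x).2) := (inv_parts B hK hx).2.1

theorem post_inv (B : ℕ) {x : F} (hK : x ∈ KB_ B) (hx : x ≠ 1) :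
    post B x⁻¹ = invRev (pre B x) := (inv_parts B hK hx).2.2

/-! ## Consequences of minimality -/

/-- the prefix of length `a` may be cancelled -/
def OKL (B : ℕ) (w : Wd) (a : ℕ) : Prop :=
  2 * a ≤ w.length ∧
    (2 * a = w.length → enc (2 * B) (w.take a) < enc (2 * B) (invRev (w.drop a)))

/-- the suffix of length `c` may be cancelled -/
def OKR (B : ℕ) (w : Wd) (c : ℕ) : Prop :=
  2 * c ≤ w.length ∧
    (2 * c = w.length → enc (2 * B) (invRev (w.drop c)) < enc (2 * B) (w.take c))

theorem ok_lt {B : ℕ} {w : Wd} {a c : ℕ} (h1 : OKL B w a) (h2 : OKR B w c) :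
    a + c < w.length := by
  rcases Nat.lt_or_ge (a + c) w.length with h | h
  · exact h
  · exfalso
    have h3 := h1.1
    have h4 := h2.1
    have ha : a = c := by omega
    subst ha
    have h5 := h1.2 (by omega)
    have h6 := h2.2 (by omega)
    omega

theorem ok_ctr {B : ℕ} {w : Wd} {a c : ℕ} (h1 : OKL B w a) (h2 : OKR B w c)
    (h : a + c + 1 = w.length) : a = ctr B w := by
  have h3 := h1.1
  have h4 := h2.1
  unfold ctr
  by_cases hodd : w.length % 2 = 1
  · rw [if_pos hodd]
    omega
  · rw [if_neg hodd]
    by_cases hak : 2 * a = w.length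
    · have h5 := h1.2 hak
      have h6 : w.length / 2 = a := by omega
      rw [h6, if_pos h5]
    · have h5 : 2 * c = w.length := by omega
      have h6 := h2.2 h5
      have h7 : w.length / 2 = c := by omega
      rw [h7, if_neg (by omega)]
      omega

/-- Value of the left half when the prefix is at most half. -/
theorem lh_append {u v : Wd} (h : u.length ≤ v.length) :
    lh (u ++ v) = u ++ v.take ((u.length + v.length + 1) / 2 - u.length) := by
  unfold lh
  rw [List.length_append, List.take_append, List.take_of_length_le (by omega)]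

theorem lh_append_left {u v : Wd} (h : v.length ≤ u.length) :
    lh (u ++ v) = u.take ((u.length + v.length + 1) / 2) := by
  unfold lh
  rw [List.length_append, List.take_append_of_le_length (by omega)]

theorem enc_cmp {B : ℕ} (hB : 0 < B) {u v t : Wd} (h : enc B (v ++ t) ≥ enc B (u ++ t)) :
    enc B u ≤ enc B v := by
  rw [enc_append, enc_append] at h
  have h1 : enc B u * B ^ t.length ≤ enc B v * B ^ t.length := by omega
  exact Nat.le_of_mul_le_mul_right h1 (by positivity)

/-- **Consequences of `MP`.** -/
theorem mp_ok {B : ℕ} {x y : F} (hx : x ∈ KB_ B) (hy : y ∈ KB_ B) (hx1 : x ≠ 1) (hy1 : y ≠ 1)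
    (hm : MP B x y) {α γ β : Wd} (h1 : x.toWord = α ++ γ) (h2 : y.toWord = invRev γ ++ β)
    (h3 : (x * y).toWord = α ++ β) : OKR B x.toWord γ.length ∧ OKL B y.toWord γ.length := by
  obtain ⟨m1, m2⟩ := hm
  rw [mem_KB] at hx hy
  have hB : 0 < 2 * B := by
    rcases hw : x.toWord with _ | ⟨p, w⟩
    · exact absurd (toWord_eq_nil_iff.1 hw) hx1
    · have := hx p (by rw [hw]; simp)
      omega
  have n1 : FreeGroup.norm x = α.length + γ.length := by
    rw [FreeGroup.norm, h1, List.length_append]
  have n2 : FreeGroup.norm y = γ.length + β.length := by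
    rw [FreeGroup.norm, h2, List.length_append, invRev_length]
  have n3 : FreeGroup.norm (x * y) = α.length + β.length := by
    rw [FreeGroup.norm, h3, List.length_append]
  rw [n1, n3] at m1
  rw [n2, n3] at m2
  push Not at m1 m2
  have c1 : γ.length ≤ β.length := by omega
  have c2 : γ.length ≤ α.length := by omega
  have cγ : ∀ p ∈ γ, cd p < 2 * B := fun p hp => hx p (by rw [h1]; simp [hp])
  have cγ' := invRev_mem_cd cγ
  have cα : ∀ p ∈ α, cd p < 2 * B := fun p hp => hx p (by rw [h1]; simp [hp])
  have cβ : ∀ p ∈ β, cd p < 2 * B := fun p hp => hy p (by rw [h2]; simp [hp])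
  have cβ' := invRev_mem_cd cβ
  have lγ : (invRev γ).length = γ.length := invRev_length
  have lβ : (invRev β).length = β.length := invRev_length
  have lα : (invRev α).length = α.length := invRev_length
  constructor
  · -- OKR
    refine ⟨by rw [h1, List.length_append]; omega, ?_⟩
    intro he
    rw [h1, List.length_append] at he
    have hαγ : α.length = γ.length := by omega
    rw [h1, List.drop_append_of_le_length (by omega), List.drop_of_length_le (by omega),
      List.nil_append, List.take_append_of_le_length (by omega), List.take_of_length_le (by omega)]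
    have h4 := m2.2 (by omega)
    unfold mu2 at h4
    rw [h3, h2, invRev_append, invRev_append, invRev_invRev] at h4
    rw [lh_append (u := invRev γ) (by omega), lh_append_left (u := invRev β) (v := γ) (by omega),
      lh_append (u := α) (by omega), lh_append_left (u := invRev β) (v := invRev α) (by omega)] at h4
    rw [lγ, lβ, lα, hαγ] at h4
    have h5 : enc (2 * B) (invRev γ) ≤ enc (2 * B) α := by
      refine enc_cmp hB (t := β.take ((γ.length + β.length + 1) / 2 - γ.length)) ?_
      omega
    rcases Nat.lt_or_ge (enc (2 * B) (invRev γ)) (enc (2 * B) α) with h6 | h6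
    · exact h6
    · exfalso
      have h7 := enc_inj cγ' cα (by rw [invRev_length]; omega) (by omega)
      have h8 := isReduced_toWord (x := x)
      rw [h1, ← h7] at h8
      have h9 := nil_of_reduced h8
      apply hx1
      rw [← toWord_eq_nil_iff, h1, ← h7, h9]
      simp
  · -- OKL
    refine ⟨by rw [h2, List.length_append, invRev_length]; omega, ?_⟩
    intro he
    rw [h2, List.length_append, invRev_length] at he
    have hβγ : β.length = γ.length := by omega
    rw [h2, List.drop_append_of_le_length (by omega), List.drop_of_length_le (by omega),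
      List.nil_append, List.take_append_of_le_length (by omega), List.take_of_length_le (by omega)]
    have h4 := m1.2 (by omega)
    unfold mu2 at h4
    rw [h3, h1, invRev_append, invRev_append] at h4
    rw [lh_append_left (u := α) (v := γ) (by omega), lh_append (u := invRev γ) (by omega),
      lh_append_left (u := α) (v := β) (by omega), lh_append (u := invRev β) (by omega)] at h4
    rw [lγ, lβ, lα, hβγ] at h4
    have h5 : enc (2 * B) (invRev γ) ≤ enc (2 * B) (invRev β) := by
      refine enc_cmp hB
        (t := (invRev α).take ((γ.length + α.length + 1) / 2 - γ.length)) ?_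
      omega
    rcases Nat.lt_or_ge (enc (2 * B) (invRev γ)) (enc (2 * B) (invRev β)) with h6 | h6
    · exact h6
    · exfalso
      have h7 := enc_inj cγ' cβ' (by rw [invRev_length, invRev_length]; omega) (by omega)
      have h8 := isReduced_toWord (x := y)
      have h9 : γ = β := by rw [← invRev_invRev (L₁ := γ), h7, invRev_invRev]
      rw [h2, ← h9] at h8
      have h10 := nil_of_reduced h8
      apply hy1
      rw [← toWord_eq_nil_iff, h2, ← h9, h10]
      simp

theorem okl_zero (B : ℕ) {w : Wd} (h : w ≠ []) : OKL B w 0 := by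
  have h0 : 0 < w.length := List.length_pos_iff.2 h
  exact ⟨by omega, by omega⟩

theorem okr_zero (B : ℕ) {w : Wd} (h : w ≠ []) : OKR B w 0 := by
  have h0 : 0 < w.length := List.length_pos_iff.2 h
  exact ⟨by omega, by omega⟩

/-- the letter at the centre, given a decomposition -/
theorem parts_of {B : ℕ} {x : F} {p s : Wd} {l : ℕ × Bool} (h : x.toWord = p ++ l :: s)
    (hc : p.length = ctr B x.toWord) : pre B x = p ∧ ctl B x = l ∧ post B x = s := by
  have hx : x ≠ 1 := by
    intro hx
    rw [hx, toWord_one] at h
    simp at h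
  have h1 := toWord_split B hx
  have hw : x.toWord ≠ [] := by rwa [Ne, toWord_eq_nil_iff]
  have hlt := ctr_lt B hw
  have hl : (pre B x).length = p.length := by
    unfold pre
    rw [List.length_take]
    omega
  have h2 := List.append_inj (h1.symm.trans h) hl
  exact ⟨h2.1, (List.cons.inj h2.2).1, (List.cons.inj h2.2).2⟩

theorem red_main (B : ℕ) (Y : List F) : ∀ (y : F) (p s : Wd), (∀ v ∈ y :: Y, v ∈ KB_ B) →
    (∀ v ∈ y :: Y, v ≠ 1) → (y :: Y).IsChain (fun x y => x * y ≠ 1 ∧ MP B x y) →
    y.toWord = p ++ s → OKL B y.toWord p.length →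
    ∃ D : Wd, IsReduced D ∧ FreeGroup.mk D = (FreeGroup.mk p)⁻¹ * (y * Y.prod) ∧
      s ≠ [] ∧ D.head? = s.head? ∧ Y.length + 1 ≤ D.length ∧
      (D.length = Y.length + 1 → p = pre B y ∧
        (y :: Y).IsChain (fun u v => post B u = invRev (pre B v)) ∧
        (∀ v, (y :: Y).getLast? = some v → post B v = []) ∧ D = (y :: Y).map (ctl B)) := by
  induction Y with
  | nil =>
    intro y p s hK h1 _ hw hL
    have hy1 : y ≠ 1 := h1 y (by simp)
    have hyw : y.toWord ≠ [] := by rwa [Ne, toWord_eq_nil_iff]
    have hR := okr_zero B hyw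
    have hlt := ok_lt hL hR
    have hlen : y.toWord.length = p.length + s.length := by rw [hw, List.length_append]
    have hs : s ≠ [] := by
      intro hs
      rw [hs, List.length_nil] at hlen
      omega
    refine ⟨s, ?_, ?_, hs, rfl, ?_, ?_⟩
    · have := isReduced_toWord (x := y)
      rw [hw] at this
      exact isReduced_right this
    · rw [List.prod_nil, mul_one, ← mk_toWord (x := y), hw, mk_append]
      group
    · have := List.length_pos_iff.2 hs
      simp
      omega
    · intro hl
      rw [List.length_nil, zero_add] at hl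
      obtain ⟨l, rfl⟩ := List.length_eq_one_iff.1 hl
      have hc := ok_ctr hL hR (by rw [hlen]; simp)
      have hp := parts_of hw hc
      refine ⟨hp.1.symm, by simp, ?_, by simp [hp.2.1]⟩
      intro v hv
      simp at hv
      subst hv
      exact hp.2.2
  | cons y' Y ih =>
    intro y p s hK h1 hch hw hL
    have hy1 : y ≠ 1 := h1 y (by simp)
    have hy1' : y' ≠ 1 := h1 y' (by simp)
    have hyw : y.toWord ≠ [] := by rwa [Ne, toWord_eq_nil_iff]
    rw [List.isChain_cons_cons] at hch
    obtain ⟨α, γ, β, e1, e2, e3⟩ := cancel y y'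
    have hok := mp_ok (hK y (by simp)) (hK y' (by simp)) hy1 hy1' hch.1.2 e1 e2 e3
    have hlt := ok_lt hL hok.1
    have hlen : y.toWord.length = p.length + s.length := by rw [hw, List.length_append]
    have hlen2 : y.toWord.length = α.length + γ.length := by rw [e1, List.length_append]
    -- split α = p ++ μ
    obtain ⟨μ, hμ1, hμ2⟩ : ∃ μ, α = p ++ μ ∧ s = μ ++ γ := by
      rcases List.append_eq_append_iff.1 (hw.symm.trans e1) with ⟨c, h3, h4⟩ | ⟨c, h3, h4⟩
      · exact ⟨c, h3, h4⟩
      · exfalso
        have := congrArg List.length h3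
        rw [List.length_append] at this
        have hc0 : c.length = 0 := by omega
        omega
    have hlα : α.length = p.length + μ.length := by rw [hμ1, List.length_append]
    have hμ0 : μ ≠ [] := by
      intro h
      rw [h, List.length_nil] at hlα
      omega
    have hokL : OKL B y'.toWord (invRev γ).length := by
      rw [invRev_length]; exact hok.2
    obtain ⟨D', d1, d2, d3, d4, d5, d6⟩ := ih y' (invRev γ) β
      (fun v hv => hK v (by simp at hv ⊢; tauto)) (fun v hv => h1 v (by simp at hv ⊢; tauto))
      hch.2 e2 hokL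
    refine ⟨μ ++ D', ?_, ?_, ?_, ?_, ?_, ?_⟩
    · -- reduced
      have r1 := isReduced_toWord (x := y * y')
      rw [e3, hμ1, List.append_assoc] at r1
      have r2 := isReduced_right r1
      unfold FreeGroup.IsReduced at r2 d1 ⊢
      rw [List.isChain_append] at r2 ⊢
      refine ⟨r2.1, d1, ?_⟩
      rw [d4]
      exact r2.2.2
    · rw [mk_append, d2, List.prod_cons, mk_invRev, inv_inv]
      have : y = FreeGroup.mk p * FreeGroup.mk μ * FreeGroup.mk γ := by
        rw [← mk_append, ← mk_append, ← hμ1, ← e1, mk_toWord]
      conv_rhs => rw [this]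
      group
    · rw [hμ2]
      intro h
      exact hμ0 (List.append_eq_nil_iff.1 h).1
    · rw [hμ2, List.head?_append_of_ne_nil _ hμ0, List.head?_append_of_ne_nil _ hμ0]
    · have := List.length_pos_iff.2 hμ0
      rw [List.length_append, List.length_cons]
      omega
    · intro hl
      have hμp := List.length_pos_iff.2 hμ0
      rw [List.length_append, List.length_cons] at hl
      have hμ1' : μ.length = 1 := by omega
      obtain ⟨f1, f2, f3, f4⟩ := d6 (by omega)
      obtain ⟨l, rfl⟩ := List.length_eq_one_iff.1 hμ1'
      have hc := ok_ctr hL hok.1 (by omega)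
      have hp := parts_of (B := B) (x := y) (p := p) (s := γ) (l := l)
        (by rw [hw, hμ2]; simp) hc
      refine ⟨hp.1.symm, ?_, ?_, ?_⟩
      · rw [List.isChain_cons_cons]
        refine ⟨?_, f2⟩
        rw [hp.2.2, ← f1, invRev_invRev]
      · intro v hv
        rw [List.getLast?_cons_cons] at hv
        exact f3 v hv
      · rw [f4, List.map_cons (f := ctl B) (a := y), hp.2.1]
        simp

/-- **LEMMA RED.** -/
theorem red_words (B : ℕ) (L : List F) (hne : L ≠ []) (hK : ∀ y ∈ L, y ∈ KB_ B)
    (h1 : ∀ y ∈ L, y ≠ 1) (hMP : L.IsChain (fun x y => x * y ≠ 1 ∧ MP B x y))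
    (hz : FreeGroup.norm L.prod = L.length) :
    L.prod.toWord = L.map (ctl B) ∧ L.IsChain (fun u v => post B u = invRev (pre B v)) ∧
      (∀ y, L.head? = some y → pre B y = []) ∧ (∀ y, L.getLast? = some y → post B y = []) := by
  rcases L with _ | ⟨y, Y⟩
  · exact absurd rfl hne
  · have hyw : y.toWord ≠ [] := by rw [Ne, toWord_eq_nil_iff]; exact h1 y (by simp)
    obtain ⟨D, d1, d2, d3, d4, d5, d6⟩ := red_main B Y y [] y.toWord hK h1 hMP rfl
      (okl_zero B hyw)
    have hD : (y :: Y).prod.toWord = D := by
      refine toWord_eq_of_isReduced ?_ d1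
      rw [d2, List.prod_cons, ← FreeGroup.one_eq_mk, inv_one, one_mul]
    have hl : D.length = Y.length + 1 := by
      rw [← hD]
      exact hz
    obtain ⟨f1, f2, f3, f4⟩ := d6 hl
    refine ⟨hD.trans f4, f2, ?_, f3⟩
    intro v hv
    simp at hv
    subst hv
    exact f1.symm

end Pool.Agent.Torelli
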