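import Pool.Agent.Torelli.AB.Tour

/-!
# Torelli project, part AB3: slides of markings
-/

set_option autoImplicit false

namespace Pool.Agent.Torelli

/-- insert `x` immediately after `p` -/
def insAfter (p x : Germ) : List Germ → List Germ
  | [] => []
  | y :: L => if y = p then y :: x :: L else y :: insAfter p x L

theorem insAfter_split {p x : Germ} {A B : List Germ} (hp : p ∉ A) :
    insAfter p x (A ++ p :: B) = A ++ p :: x :: B := by
  induction A with
  | nil => simp [insAfter]
  | cons y A ih =>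
    have h1 : y ≠ p := by
      intro h
      exact hp (by simp [h])
    have h2 : p ∉ A := fun h => hp (by simp [h])
    simp [insAfter, h1, ih h2]

/-- The changed label function: `Xs (slX X u y) u = y`. -/
def slX (X : ℕ → F) (u : Germ) (y : F) : ℕ → F :=
  fun l => if l = u.1 then (if u.2 then y else y⁻¹) else X l

@[simp] theorem Xs_slX (X : ℕ → F) (u : Germ) (y : F) : Xs (slX X u y) u = y := by
  rcases u with ⟨m, x⟩
  cases x <;> simp [slX, Xs]

theorem Xs_slX_ne {X : ℕ → F} {u w : Germ} {y : F} (h : w.1 ≠ u.1) :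
    Xs (slX X u y) w = Xs X w := by
  simp [slX, Xs, h]

/-- new corner values of an R-slide -/
def slh (X : ℕ → F) (h : Germ → F) (u v : Germ) : Germ → F :=
  fun w => if w = v then h (tau u) else if w = tau u then h (tau u) * Xs X v else h w

section slide
variable {V : List Germ} {X : ℕ → F} {h : Germ → F} {z : F} {u v : Germ}

theorem slh_v : slh X h u v v = h (tau u) := by simp [slh]

theorem slh_tau (hne : u.1 ≠ v.1) : slh X h u v (tau u) = h (tau u) * Xs X v := by
  have : tau u ≠ v := fun e => hne (by rw [← e]; rfl)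
  simp [slh, this]

theorem slh_ne {w : Germ} (h1 : w ≠ v) (h2 : w ≠ tau u) : slh X h u v w = h w := by
  simp [slh, h1, h2]

/-- outgoing values -/
theorem out_ne (hne : u.1 ≠ v.1) {w : Germ} (h1 : w ≠ tau v) (h2 : w ≠ tau u) :
    slh X h u v (tau w) * Xs (slX X u (Xs X u * Xs X v)) (tau w) = h (tau w) * Xs X (tau w) := by
  by_cases hw : w = u
  · subst hw
    rw [slh_tau hne, Xs_tau, Xs_slX, Xs_tau]
    group
  · have h3 : w.1 ≠ u.1 := fst_ne_of hw h2
    rw [Xs_slX_ne (by simpa using h3), slh_ne]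
    · intro e
      exact h1 (tau_eq_iff.1 e)
    · intro e
      exact hw (tau_inj.1 e)

theorem out_tau_v (hne : u.1 ≠ v.1) :
    slh X h u v (tau (tau v)) * Xs (slX X u (Xs X u * Xs X v)) (tau (tau v)) =
      h (tau u) * Xs X v := by
  rw [tau_tau, slh_v, Xs_slX_ne (fun e => hne e.symm)]

theorem out_tau_u (hM : Mk V X h z) (huv : Nx V u v) (hne : u.1 ≠ v.1) :
    slh X h u v (tau (tau u)) * Xs (slX X u (Xs X u * Xs X v)) (tau (tau u)) =
      h v * Xs X v := by
  rw [tau_tau, Xs_slX, slh_ne (fun e => hne (by rw [e])) (fun e => tau_ne u e.symm), hM.h_nx huv]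
  group

theorem dual_slide (hM : Mk V X h z) (hu : u ∈ V) (hv : v ∈ V) (hne : u.1 ≠ v.1) :
    ∀ w ∈ V, ∃ φ : F →* Multiplicative ℤ,
      φ (Xs (slX X u (Xs X u * Xs X v)) w) = Multiplicative.ofAdd 1 ∧
      ∀ y ∈ V, y.1 ≠ w.1 → φ (Xs (slX X u (Xs X u * Xs X v)) y) = 1 := by
  set X' := slX X u (Xs X u * Xs X v) with hX'
  -- values of homs on germs of the label `u`
  have hval : ∀ (φ : F →* Multiplicative ℤ) (y : Germ), y.1 = u.1 →
      φ (Xs X' u) = 1 → φ (Xs X' y) = 1 := by
    intro φ y hy h1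
    rcases eq_or_eq_tau hy with e | e
    · rw [e, h1]
    · rw [e, Xs_tau, map_inv, h1, inv_one]
  -- it is enough to treat one of the two germs of each label
  have half : ∀ w ∈ V, (∃ φ : F →* Multiplicative ℤ, φ (Xs X' w) = Multiplicative.ofAdd 1 ∧
      ∀ y ∈ V, y.1 ≠ w.1 → φ (Xs X' y) = 1) →
      ∀ w', w'.1 = w.1 → ∃ φ : F →* Multiplicative ℤ, φ (Xs X' w') = Multiplicative.ofAdd 1 ∧
      ∀ y ∈ V, y.1 ≠ w'.1 → φ (Xs X' y) = 1 := by
    rintro w _ ⟨φ, h1, h2⟩ w' hw'
    rcases eq_or_eq_tau hw' with e | e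
    · rw [e]; exact ⟨φ, h1, h2⟩
    · refine ⟨φ⁻¹, ?_, ?_⟩
      · rw [e, Xs_tau, MonoidHom.inv_apply, map_inv, h1, inv_inv]
      · intro y hy hyw
        rw [MonoidHom.inv_apply, h2 y hy (by rwa [← hw']), inv_one]
  intro w hw
  by_cases hwu : w.1 = u.1
  · obtain ⟨φ, h1, h2⟩ := hM.dual u hu
    refine half u hu ⟨φ, ?_, ?_⟩ w hwu
    · rw [hX', Xs_slX, map_mul, h1, h2 v hv (fun e => hne e.symm), mul_one]
    · intro y hy hyu
      rw [hX', Xs_slX_ne hyu]
      exact h2 y hy hyu
  by_cases hwv : w.1 = v.1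
  · obtain ⟨φ, h1, h2⟩ := hM.dual v hv
    obtain ⟨ψ, g1, g2⟩ := hM.dual u hu
    refine half v hv ⟨φ * ψ⁻¹, ?_, ?_⟩ w hwv
    · rw [hX', Xs_slX_ne (fun e => hne e.symm), MonoidHom.mul_apply, MonoidHom.inv_apply, h1,
        g2 v hv (fun e => hne e.symm)]
      simp
    · intro y hy hyv
      by_cases hyu : y.1 = u.1
      · refine hval _ y hyu ?_
        rw [hX', Xs_slX, MonoidHom.mul_apply, MonoidHom.inv_apply, map_mul, map_mul, h1, g1,
          h2 u hu hne, g2 v hv (fun e => hne e.symm)]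
        simp
      · rw [hX', Xs_slX_ne hyu, MonoidHom.mul_apply, MonoidHom.inv_apply, h2 y hy hyv,
          g2 y hy hyu]
        simp
  · obtain ⟨φ, h1, h2⟩ := hM.dual w hw
    refine ⟨φ, ?_, ?_⟩
    · rw [hX', Xs_slX_ne hwu]; exact h1
    · intro y hy hyw
      by_cases hyu : y.1 = u.1
      · refine hval _ y hyu ?_
        rw [hX', Xs_slX, map_mul, h2 u hu (fun e => hwu e.symm), h2 v hv (fun e => hwv e.symm),
          mul_one]
      · rw [hX', Xs_slX_ne hyu]; exact h2 y hy hyw

/-- The list of an R-slide. -/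
def slV (V : List Germ) (u v : Germ) : List Germ := insAfter (tau v) (tau u) (V.erase (tau u))

theorem slV_cases (hnd : V.Nodup) (huv : Nx V u v) (hne : u.1 ≠ v.1) (hv : tau v ∈ V) :
    (∃ A B C, V = A ++ tau u :: v :: (B ++ tau v :: C) ∧
      slV V u v = A ++ v :: (B ++ tau v :: tau u :: C)) ∨
    (∃ A B C, V = A ++ tau v :: (B ++ tau u :: v :: C) ∧
      slV V u v = A ++ tau v :: tau u :: (B ++ v :: C)) := by
  obtain ⟨Y, Y', hV⟩ := huv
  have hvu : tau v ≠ tau u := fun e => hne (by rw [tau_inj.1 e])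
  have h2 : tau v ≠ v := tau_ne v
  have h3 : tau v ∈ Y ∨ tau v ∈ Y' := by
    rw [hV] at hv
    simp only [List.mem_append, List.mem_cons] at hv
    rcases hv with h | h | h | h
    · exact Or.inl h
    · exact (hvu h).elim
    · exact (h2 h).elim
    · exact Or.inr h
  have hY : tau u ∉ Y := by
    intro hm
    rw [hV, List.nodup_append] at hnd
    exact hnd.2.2 _ hm _ (by simp) rfl
  have herase : V.erase (tau u) = Y ++ v :: Y' := by
    rw [hV, List.erase_append_right _ hY, List.erase_cons_head]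
  have hnd' : (Y ++ v :: Y').Nodup := by
    rw [← herase]; exact hnd.erase _
  rcases h3 with hm | hm
  · right
    obtain ⟨A, B, hAB⟩ := List.append_of_mem hm
    refine ⟨A, B, Y', by rw [hV, hAB]; simp, ?_⟩
    unfold slV
    rw [herase, hAB]
    have hA : tau v ∉ A := by
      intro hm'
      rw [hAB] at hnd'
      simp only [List.append_assoc, List.cons_append] at hnd'
      rw [List.nodup_append] at hnd'
      exact hnd'.2.2 _ hm' _ (by simp) rfl
    have := insAfter_split (p := tau v) (x := tau u) (B := B ++ v :: Y') hA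
    simpa using this
  · left
    obtain ⟨B, C, hBC⟩ := List.append_of_mem hm
    refine ⟨Y, B, C, by rw [hV, hBC], ?_⟩
    unfold slV
    rw [herase, hBC]
    have hA : tau v ∉ Y ++ v :: B := by
      intro hm'
      rw [hBC] at hnd'
      have e : Y ++ v :: (B ++ tau v :: C) = (Y ++ v :: B) ++ tau v :: C := by simp
      rw [e, List.nodup_append] at hnd'
      exact hnd'.2.2 _ hm' _ (by simp) rfl
    have := insAfter_split (p := tau v) (x := tau u) (B := C) hA
    simpa using this

theorem slV_perm (hnd : V.Nodup) (huv : Nx V u v) (hne : u.1 ≠ v.1) (hv : tau v ∈ V) :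
    (slV V u v).Perm V := by
  rcases slV_cases hnd huv hne hv with ⟨A, B, C, h1, h2⟩ | ⟨A, B, C, h1, h2⟩
  · rw [h2, h1]
    apply List.Perm.append_left
    have e1 : (v :: (B ++ tau v :: tau u :: C)) = (v :: (B ++ [tau v])) ++ tau u :: C := by simp
    have e2 : (tau u :: v :: (B ++ tau v :: C)) = tau u :: ((v :: (B ++ [tau v])) ++ C) := by simp
    rw [e1, e2]
    exact List.perm_middle
  · rw [h2, h1]
    apply List.Perm.append_left
    apply List.Perm.cons
    have e2 : (B ++ tau u :: v :: C) = B ++ tau u :: (v :: C) := rfl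
    rw [e2]
    exact (List.perm_middle).symm

theorem slV_filter (hnd : V.Nodup) (huv : Nx V u v) (hne : u.1 ≠ v.1) (hv : tau v ∈ V) :
    (slV V u v).filter (fun w => w ≠ tau u) = V.filter (fun w => w ≠ tau u) := by
  rcases slV_cases hnd huv hne hv with ⟨A, B, C, h1, h2⟩ | ⟨A, B, C, h1, h2⟩
  · rw [h2, h1]
    simp [List.filter_cons]
  · rw [h2, h1]
    simp [List.filter_cons]

/-- The R-slide of a marking is a marking. -/
theorem Mk.slideR (hM : Mk V X h z) (huv : Nx V u v) (hne : u.1 ≠ v.1) :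
    Mk (slV V u v) (slX X u (Xs X u * Xs X v)) (slh X h u v) z := by
  have hnd := hM.nodup
  have hu : u ∈ V := by rw [← hM.tau_mem_iff]; exact (nx_mem huv).1
  have hv : v ∈ V := (nx_mem huv).2
  have hv' : tau v ∈ V := hM.closed v hv
  have hperm := slV_perm hnd huv hne hv'
  have hvu : tau v ≠ tau u := fun e => hne (by rw [tau_inj.1 e])
  have hv2 : tau v ≠ v := tau_ne v
  have huv2 : v ≠ tau u := fun e => hne (by rw [e]; rfl)
  refine ⟨hperm.nodup_iff.2 hnd, ?_, ?_, ?_⟩
  · intro w hw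
    rw [hperm.mem_iff] at hw ⊢
    exact hM.closed w hw
  · have hp := hM.path
    -- transport of a part without special germs
    have tr : ∀ (L : List Germ) (x y : F), v ∉ L → tau v ∉ L → tau u ∉ L → Path X h x L y →
        Path (slX X u (Xs X u * Xs X v)) (slh X h u v) x L y := by
      intro L x y h1 h2 h3 hL
      refine Path_congr L ?_ ?_ hL
      · intro w hw
        exact slh_ne (fun e => h1 (e ▸ hw)) (fun e => h3 (e ▸ hw))
      · intro w hw
        exact out_ne hne (fun e => h2 (e ▸ hw)) (fun e => h3 (e ▸ hw))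
    rcases slV_cases hnd huv hne hv' with ⟨A, B, C, h1, h2⟩ | ⟨A, B, C, h1, h2⟩
    · rw [h2]
      rw [h1] at hp hnd
      rw [Path_append] at hp
      obtain ⟨m, pA, pB⟩ := hp
      rw [Path_cons, Path_cons, Path_append] at pB
      obtain ⟨hm, _, n, pB, pC⟩ := pB
      rw [Path_cons] at pC
      obtain ⟨hn, pC⟩ := pC
      have nA : v ∉ A ∧ tau v ∉ A ∧ tau u ∉ A := by
        rw [List.nodup_append] at hnd
        exact ⟨fun e => hnd.2.2 _ e _ (by simp) rfl, fun e => hnd.2.2 _ e _ (by simp) rfl,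
          fun e => hnd.2.2 _ e _ (by simp) rfl⟩
      have nB : v ∉ B ∧ tau v ∉ B ∧ tau u ∉ B := by
        rw [List.nodup_append, List.nodup_cons, List.nodup_cons] at hnd
        obtain ⟨_, ⟨g1, g2, g3⟩, _⟩ := hnd
        rw [List.nodup_append] at g3
        exact ⟨fun e => g2 (by simp [e]), fun e => g3.2.2 _ e _ (by simp) rfl,
          fun e => g1 (by simp [e])⟩
      have nC : v ∉ C ∧ tau v ∉ C ∧ tau u ∉ C := by
        rw [List.nodup_append, List.nodup_cons, List.nodup_cons] at hnd
        obtain ⟨_, ⟨g1, g2, g3⟩, _⟩ := hnd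
        rw [List.nodup_append, List.nodup_cons] at g3
        exact ⟨fun e => g2 (by simp [e]), g3.2.1.1, fun e => g1 (by simp [e])⟩
      rw [Path_append]
      refine ⟨m, tr A _ _ nA.1 nA.2.1 nA.2.2 pA, ?_⟩
      rw [Path_cons, Path_append]
      refine ⟨by rw [slh_v, hm], n, ?_, ?_⟩
      · rw [out_ne hne (fun e => hv2 e.symm) huv2]
        exact tr B _ _ nB.1 nB.2.1 nB.2.2 pB
      · rw [Path_cons, Path_cons]
        refine ⟨by rw [slh_ne hv2 hvu, hn], ?_, ?_⟩
        · rw [out_tau_v hne, slh_tau hne]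
        · rw [out_tau_u hM huv hne]
          rw [tau_tau] at pC
          exact tr C _ _ nC.1 nC.2.1 nC.2.2 pC
    · rw [h2]
      rw [h1] at hp hnd
      rw [Path_append] at hp
      obtain ⟨m, pA, pB⟩ := hp
      rw [Path_cons, Path_append] at pB
      obtain ⟨hm, n, pB, pC⟩ := pB
      rw [Path_cons, Path_cons] at pC
      obtain ⟨hn, hn2, pC⟩ := pC
      have nA : v ∉ A ∧ tau v ∉ A ∧ tau u ∉ A := by
        rw [List.nodup_append] at hnd
        exact ⟨fun e => hnd.2.2 _ e _ (by simp) rfl, fun e => hnd.2.2 _ e _ (by simp) rfl,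
          fun e => hnd.2.2 _ e _ (by simp) rfl⟩
      have nB : v ∉ B ∧ tau v ∉ B ∧ tau u ∉ B := by
        rw [List.nodup_append, List.nodup_cons] at hnd
        obtain ⟨_, ⟨g1, g3⟩, _⟩ := hnd
        rw [List.nodup_append] at g3
        exact ⟨fun e => g3.2.2 _ e _ (by simp) rfl, fun e => g1 (by simp [e]),
          fun e => g3.2.2 _ e _ (by simp) rfl⟩
      have nC : v ∉ C ∧ tau v ∉ C ∧ tau u ∉ C := by
        rw [List.nodup_append, List.nodup_cons] at hnd
        obtain ⟨_, ⟨g1, g3⟩, _⟩ := hnd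
        rw [List.nodup_append, List.nodup_cons, List.nodup_cons] at g3
        exact ⟨g3.2.1.2.1, fun e => g1 (by simp [e]), fun e => g3.2.1.1 (by simp [e])⟩
      rw [Path_append]
      refine ⟨m, tr A _ _ nA.1 nA.2.1 nA.2.2 pA, ?_⟩
      rw [Path_cons, Path_cons]
      refine ⟨by rw [slh_ne hv2 hvu, hm], by rw [out_tau_v hne, slh_tau hne], ?_⟩
      rw [out_tau_u hM huv hne, Path_append]
      rw [tau_tau] at pB
      refine ⟨n, tr B _ _ nB.1 nB.2.1 nB.2.2 pB, ?_⟩
      rw [Path_cons]
      refine ⟨by rw [slh_v, hn], ?_⟩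
      rw [out_ne hne (fun e => hv2 e.symm) huv2]
      exact tr C _ _ nC.1 nC.2.1 nC.2.2 pC
  · intro w hw
    rw [hperm.mem_iff] at hw
    obtain ⟨φ, g1, g2⟩ := dual_slide hM hu hv hne w hw
    exact ⟨φ, g1, fun y hy => g2 y (hperm.mem_iff.1 hy)⟩

/-- corner values of the mirror marking -/
def mih (X : ℕ → F) (h : Germ → F) (z : F) : Germ → F :=
  fun u => z⁻¹ * (h (tau u) * Xs X (tau u))

theorem Path_reverse (X : ℕ → F) (h : Germ → F) (z : F) (V : List Germ) : ∀ (x y : F),
    Path X h x V y → Path X (mih X h z) (z⁻¹ * y) V.reverse (z⁻¹ * x) := by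
  induction V with
  | nil => intro x y hp; rw [Path_nil] at hp; simp [hp]
  | cons u V ih =>
    intro x y hp
    rw [Path_cons] at hp
    rw [List.reverse_cons, Path_append]
    refine ⟨_, ih _ _ hp.2, ?_⟩
    rw [Path_cons, Path_nil]
    refine ⟨rfl, ?_⟩
    rw [← hp.1]
    simp only [mih, tau_tau, Xs_tau]
    group

/-- The mirror marking. -/
theorem Mk.mirror (hM : Mk V X h z) : Mk V.reverse X (mih X h z) z⁻¹ := by
  refine ⟨List.nodup_reverse.2 hM.nodup, ?_, ?_, ?_⟩
  · intro u hu
    rw [List.mem_reverse] at hu ⊢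
    exact hM.closed u hu
  · have := Path_reverse X h z V 1 z hM.path
    simpa using this
  · intro u hu
    rw [List.mem_reverse] at hu
    obtain ⟨φ, g1, g2⟩ := hM.dual u hu
    exact ⟨φ, g1, fun y hy => g2 y (List.mem_reverse.1 hy)⟩

theorem nx_mirror (huv : Nx V u v) : Nx V.reverse (tau v) (tau u) := by
  obtain ⟨Y, Y', hV⟩ := huv
  exact ⟨Y'.reverse, Y.reverse, by rw [hV]; simp⟩

theorem nl_mirror (huv : NL V u v) : NL V.reverse v u := by
  have := List.Sublist.reverse huv
  simpa [NL] using this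

/-- The list of an L-slide. -/
def slVL (V : List Germ) (u v : Germ) : List Germ := (slV V.reverse (tau v) (tau u)).reverse

theorem slVL_perm (hnd : V.Nodup) (huv : Nx V u v) (hne : u.1 ≠ v.1) (hu : u ∈ V) :
    (slVL V u v).Perm V := by
  have h1 := slV_perm (List.nodup_reverse.2 hnd) (nx_mirror huv) (by simpa using Ne.symm hne)
    (by simpa using hu)
  exact (List.reverse_perm _).trans (h1.trans (List.reverse_perm _))

theorem slVL_filter (hnd : V.Nodup) (huv : Nx V u v) (hne : u.1 ≠ v.1) (hu : u ∈ V) :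
    (slVL V u v).filter (fun w => w ≠ v) = V.filter (fun w => w ≠ v) := by
  have h1 := slV_filter (List.nodup_reverse.2 hnd) (nx_mirror huv) (by simpa using Ne.symm hne)
    (by simpa using hu)
  rw [tau_tau] at h1
  unfold slVL
  rw [List.filter_reverse, h1, List.filter_reverse, List.reverse_reverse]

/-- The L-slide of a marking is a marking: the label of `v` becomes `Xs u * Xs v`. -/
theorem Mk.slideL (hM : Mk V X h z) (huv : Nx V u v) (hne : u.1 ≠ v.1) :
    ∃ h', Mk (slVL V u v) (slX X v (Xs X u * Xs X v)) h' z := by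
  have h1 := (hM.mirror.slideR (nx_mirror huv) (by simpa using Ne.symm hne)).mirror
  rw [inv_inv] at h1
  have e : slX X (tau v) (Xs X (tau v) * Xs X (tau u)) = slX X v (Xs X u * Xs X v) := by
    have e2 : Xs X (tau v) * Xs X (tau u) = (Xs X u * Xs X v)⁻¹ := by
      rw [Xs_tau, Xs_tau, mul_inv_rev]
    rw [e2]
    funext l
    rcases v with ⟨m, x⟩
    cases x <;> simp [slX, tau]
  rw [e] at h1
  exact ⟨_, h1⟩

end slide

end Pool.Agent.Torelli
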