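import Pool.Agent.Torelli.Words
import Pool.Agent.Torelli.AB.Marking

/-!
# Torelli project, part AB7: the twenty two-handle identities
-/

set_option autoImplicit false
set_option linter.unusedSimpArgs false

namespace Pool.Agent.Torelli

/-- the corner values of the handle `s` : `1, a, a b, a b a⁻¹, H` -/
def cS (s : ℕ) : ℕ → F
  | 0 => 1
  | 1 => a s
  | 2 => a s * b s
  | 3 => a s * b s * (a s)⁻¹
  | _ => H s

/-- the element `c_i⁻¹ H a_{s+1} H⁻¹ c_j` -/
def zS (s i j : ℕ) : F := (cS s i)⁻¹ * H s * a (s + 1) * (H s)⁻¹ * cS s j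

/-- `(x, y)` is the image of `(a_s, b_s)` under an element of `M s 2` -/
def TG (s : ℕ) (x y : F) : Prop := ∃ θ ∈ M s 2, θ (a s) = x ∧ θ (b s) = y

/-- word `P- Tb1 P Tb1-` -/
theorem tab01q (s : ℕ) : TG s (zS s 0 1) (b s) := by
  refine ⟨evWord s [(Gen.C 0, false), (Gen.B 0, true), (Gen.C 0, true), (Gen.B 0, false)],
    evWord_mem_M s 2 _ (by decide), ?_, ?_⟩
  · have h := evWord_apply 4 [(Gen.C 0, false), (Gen.B 0, true), (Gen.C 0, true), (Gen.B 0, false)] [0] [0, 2, 1, 3, 4, 2, 0, 3]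
      (by decide +kernel) s
    simp only [wordS_cons, wordS_nil, mul_one, lt0, lt1, lt2, lt3, lt4, lt5, lt6, lt7] at h
    rw [h]
    try simp only [zS, cS, H]
    try group
  · have h := evWord_apply 4 [(Gen.C 0, false), (Gen.B 0, true), (Gen.C 0, true), (Gen.B 0, false)] [2] [2]
      (by decide +kernel) s
    simp only [wordS_cons, wordS_nil, mul_one, lt0, lt1, lt2, lt3, lt4, lt5, lt6, lt7] at h
    rw [h]
    try simp only [zS, cS, H]
    try group

/-- word `P- Tb1 Ta1-` -/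
theorem tab02p (s : ℕ) : TG s (zS s 0 2) ((a s)⁻¹) := by
  refine ⟨evWord s [(Gen.C 0, false), (Gen.B 0, true), (Gen.A 0, false)],
    evWord_mem_M s 2 _ (by decide), ?_, ?_⟩
  · have h := evWord_apply 4 [(Gen.C 0, false), (Gen.B 0, true), (Gen.A 0, false)] [0] [0, 2, 1, 3, 4, 2, 0]
      (by decide +kernel) s
    simp only [wordS_cons, wordS_nil, mul_one, lt0, lt1, lt2, lt3, lt4, lt5, lt6, lt7] at h
    rw [h]
    try simp only [zS, cS, H]
    try group
  · have h := evWord_apply 4 [(Gen.C 0, false), (Gen.B 0, true), (Gen.A 0, false)] [2] [1]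
      (by decide +kernel) s
    simp only [wordS_cons, wordS_nil, mul_one, lt0, lt1, lt2, lt3, lt4, lt5, lt6, lt7] at h
    rw [h]
    try simp only [zS, cS, H]
    try group

/-- word `P- Tb1 P` -/
theorem tab02q (s : ℕ) : TG s (zS s 0 2) (b s) := by
  refine ⟨evWord s [(Gen.C 0, false), (Gen.B 0, true), (Gen.C 0, true)],
    evWord_mem_M s 2 _ (by decide), ?_, ?_⟩
  · have h := evWord_apply 4 [(Gen.C 0, false), (Gen.B 0, true), (Gen.C 0, true)] [0] [0, 2, 1, 3, 4, 2, 0]
      (by decide +kernel) s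
    simp only [wordS_cons, wordS_nil, mul_one, lt0, lt1, lt2, lt3, lt4, lt5, lt6, lt7] at h
    rw [h]
    try simp only [zS, cS, H]
    try group
  · have h := evWord_apply 4 [(Gen.C 0, false), (Gen.B 0, true), (Gen.C 0, true)] [2] [2]
      (by decide +kernel) s
    simp only [wordS_cons, wordS_nil, mul_one, lt0, lt1, lt2, lt3, lt4, lt5, lt6, lt7] at h
    rw [h]
    try simp only [zS, cS, H]
    try group

/-- word `P- Ta1- Tb1 Ta1-` -/
theorem tab03p (s : ℕ) : TG s (zS s 0 3) ((a s)⁻¹) := by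
  refine ⟨evWord s [(Gen.C 0, false), (Gen.A 0, false), (Gen.B 0, true), (Gen.A 0, false)],
    evWord_mem_M s 2 _ (by decide), ?_, ?_⟩
  · have h := evWord_apply 4 [(Gen.C 0, false), (Gen.A 0, false), (Gen.B 0, true), (Gen.A 0, false)] [0] [0, 2, 1, 3, 4, 2]
      (by decide +kernel) s
    simp only [wordS_cons, wordS_nil, mul_one, lt0, lt1, lt2, lt3, lt4, lt5, lt6, lt7] at h
    rw [h]
    try simp only [zS, cS, H]
    try group
  · have h := evWord_apply 4 [(Gen.C 0, false), (Gen.A 0, false), (Gen.B 0, true), (Gen.A 0, false)] [2] [1]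
      (by decide +kernel) s
    simp only [wordS_cons, wordS_nil, mul_one, lt0, lt1, lt2, lt3, lt4, lt5, lt6, lt7] at h
    rw [h]
    try simp only [zS, cS, H]
    try group

/-- word `P-` -/
theorem tab12p (s : ℕ) : TG s (a s) (zS s 1 2) := by
  refine ⟨evWord s [(Gen.C 0, false)],
    evWord_mem_M s 2 _ (by decide), ?_, ?_⟩
  · have h := evWord_apply 4 [(Gen.C 0, false)] [0] [0]
      (by decide +kernel) s
    simp only [wordS_cons, wordS_nil, mul_one, lt0, lt1, lt2, lt3, lt4, lt5, lt6, lt7] at h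
    rw [h]
    try simp only [zS, cS, H]
    try group
  · have h := evWord_apply 4 [(Gen.C 0, false)] [2] [2, 1, 3, 4, 2, 0]
      (by decide +kernel) s
    simp only [wordS_cons, wordS_nil, mul_one, lt0, lt1, lt2, lt3, lt4, lt5, lt6, lt7] at h
    rw [h]
    try simp only [zS, cS, H]
    try group

/-- word `P- Ta1-` -/
theorem tab13p (s : ℕ) : TG s (a s) (zS s 1 3) := by
  refine ⟨evWord s [(Gen.C 0, false), (Gen.A 0, false)],
    evWord_mem_M s 2 _ (by decide), ?_, ?_⟩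
  · have h := evWord_apply 4 [(Gen.C 0, false), (Gen.A 0, false)] [0] [0]
      (by decide +kernel) s
    simp only [wordS_cons, wordS_nil, mul_one, lt0, lt1, lt2, lt3, lt4, lt5, lt6, lt7] at h
    rw [h]
    try simp only [zS, cS, H]
    try group
  · have h := evWord_apply 4 [(Gen.C 0, false), (Gen.A 0, false)] [2] [2, 1, 3, 4, 2]
      (by decide +kernel) s
    simp only [wordS_cons, wordS_nil, mul_one, lt0, lt1, lt2, lt3, lt4, lt5, lt6, lt7] at h
    rw [h]
    try simp only [zS, cS, H]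
    try group

/-- word `P- Tb1- P` -/
theorem tab13q (s : ℕ) : TG s ((zS s 1 3)⁻¹) (b s) := by
  refine ⟨evWord s [(Gen.C 0, false), (Gen.B 0, false), (Gen.C 0, true)],
    evWord_mem_M s 2 _ (by decide), ?_, ?_⟩
  · have h := evWord_apply 4 [(Gen.C 0, false), (Gen.B 0, false), (Gen.C 0, true)] [0] [3, 5, 2, 0, 3]
      (by decide +kernel) s
    simp only [wordS_cons, wordS_nil, mul_one, lt0, lt1, lt2, lt3, lt4, lt5, lt6, lt7] at h
    rw [h]
    try simp only [zS, cS, H]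
    try group
  · have h := evWord_apply 4 [(Gen.C 0, false), (Gen.B 0, false), (Gen.C 0, true)] [2] [2]
      (by decide +kernel) s
    simp only [wordS_cons, wordS_nil, mul_one, lt0, lt1, lt2, lt3, lt4, lt5, lt6, lt7] at h
    rw [h]
    try simp only [zS, cS, H]
    try group

/-- word `Ta1 Tb1- P Ta1` -/
theorem tab14q (s : ℕ) : TG s ((b s)⁻¹) ((zS s 1 4)⁻¹) := by
  refine ⟨evWord s [(Gen.A 0, true), (Gen.B 0, false), (Gen.C 0, true), (Gen.A 0, true)],
    evWord_mem_M s 2 _ (by decide), ?_, ?_⟩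
  · have h := evWord_apply 4 [(Gen.A 0, true), (Gen.B 0, false), (Gen.C 0, true), (Gen.A 0, true)] [0] [3]
      (by decide +kernel) s
    simp only [wordS_cons, wordS_nil, mul_one, lt0, lt1, lt2, lt3, lt4, lt5, lt6, lt7] at h
    rw [h]
    try simp only [zS, cS, H]
    try group
  · have h := evWord_apply 4 [(Gen.A 0, true), (Gen.B 0, false), (Gen.C 0, true), (Gen.A 0, true)] [2] [5, 2, 0, 3]
      (by decide +kernel) s
    simp only [wordS_cons, wordS_nil, mul_one, lt0, lt1, lt2, lt3, lt4, lt5, lt6, lt7] at h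
    rw [h]
    try simp only [zS, cS, H]
    try group

/-- word `P- Tb1- P Tb1` -/
theorem tab23q (s : ℕ) : TG s ((zS s 2 3)⁻¹) (b s) := by
  refine ⟨evWord s [(Gen.C 0, false), (Gen.B 0, false), (Gen.C 0, true), (Gen.B 0, true)],
    evWord_mem_M s 2 _ (by decide), ?_, ?_⟩
  · have h := evWord_apply 4 [(Gen.C 0, false), (Gen.B 0, false), (Gen.C 0, true), (Gen.B 0, true)] [0] [3, 5, 2, 0]
      (by decide +kernel) s
    simp only [wordS_cons, wordS_nil, mul_one, lt0, lt1, lt2, lt3, lt4, lt5, lt6, lt7] at h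
    rw [h]
    try simp only [zS, cS, H]
    try group
  · have h := evWord_apply 4 [(Gen.C 0, false), (Gen.B 0, false), (Gen.C 0, true), (Gen.B 0, true)] [2] [2]
      (by decide +kernel) s
    simp only [wordS_cons, wordS_nil, mul_one, lt0, lt1, lt2, lt3, lt4, lt5, lt6, lt7] at h
    rw [h]
    try simp only [zS, cS, H]
    try group

/-- word `P Ta1` -/
theorem tab24p (s : ℕ) : TG s (a s) ((zS s 2 4)⁻¹) := by
  refine ⟨evWord s [(Gen.C 0, true), (Gen.A 0, true)],
    evWord_mem_M s 2 _ (by decide), ?_, ?_⟩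
  · have h := evWord_apply 4 [(Gen.C 0, true), (Gen.A 0, true)] [0] [0]
      (by decide +kernel) s
    simp only [wordS_cons, wordS_nil, mul_one, lt0, lt1, lt2, lt3, lt4, lt5, lt6, lt7] at h
    rw [h]
    try simp only [zS, cS, H]
    try group
  · have h := evWord_apply 4 [(Gen.C 0, true), (Gen.A 0, true)] [2] [5, 2, 0]
      (by decide +kernel) s
    simp only [wordS_cons, wordS_nil, mul_one, lt0, lt1, lt2, lt3, lt4, lt5, lt6, lt7] at h
    rw [h]
    try simp only [zS, cS, H]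
    try group

/-- word `Ta1 Tb1- P` -/
theorem tab24q (s : ℕ) : TG s ((b s)⁻¹) ((zS s 2 4)⁻¹) := by
  refine ⟨evWord s [(Gen.A 0, true), (Gen.B 0, false), (Gen.C 0, true)],
    evWord_mem_M s 2 _ (by decide), ?_, ?_⟩
  · have h := evWord_apply 4 [(Gen.A 0, true), (Gen.B 0, false), (Gen.C 0, true)] [0] [3]
      (by decide +kernel) s
    simp only [wordS_cons, wordS_nil, mul_one, lt0, lt1, lt2, lt3, lt4, lt5, lt6, lt7] at h
    rw [h]
    try simp only [zS, cS, H]
    try group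
  · have h := evWord_apply 4 [(Gen.A 0, true), (Gen.B 0, false), (Gen.C 0, true)] [2] [5, 2, 0]
      (by decide +kernel) s
    simp only [wordS_cons, wordS_nil, mul_one, lt0, lt1, lt2, lt3, lt4, lt5, lt6, lt7] at h
    rw [h]
    try simp only [zS, cS, H]
    try group

/-- word `P` -/
theorem tab34p (s : ℕ) : TG s (a s) ((zS s 3 4)⁻¹) := by
  refine ⟨evWord s [(Gen.C 0, true)],
    evWord_mem_M s 2 _ (by decide), ?_, ?_⟩
  · have h := evWord_apply 4 [(Gen.C 0, true)] [0] [0]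
      (by decide +kernel) s
    simp only [wordS_cons, wordS_nil, mul_one, lt0, lt1, lt2, lt3, lt4, lt5, lt6, lt7] at h
    rw [h]
    try simp only [zS, cS, H]
    try group
  · have h := evWord_apply 4 [(Gen.C 0, true)] [2] [5, 2]
      (by decide +kernel) s
    simp only [wordS_cons, wordS_nil, mul_one, lt0, lt1, lt2, lt3, lt4, lt5, lt6, lt7] at h
    rw [h]
    try simp only [zS, cS, H]
    try group

/-- word `P- Tb2 P Tb1 P- Ta2- Tb2 P Ta1- Tb1 P- Ta1-` -/
theorem tabS0 (s : ℕ) : TG s ((cS s 0)⁻¹ * H s * a (s + 1) * (H s)⁻¹ * cS s 0) ((cS s 0)⁻¹ * H s * b (s + 1) * (H s)⁻¹ * cS s 0) := by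
  refine ⟨evWord s [(Gen.C 0, false), (Gen.B 1, true), (Gen.C 0, true), (Gen.B 0, true), (Gen.C 0, false), (Gen.A 1, false), (Gen.B 1, true), (Gen.C 0, true), (Gen.A 0, false), (Gen.B 0, true), (Gen.C 0, false), (Gen.A 0, false)],
    evWord_mem_M s 2 _ (by decide), ?_, ?_⟩
  · have h := evWord_apply 4 [(Gen.C 0, false), (Gen.B 1, true), (Gen.C 0, true), (Gen.B 0, true), (Gen.C 0, false), (Gen.A 1, false), (Gen.B 1, true), (Gen.C 0, true), (Gen.A 0, false), (Gen.B 0, true), (Gen.C 0, false), (Gen.A 0, false)] [0] [0, 2, 1, 3, 4, 2, 0, 3, 1]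
      (by decide +kernel) s
    simp only [wordS_cons, wordS_nil, mul_one, lt0, lt1, lt2, lt3, lt4, lt5, lt6, lt7] at h
    rw [h]
    try simp only [zS, cS, H]
    try group
  · have h := evWord_apply 4 [(Gen.C 0, false), (Gen.B 1, true), (Gen.C 0, true), (Gen.B 0, true), (Gen.C 0, false), (Gen.A 1, false), (Gen.B 1, true), (Gen.C 0, true), (Gen.A 0, false), (Gen.B 0, true), (Gen.C 0, false), (Gen.A 0, false)] [2] [0, 2, 1, 3, 6, 2, 0, 3, 1]
      (by decide +kernel) s
    simp only [wordS_cons, wordS_nil, mul_one, lt0, lt1, lt2, lt3, lt4, lt5, lt6, lt7] at h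
    rw [h]
    try simp only [zS, cS, H]
    try group

/-- word `Tb2- P- Tb2 Tb1- P Tb2- Ta1 Ta1 Tb1- P Ta1 Ta1` -/
theorem tabS1 (s : ℕ) : TG s ((cS s 1)⁻¹ * H s * a (s + 1) * (H s)⁻¹ * cS s 1) ((cS s 1)⁻¹ * H s * b (s + 1) * (H s)⁻¹ * cS s 1) := by
  refine ⟨evWord s [(Gen.B 1, false), (Gen.C 0, false), (Gen.B 1, true), (Gen.B 0, false), (Gen.C 0, true), (Gen.B 1, false), (Gen.A 0, true), (Gen.A 0, true), (Gen.B 0, false), (Gen.C 0, true), (Gen.A 0, true), (Gen.A 0, true)],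
    evWord_mem_M s 2 _ (by decide), ?_, ?_⟩
  · have h := evWord_apply 4 [(Gen.B 1, false), (Gen.C 0, false), (Gen.B 1, true), (Gen.B 0, false), (Gen.C 0, true), (Gen.B 1, false), (Gen.A 0, true), (Gen.A 0, true), (Gen.B 0, false), (Gen.C 0, true), (Gen.A 0, true), (Gen.A 0, true)] [0] [2, 1, 3, 4, 2, 0, 3]
      (by decide +kernel) s
    simp only [wordS_cons, wordS_nil, mul_one, lt0, lt1, lt2, lt3, lt4, lt5, lt6, lt7] at h
    rw [h]
    try simp only [zS, cS, H]
    try group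
  · have h := evWord_apply 4 [(Gen.B 1, false), (Gen.C 0, false), (Gen.B 1, true), (Gen.B 0, false), (Gen.C 0, true), (Gen.B 1, false), (Gen.A 0, true), (Gen.A 0, true), (Gen.B 0, false), (Gen.C 0, true), (Gen.A 0, true), (Gen.A 0, true)] [2] [2, 1, 3, 6, 2, 0, 3]
      (by decide +kernel) s
    simp only [wordS_cons, wordS_nil, mul_one, lt0, lt1, lt2, lt3, lt4, lt5, lt6, lt7] at h
    rw [h]
    try simp only [zS, cS, H]
    try group

/-- word `P- Tb2 Tb1 P- Ta2- Ta2- Tb2 Tb1- P Tb1 Ta1- Ta1-` -/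
theorem tabS2 (s : ℕ) : TG s ((cS s 2)⁻¹ * H s * a (s + 1) * (H s)⁻¹ * cS s 2) ((cS s 2)⁻¹ * H s * b (s + 1) * (H s)⁻¹ * cS s 2) := by
  refine ⟨evWord s [(Gen.C 0, false), (Gen.B 1, true), (Gen.B 0, true), (Gen.C 0, false), (Gen.A 1, false), (Gen.A 1, false), (Gen.B 1, true), (Gen.B 0, false), (Gen.C 0, true), (Gen.B 0, true), (Gen.A 0, false), (Gen.A 0, false)],
    evWord_mem_M s 2 _ (by decide), ?_, ?_⟩
  · have h := evWord_apply 4 [(Gen.C 0, false), (Gen.B 1, true), (Gen.B 0, true), (Gen.C 0, false), (Gen.A 1, false), (Gen.A 1, false), (Gen.B 1, true), (Gen.B 0, false), (Gen.C 0, true), (Gen.B 0, true), (Gen.A 0, false), (Gen.A 0, false)] [0] [1, 3, 4, 2, 0]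
      (by decide +kernel) s
    simp only [wordS_cons, wordS_nil, mul_one, lt0, lt1, lt2, lt3, lt4, lt5, lt6, lt7] at h
    rw [h]
    try simp only [zS, cS, H]
    try group
  · have h := evWord_apply 4 [(Gen.C 0, false), (Gen.B 1, true), (Gen.B 0, true), (Gen.C 0, false), (Gen.A 1, false), (Gen.A 1, false), (Gen.B 1, true), (Gen.B 0, false), (Gen.C 0, true), (Gen.B 0, true), (Gen.A 0, false), (Gen.A 0, false)] [2] [1, 3, 6, 2, 0]
      (by decide +kernel) s
    simp only [wordS_cons, wordS_nil, mul_one, lt0, lt1, lt2, lt3, lt4, lt5, lt6, lt7] at h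
    rw [h]
    try simp only [zS, cS, H]
    try group

/-- word `Tb2- P Ta2 Ta2 Tb2- Tb1 P- Tb2 Tb1- P Ta1 Ta1` -/
theorem tabS3 (s : ℕ) : TG s ((cS s 3)⁻¹ * H s * a (s + 1) * (H s)⁻¹ * cS s 3) ((cS s 3)⁻¹ * H s * b (s + 1) * (H s)⁻¹ * cS s 3) := by
  refine ⟨evWord s [(Gen.B 1, false), (Gen.C 0, true), (Gen.A 1, true), (Gen.A 1, true), (Gen.B 1, false), (Gen.B 0, true), (Gen.C 0, false), (Gen.B 1, true), (Gen.B 0, false), (Gen.C 0, true), (Gen.A 0, true), (Gen.A 0, true)],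
    evWord_mem_M s 2 _ (by decide), ?_, ?_⟩
  · have h := evWord_apply 4 [(Gen.B 1, false), (Gen.C 0, true), (Gen.A 1, true), (Gen.A 1, true), (Gen.B 1, false), (Gen.B 0, true), (Gen.C 0, false), (Gen.B 1, true), (Gen.B 0, false), (Gen.C 0, true), (Gen.A 0, true), (Gen.A 0, true)] [0] [3, 4, 2]
      (by decide +kernel) s
    simp only [wordS_cons, wordS_nil, mul_one, lt0, lt1, lt2, lt3, lt4, lt5, lt6, lt7] at h
    rw [h]
    try simp only [zS, cS, H]
    try group
  · have h := evWord_apply 4 [(Gen.B 1, false), (Gen.C 0, true), (Gen.A 1, true), (Gen.A 1, true), (Gen.B 1, false), (Gen.B 0, true), (Gen.C 0, false), (Gen.B 1, true), (Gen.B 0, false), (Gen.C 0, true), (Gen.A 0, true), (Gen.A 0, true)] [2] [3, 6, 2]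
      (by decide +kernel) s
    simp only [wordS_cons, wordS_nil, mul_one, lt0, lt1, lt2, lt3, lt4, lt5, lt6, lt7] at h
    rw [h]
    try simp only [zS, cS, H]
    try group

/-- word `P Tb2- P- Tb1- P Ta2 Tb2- P- Ta1 Tb1- P Ta1` -/
theorem tabS4 (s : ℕ) : TG s ((cS s 4)⁻¹ * H s * a (s + 1) * (H s)⁻¹ * cS s 4) ((cS s 4)⁻¹ * H s * b (s + 1) * (H s)⁻¹ * cS s 4) := by
  refine ⟨evWord s [(Gen.C 0, true), (Gen.B 1, false), (Gen.C 0, false), (Gen.B 0, false), (Gen.C 0, true), (Gen.A 1, true), (Gen.B 1, false), (Gen.C 0, false), (Gen.A 0, true), (Gen.B 0, false), (Gen.C 0, true), (Gen.A 0, true)],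
    evWord_mem_M s 2 _ (by decide), ?_, ?_⟩
  · have h := evWord_apply 4 [(Gen.C 0, true), (Gen.B 1, false), (Gen.C 0, false), (Gen.B 0, false), (Gen.C 0, true), (Gen.A 1, true), (Gen.B 1, false), (Gen.C 0, false), (Gen.A 0, true), (Gen.B 0, false), (Gen.C 0, true), (Gen.A 0, true)] [0] [4]
      (by decide +kernel) s
    simp only [wordS_cons, wordS_nil, mul_one, lt0, lt1, lt2, lt3, lt4, lt5, lt6, lt7] at h
    rw [h]
    try simp only [zS, cS, H]
    try group
  · have h := evWord_apply 4 [(Gen.C 0, true), (Gen.B 1, false), (Gen.C 0, false), (Gen.B 0, false), (Gen.C 0, true), (Gen.A 1, true), (Gen.B 1, false), (Gen.C 0, false), (Gen.A 0, true), (Gen.B 0, false), (Gen.C 0, true), (Gen.A 0, true)] [2] [6]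
      (by decide +kernel) s
    simp only [wordS_cons, wordS_nil, mul_one, lt0, lt1, lt2, lt3, lt4, lt5, lt6, lt7] at h
    rw [h]
    try simp only [zS, cS, H]
    try group

/-- word `P- Tb2- Tb1 P Ta2 Ta2 Tb2- Tb1- P Tb1` -/
theorem tabX0004 (s : ℕ) : TG s (H s * a (s + 1) * (H s)⁻¹) (b (s + 1) * (H s)⁻¹) := by
  refine ⟨evWord s [(Gen.C 0, false), (Gen.B 1, false), (Gen.B 0, true), (Gen.C 0, true), (Gen.A 1, true), (Gen.A 1, true), (Gen.B 1, false), (Gen.B 0, false), (Gen.C 0, true), (Gen.B 0, true)],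
    evWord_mem_M s 2 _ (by decide), ?_, ?_⟩
  · have h := evWord_apply 4 [(Gen.C 0, false), (Gen.B 1, false), (Gen.B 0, true), (Gen.C 0, true), (Gen.A 1, true), (Gen.A 1, true), (Gen.B 1, false), (Gen.B 0, false), (Gen.C 0, true), (Gen.B 0, true)] [0] [0, 2, 1, 3, 4, 2, 0, 3, 1]
      (by decide +kernel) s
    simp only [wordS_cons, wordS_nil, mul_one, lt0, lt1, lt2, lt3, lt4, lt5, lt6, lt7] at h
    rw [h]
    try simp only [zS, cS, H]
    try group
  · have h := evWord_apply 4 [(Gen.C 0, false), (Gen.B 1, false), (Gen.B 0, true), (Gen.C 0, true), (Gen.A 1, true), (Gen.A 1, true), (Gen.B 1, false), (Gen.B 0, false), (Gen.C 0, true), (Gen.B 0, true)] [2] [6, 2, 0, 3, 1]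
      (by decide +kernel) s
    simp only [wordS_cons, wordS_nil, mul_one, lt0, lt1, lt2, lt3, lt4, lt5, lt6, lt7] at h
    rw [h]
    try simp only [zS, cS, H]
    try group

/-- word `P- Ta2 Tb2- Tb1 P Tb2 Tb1- P- Tb1 Ta1-` -/
theorem tabX0044 (s : ℕ) : TG s (H s * a (s + 1)) (b (s + 1) * (H s)⁻¹) := by
  refine ⟨evWord s [(Gen.C 0, false), (Gen.A 1, true), (Gen.B 1, false), (Gen.B 0, true), (Gen.C 0, true), (Gen.B 1, true), (Gen.B 0, false), (Gen.C 0, false), (Gen.B 0, true), (Gen.A 0, false)],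
    evWord_mem_M s 2 _ (by decide), ?_, ?_⟩
  · have h := evWord_apply 4 [(Gen.C 0, false), (Gen.A 1, true), (Gen.B 1, false), (Gen.B 0, true), (Gen.C 0, true), (Gen.B 1, true), (Gen.B 0, false), (Gen.C 0, false), (Gen.B 0, true), (Gen.A 0, false)] [0] [0, 2, 1, 3, 4]
      (by decide +kernel) s
    simp only [wordS_cons, wordS_nil, mul_one, lt0, lt1, lt2, lt3, lt4, lt5, lt6, lt7] at h
    rw [h]
    try simp only [zS, cS, H]
    try group
  · have h := evWord_apply 4 [(Gen.C 0, false), (Gen.A 1, true), (Gen.B 1, false), (Gen.B 0, true), (Gen.C 0, true), (Gen.B 1, true), (Gen.B 0, false), (Gen.C 0, false), (Gen.B 0, true), (Gen.A 0, false)] [2] [6, 2, 0, 3, 1]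
      (by decide +kernel) s
    simp only [wordS_cons, wordS_nil, mul_one, lt0, lt1, lt2, lt3, lt4, lt5, lt6, lt7] at h
    rw [h]
    try simp only [zS, cS, H]
    try group

/-- word `P Tb2 Tb1- P- Tb2- Tb1 P Tb1-` -/
theorem tabX0444 (s : ℕ) : TG s (H s * a (s + 1)) (b (s + 1)) := by
  refine ⟨evWord s [(Gen.C 0, true), (Gen.B 1, true), (Gen.B 0, false), (Gen.C 0, false), (Gen.B 1, false), (Gen.B 0, true), (Gen.C 0, true), (Gen.B 0, false)],
    evWord_mem_M s 2 _ (by decide), ?_, ?_⟩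
  · have h := evWord_apply 4 [(Gen.C 0, true), (Gen.B 1, true), (Gen.B 0, false), (Gen.C 0, false), (Gen.B 1, false), (Gen.B 0, true), (Gen.C 0, true), (Gen.B 0, false)] [0] [0, 2, 1, 3, 4]
      (by decide +kernel) s
    simp only [wordS_cons, wordS_nil, mul_one, lt0, lt1, lt2, lt3, lt4, lt5, lt6, lt7] at h
    rw [h]
    try simp only [zS, cS, H]
    try group
  · have h := evWord_apply 4 [(Gen.C 0, true), (Gen.B 1, true), (Gen.B 0, false), (Gen.C 0, false), (Gen.B 1, false), (Gen.B 0, true), (Gen.C 0, true), (Gen.B 0, false)] [2] [6]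
      (by decide +kernel) s
    simp only [wordS_cons, wordS_nil, mul_one, lt0, lt1, lt2, lt3, lt4, lt5, lt6, lt7] at h
    rw [h]
    try simp only [zS, cS, H]
    try group

end Pool.Agent.Torelli
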