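import Pool.Agent.Torelli.AB.Marking

/-!
# Torelli project, part AB2: the boundary tour of a marking
-/

set_option autoImplicit false

namespace Pool.Agent.Torelli

theorem nx_head_false {V : List Germ} (hV : V.Nodup) {Z : List Germ} {s u : Germ}
    (h1 : V = s :: Z) (h2 : Nx V u s) : False := by
  obtain ⟨Y, Y', e⟩ := h2
  have e' : V = (Y ++ [tau u]) ++ s :: Y' := by rw [e]; simp
  have := (nodup_split_unique hV (A := []) (by simpa using h1) e').1
  simp at this

theorem nx_last_false {V : List Germ} (hV : V.Nodup) {Z : List Germ} {u v : Germ}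
    (h1 : V = Z ++ [tau u]) (h2 : Nx V u v) : False := by
  obtain ⟨Y, Y', e⟩ := h2
  have := (nodup_split_unique hV h1 e).2
  simp at this

theorem nx_mem {V : List Germ} {u v : Germ} (h : Nx V u v) : tau u ∈ V ∧ v ∈ V := by
  obtain ⟨Y, Y', e⟩ := h
  rw [e]; simp

/-- If a chain of successors contains `v` and `u → v`, then it contains `u`. -/
theorem chain_pred {V W : List Germ} (hV : V.Nodup) {s : Germ} {Z Z' : List Germ}
    (hVs : V = s :: Z) (hWs : W = s :: Z')
    (hch : ∀ A u v B, W = A ++ u :: v :: B → Nx V u v) {u v : Germ} (hv : v ∈ W)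
    (huv : Nx V u v) : ∃ C D, W = C ++ u :: v :: D := by
  obtain ⟨C, D, hCD⟩ := List.append_of_mem hv
  rcases List.eq_nil_or_concat C with hC | ⟨C', x, hC⟩
  · subst hC
    have : v = s := by
      rw [hWs] at hCD
      simpa using (List.cons.inj hCD).1.symm
    subst this
    exact (nx_head_false hV hVs huv).elim
  · have hx : Nx V x v := hch C' x v D (by rw [hCD, hC]; simp)
    have := nx_inj hV hx huv
    subst this
    exact ⟨C', D, by rw [hCD, hC]; simp⟩

theorem partial_tour {V : List Germ} (hV : V.Nodup) {s : Germ} {Z : List Germ}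
    (hVs : V = s :: Z) (n : ℕ) :
    (∃ W Z', W = s :: Z' ∧ W.Nodup ∧ W ⊆ V ∧ (∀ A u v B, W = A ++ u :: v :: B → Nx V u v) ∧
      ∃ A u, W = A ++ [u] ∧ ∀ v, ¬ Nx V u v) ∨
    (∃ W Z', W = s :: Z' ∧ W.Nodup ∧ W ⊆ V ∧ (∀ A u v B, W = A ++ u :: v :: B → Nx V u v) ∧
      W.length = n + 1) := by
  induction n with
  | zero =>
    right
    refine ⟨[s], [], rfl, by simp, by simp [hVs], ?_, rfl⟩
    intro A u v B h
    have := congrArg List.length h
    simp at this
    omega
  | succ n ih =>
    rcases ih with h | ⟨W, Z', hW, hnd, hsub, hch, hlen⟩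
    · left; exact h
    · have hne : W ≠ [] := by rw [hW]; simp
      obtain ⟨A, u, hAu⟩ : ∃ A u, W = A ++ [u] :=
        ⟨W.dropLast, W.getLast hne, (List.dropLast_append_getLast hne).symm⟩
      by_cases hex : ∃ v, Nx V u v
      · right
        obtain ⟨v, hv⟩ := hex
        have hvW : v ∉ W := by
          intro hmem
          obtain ⟨C, D, hCD⟩ := chain_pred hV hVs hW hch hmem hv
          have := (nodup_split_unique hnd hCD hAu).2
          simp at this
        refine ⟨W ++ [v], Z' ++ [v], by rw [hW]; simp, ?_, ?_, ?_, by simp [hlen]⟩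
        · rw [List.nodup_append]
          refine ⟨hnd, by simp, ?_⟩
          intro x hx y hy hxy
          simp at hy
          subst hy
          subst hxy
          exact hvW hx
        · intro x hx
          rw [List.mem_append] at hx
          rcases hx with hx | hx
          · exact hsub hx
          · simp at hx; subst hx; exact (nx_mem hv).2
        · intro B x y C hB
          rcases List.eq_nil_or_concat C with hC | ⟨C', c, hC⟩
          · subst hC
            have e : W ++ [v] = (B ++ [x]) ++ [y] := by rw [hB]; simp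
            have e2 := List.append_inj' e rfl
            have e3 : A ++ [u] = B ++ [x] := by rw [← hAu]; exact e2.1
            have e4 := List.append_inj' e3 rfl
            have hux : u = x := (List.cons.inj e4.2).1
            have hvy : v = y := (List.cons.inj e2.2).1
            subst hux; subst hvy
            exact hv
          · have e : W ++ [v] = (B ++ x :: y :: C') ++ [c] := by rw [hB, hC]; simp
            have e2 := List.append_inj' e rfl
            exact hch _ _ _ _ e2.1
      · left
        exact ⟨W, Z', hW, hnd, hsub, hch, A, u, hAu, fun v hv => hex ⟨v, hv⟩⟩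

theorem tour_exists {V : List Germ} {X : ℕ → F} {h : Germ → F} {z : F} (hM : Mk V X h z) :
    ∃ W, Tour V W X h z := by
  rcases V with _ | ⟨s, Z⟩
  · refine ⟨[], ?_⟩
    have hz : (1 : F) = z := hM.path
    refine ⟨by simp, by simp, ?_, rfl, ?_, by simpa using hz, ?_⟩
    · intro A u v B h; simp at h
    · intro A u h; simp at h
    · intro A u B h; simp at h
  obtain ⟨V, hVs⟩ : ∃ V, V = s :: Z := ⟨_, rfl⟩
  rw [← hVs] at hM ⊢
  have hV := hM.nodup
  rcases partial_tour hV hVs V.length with
    ⟨W, Z', hW, hnd, hsub, hch, A, u, hAu, hu⟩ | ⟨W, Z', _, hnd, hsub, _, hlen⟩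
  swap
  · have := (List.Nodup.subperm hnd hsub).length_le
    omega
  have huV : u ∈ V := hsub (by rw [hAu]; simp)
  obtain ⟨L, hL⟩ : ∃ L, V = L ++ [tau u] := by
    obtain ⟨B, B', hB⟩ := List.append_of_mem (hM.closed u huV)
    rcases B' with _ | ⟨v, B'⟩
    · exact ⟨B, hB⟩
    · exact (hu v ⟨B, B', hB⟩).elim
  -- the complement is closed under successors
  have hsucc : ∀ x ∈ V, x ∉ W → ∃ y ∈ V, y ∉ W ∧ Nx V x y := by
    intro x hx hxW
    obtain ⟨B, B', hB⟩ := List.append_of_mem (hM.closed x hx)
    rcases B' with _ | ⟨v, B'⟩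
    · exfalso
      have := List.append_inj' (hB.symm.trans hL) rfl
      have h2 : x = u := tau_inj.1 (List.cons.inj this.2).1
      subst h2
      exact hxW (by rw [hAu]; simp)
    · have hnx : Nx V x v := ⟨B, B', hB⟩
      refine ⟨v, (nx_mem hnx).2, ?_, hnx⟩
      intro hvW
      obtain ⟨C, D, hCD⟩ := chain_pred hV hVs hW hch hvW hnx
      exact hxW (by rw [hCD]; simp)
  have hall : ∀ x ∈ V, x ∈ W := by
    classical
    set C : Finset Germ := V.toFinset.filter (fun x => x ∉ W) with hC
    have memC : ∀ x, x ∈ C ↔ x ∈ V ∧ x ∉ W := by intro x; simp [hC]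
    choose! f hfV hfW hfN using hsucc
    have hf : ∀ x ∈ C, f x ∈ C := fun x hx => by
      rw [memC] at hx ⊢
      exact ⟨hfV x hx.1 hx.2, hfW x hx.1 hx.2⟩
    have hinj : Set.InjOn f (C : Set Germ) := by
      intro x hx y hy hxy
      have hx' := (memC x).1 (by simpa using hx)
      have hy' := (memC y).1 (by simpa using hy)
      have h1 := hfN x hx'.1 hx'.2
      have h2 := hfN y hy'.1 hy'.2
      rw [hxy] at h1
      exact nx_inj hV h1 h2
    have hsurj : Set.SurjOn f (C : Set Germ) (C : Set Germ) :=
      Finset.surjOn_of_injOn_of_card_le f (fun x hx => by simpa using hf x (by simpa using hx))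
        hinj le_rfl
    have hprod : ∀ φ : F →* Multiplicative ℤ, ∏ x ∈ C, φ (Xs X x) = 1 := by
      intro φ
      have e1 : ∏ x ∈ C, φ (h (f x)) = ∏ x ∈ C, φ (h x) :=
        Finset.prod_nbij f hf hinj hsurj (fun _ _ => rfl)
      have e2 : ∏ x ∈ C, φ (h (f x)) = (∏ x ∈ C, φ (h x)) * ∏ x ∈ C, φ (Xs X x) := by
        rw [← Finset.prod_mul_distrib]
        refine Finset.prod_congr rfl fun x hx => ?_
        have hx' := (memC x).1 hx
        rw [hM.h_nx (hfN x hx'.1 hx'.2), map_mul]
      rw [e1] at e2
      exact (mul_eq_left.1 e2.symm)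
    have htau : ∀ x ∈ C, tau x ∈ C := by
      intro x hx
      by_contra hnot
      obtain ⟨φ, hφ1, hφ2⟩ := hM.dual x ((memC x).1 hx).1
      have hp := hprod φ
      rw [Finset.prod_eq_single_of_mem x hx, hφ1] at hp
      · exact absurd hp (by decide)
      · intro y hy hyx
        refine hφ2 y ((memC y).1 hy).1 (fst_ne_of hyx ?_)
        intro he
        exact hnot (he ▸ hy)
    have key : ∀ (n : ℕ) (B : List Germ), B.length = n → ∀ (A : List Germ) (x : Germ),
        V = A ++ x :: B → x ∉ C := by
      intro n
      induction n with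
      | zero =>
        intro B hB A x hx hxC
        have hB' : B = [] := List.length_eq_zero_iff.1 hB
        subst hB'
        have h1 := (memC _).1 (htau x hxC)
        have h2 := hfN _ h1.1 h1.2
        exact nx_last_false hV (u := tau x) (by simpa using hx) h2
      | succ n ih =>
        intro B hB A x hx hxC
        obtain ⟨v, B', hB'⟩ := List.exists_cons_of_length_eq_add_one hB
        subst hB'
        have h1 := (memC _).1 (htau x hxC)
        have h2 := hfN _ h1.1 h1.2
        have h3 : Nx V (tau x) v := ⟨A, B', by simpa using hx⟩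
        have h4 := nx_unique hV h2 h3
        have h5 : v ∈ C := by rw [← h4]; exact hf _ (htau x hxC)
        exact ih B' (by simpa using hB) (A ++ [x]) v (by rw [hx]; simp) h5
    intro x hx
    by_contra hxW
    obtain ⟨A, B, hAB⟩ := List.append_of_mem hx
    exact key _ B rfl A x hAB ((memC x).2 ⟨hx, hxW⟩)
  have hpre : ∀ (A : List Germ) (u : Germ) (B : List Germ), W = A ++ u :: B →
      h u = (A.map (Xs X)).prod := by
    intro A
    induction A using List.reverseRecOn with
    | nil =>
      intro u B hB
      have : u = s := by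
        rw [hW] at hB
        exact (List.cons.inj hB).1.symm
      subst this
      simpa using hM.h_head hVs
    | append_singleton A x ih =>
      intro u B hB
      have hB' : W = A ++ x :: u :: B := by rw [hB]; simp
      rw [hM.h_nx (hch A x u B hB'), ih x (u :: B) hB']
      simp
  refine ⟨W, hnd, fun x => ⟨fun hx => hsub hx, hall x⟩, hch, by rw [hW, hVs]; simp, ?_, ?_, hpre⟩
  · intro B v hB
    have := List.append_inj' (hAu.symm.trans hB) rfl
    have h2 : u = v := (List.cons.inj this.2).1
    subst h2
    exact ⟨L, hL⟩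
  · rw [hAu, List.map_append, List.prod_append, ← hpre A u [] hAu]
    simpa using hM.h_last hL

/-- there is no nonempty set of germs which is closed under successors -/
theorem Mk.no_closed {V : List Germ} {X : ℕ → F} {h : Germ → F} {z : F} (hM : Mk V X h z)
    (T : Germ → Prop) (hne : ∃ u ∈ V, T u) (hcl : ∀ u ∈ V, T u → ∃ v, Nx V u v ∧ T v) :
    False := by
  obtain ⟨W, hW⟩ := tour_exists hM
  have hV := hM.nodup
  have key : ∀ (n : ℕ) (B : List Germ), B.length = n → ∀ (A : List Germ) (x : Germ),
      W = A ++ x :: B → ¬ T x := by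
    intro n
    induction n with
    | zero =>
      intro B hB A x hx hT
      have hB' : B = [] := List.length_eq_zero_iff.1 hB
      subst hB'
      obtain ⟨v, hv, _⟩ := hcl x ((hW.mem x).1 (by rw [hx]; simp)) hT
      obtain ⟨L, hL⟩ := hW.last A x hx
      exact nx_last_false hV hL hv
    | succ n ih =>
      intro B hB A x hx hT
      obtain ⟨v, B', hB'⟩ := List.exists_cons_of_length_eq_add_one hB
      subst hB'
      obtain ⟨y, hy, hTy⟩ := hcl x ((hW.mem x).1 (by rw [hx]; simp)) hT
      have h3 := hW.chain A x v B' hx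
      have h4 := nx_unique hV hy h3
      subst h4
      exact ih B' (by simpa using hB) (A ++ [x]) y (by rw [hx]; simp) hTy
  obtain ⟨u, hu, hTu⟩ := hne
  obtain ⟨A, B, hAB⟩ := List.append_of_mem ((hW.mem u).2 hu)
  exact key _ B rfl A u hAB hTu

end Pool.Agent.Torelli
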