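import Pool.Agent.Torelli.AB.Order

/-!
# Torelli project, part AB4: words, cancellation, encoding
-/

set_option autoImplicit false

namespace Pool.Agent.Torelli

open FreeGroup

/-- words: lists of signed letters -/
abbrev Wd := List (ℕ × Bool)

theorem toWord_eq_of_isReduced {x : F} {w : Wd} (h : FreeGroup.mk w = x) (hr : IsReduced w) :
    x.toWord = w := by
  rw [← h, toWord_mk, hr.reduce_eq]

theorem mk_append (u v : Wd) : (FreeGroup.mk (u ++ v) : F) = FreeGroup.mk u * FreeGroup.mk v := by
  rw [FreeGroup.mul_mk]

theorem mk_invRev (u : Wd) : (FreeGroup.mk (invRev u) : F) = (FreeGroup.mk u)⁻¹ := by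
  rw [FreeGroup.inv_mk]

theorem isReduced_append {u v : Wd} {l m : ℕ × Bool} (hu : IsReduced (u ++ [l]))
    (hv : IsReduced (m :: v)) (h : l.1 = m.1 → l.2 = m.2) : IsReduced ((u ++ [l]) ++ m :: v) := by
  unfold FreeGroup.IsReduced at *
  rw [List.isChain_append]
  refine ⟨hu, hv, ?_⟩
  intro x hx y hy
  simp at hx hy
  subst hx; subst hy
  exact h

theorem isReduced_left {u v : Wd} (h : IsReduced (u ++ v)) : IsReduced u := by
  unfold FreeGroup.IsReduced at *
  exact List.IsChain.left_of_append h

theorem isReduced_right {u v : Wd} (h : IsReduced (u ++ v)) : IsReduced v := by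
  unfold FreeGroup.IsReduced at *
  exact List.IsChain.right_of_append h

/-- **Cancellation.** -/
theorem cancel (x y : F) : ∃ α γ β : Wd, x.toWord = α ++ γ ∧ y.toWord = invRev γ ++ β ∧
    (x * y).toWord = α ++ β := by
  -- general statement on reduced words
  have key : ∀ (n : ℕ) (u v : Wd), u.length = n → IsReduced u → IsReduced v →
      ∃ α γ β : Wd, u = α ++ γ ∧ v = invRev γ ++ β ∧ IsReduced (α ++ β) := by
    intro n
    induction n with
    | zero =>
      intro u v hu _ hv
      have : u = [] := List.length_eq_zero_iff.1 hu
      subst this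
      exact ⟨[], [], v, by simp, by simp, by simpa using hv⟩
    | succ n ih =>
      intro u v hu hru hrv
      rcases List.eq_nil_or_concat u with rfl | ⟨u', l, rfl⟩
      · simp at hu
      · rcases v with _ | ⟨m, v'⟩
        · exact ⟨u'.concat l, [], [], by simp, by simp, by simpa using hru⟩
        · rw [List.concat_eq_append] at hu hru ⊢
          by_cases hlm : m = (l.1, !l.2)
          · have hru' : IsReduced u' := isReduced_left hru
            have hrv' : IsReduced v' := isReduced_right (u := [m]) hrv
            obtain ⟨α, γ, β, h1, h2, h3⟩ := ih u' v' (by simpa using hu) hru' hrv'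
            refine ⟨α, γ ++ [l], β, ?_, ?_, h3⟩
            · rw [h1]; simp
            · rw [invRev_append, h2, hlm]
              simp [invRev]
          · refine ⟨u' ++ [l], [], m :: v', by simp, by simp, ?_⟩
            refine isReduced_append hru hrv ?_
            intro h1
            by_contra h2
            apply hlm
            rcases l with ⟨l1, l2⟩
            rcases m with ⟨m1, m2⟩
            simp only at h1 h2
            subst h1
            cases l2 <;> cases m2 <;> simp_all
  obtain ⟨α, γ, β, h1, h2, h3⟩ := key _ x.toWord y.toWord rfl isReduced_toWord isReduced_toWord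
  refine ⟨α, γ, β, h1, h2, toWord_eq_of_isReduced ?_ h3⟩
  rw [← mk_toWord (x := x), ← mk_toWord (x := y), h1, h2, mk_append, mk_append, mk_append,
    mk_invRev]
  group

/-! ## Encoding -/

/-- code of a letter -/
def cd (p : ℕ × Bool) : ℕ := 2 * p.1 + (if p.2 then 0 else 1)

theorem cd_inj {p q : ℕ × Bool} (h : cd p = cd q) : p = q := by
  rcases p with ⟨p1, p2⟩
  rcases q with ⟨q1, q2⟩
  unfold cd at h
  cases p2 <;> cases q2 <;> simp at h ⊢ <;> omega

/-- number in base `B` coded by a word -/
def enc (B : ℕ) : Wd → ℕ
  | [] => 0
  | p :: w => cd p * B ^ w.length + enc B w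

theorem enc_append (B : ℕ) (u v : Wd) : enc B (u ++ v) = enc B u * B ^ v.length + enc B v := by
  induction u with
  | nil => simp [enc]
  | cons p u ih =>
    simp only [List.cons_append, enc, ih, List.length_append, pow_add]
    ring

theorem enc_lt {B : ℕ} {w : Wd} (h : ∀ p ∈ w, cd p < B) : enc B w < B ^ w.length := by
  induction w with
  | nil => simp [enc]
  | cons p w ih =>
    have h1 := h p (by simp)
    have h2 := ih (fun q hq => h q (by simp [hq]))
    simp only [enc, List.length_cons, pow_succ]
    calc cd p * B ^ w.length + enc B w < cd p * B ^ w.length + B ^ w.length := by omega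
      _ = (cd p + 1) * B ^ w.length := by ring
      _ ≤ B * B ^ w.length := Nat.mul_le_mul_right _ h1
      _ = B ^ w.length * B := by ring

theorem enc_inj {B : ℕ} {u v : Wd} (hu : ∀ p ∈ u, cd p < B) (hv : ∀ p ∈ v, cd p < B)
    (hl : u.length = v.length) (he : enc B u = enc B v) : u = v := by
  induction u generalizing v with
  | nil =>
    symm
    exact List.length_eq_zero_iff.1 hl.symm
  | cons p u ih =>
    rcases v with _ | ⟨q, v⟩
    · simp at hl
    · simp only [List.length_cons, add_left_inj] at hl
      have h1 := enc_lt (fun r hr => hu r (by simp [hr])) (w := u) (B := B)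
      have h2 := enc_lt (fun r hr => hv r (by simp [hr])) (w := v) (B := B)
      simp only [enc, hl] at he
      rw [hl] at h1
      have hpq : cd p = cd q := by
        by_contra hne
        rcases Nat.lt_or_gt_of_ne hne with h | h
        · have : (cd p + 1) * B ^ v.length ≤ cd q * B ^ v.length := Nat.mul_le_mul_right _ h
          have e : (cd p + 1) * B ^ v.length = cd p * B ^ v.length + B ^ v.length := by ring
          omega
        · have : (cd q + 1) * B ^ v.length ≤ cd p * B ^ v.length := Nat.mul_le_mul_right _ h
          have e : (cd q + 1) * B ^ v.length = cd q * B ^ v.length + B ^ v.length := by ring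
          omega
      have hE : enc B u = enc B v := by rw [hpq] at he; omega
      rw [cd_inj hpq, ih (fun r hr => hu r (by simp [hr])) (fun r hr => hv r (by simp [hr])) hl hE]

/-- left half -/
def lh (w : Wd) : Wd := w.take ((w.length + 1) / 2)

/-- second measure -/
def mu2 (B : ℕ) (x : F) : ℕ := enc B (lh x.toWord) + enc B (lh (invRev x.toWord))

theorem mu2_inv (B : ℕ) (x : F) : mu2 B x⁻¹ = mu2 B x := by
  unfold mu2
  rw [toWord_inv, invRev_invRev, add_comm]

/-- words with letters of code `< B` -/
def KB_ (B : ℕ) : Subgroup F where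
  carrier := {x | ∀ p ∈ x.toWord, cd p < 2 * B}
  one_mem' := by simp
  mul_mem' := by
    intro x y hx hy p hp
    have := (toWord_mul_sublist x y).subset hp
    rw [List.mem_append] at this
    rcases this with h | h
    · exact hx p h
    · exact hy p h
  inv_mem' := by
    intro x hx p hp
    rw [toWord_inv] at hp
    simp only [invRev, List.mem_reverse, List.mem_map] at hp
    obtain ⟨q, hq, rfl⟩ := hp
    have := hx q hq
    unfold cd at this ⊢
    rcases q with ⟨q1, q2⟩
    cases q2 <;> simp at this ⊢ <;> omega

theorem mem_KB {B : ℕ} {x : F} : x ∈ KB_ B ↔ ∀ p ∈ x.toWord, cd p < 2 * B := Iff.rfl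

/-! ## The centre of a word -/

/-- position of the centre of a word -/
def ctr (B : ℕ) (w : Wd) : ℕ :=
  if w.length % 2 = 1 then (w.length - 1) / 2
  else if enc (2 * B) (w.take (w.length / 2)) < enc (2 * B) (invRev (w.drop (w.length / 2))) then
    w.length / 2
  else w.length / 2 - 1

/-- the part before the centre -/
def pre (B : ℕ) (x : F) : Wd := x.toWord.take (ctr B x.toWord)

/-- the central letter -/
def ctl (B : ℕ) (x : F) : ℕ × Bool := x.toWord.getD (ctr B x.toWord) (0, true)

/-- the part after the centre -/
def post (B : ℕ) (x : F) : Wd := x.toWord.drop (ctr B x.toWord + 1)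

/-- the product does not decrease the measure -/
def MP (B : ℕ) (x y : F) : Prop :=
  ¬ (FreeGroup.norm (x * y) < FreeGroup.norm x ∨
      (FreeGroup.norm (x * y) = FreeGroup.norm x ∧ mu2 (2 * B) (x * y) < mu2 (2 * B) x)) ∧
  ¬ (FreeGroup.norm (x * y) < FreeGroup.norm y ∨
      (FreeGroup.norm (x * y) = FreeGroup.norm y ∧ mu2 (2 * B) (x * y) < mu2 (2 * B) y))

end Pool.Agent.Torelli
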